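import Pool.Agent.TFP.Defs
import Pool.Agent.Helper47.TR.FPx

set_option autoImplicit false

/-!
# TFP-FpL: the list operations of the machine are polynomial time computable

Model: `Pool/Agent/Helper47/TR/FPx.lean` (`FP.filter`, `FP.flatMap_ctx`).
-/

namespace Pool.Agent.TFP

open Turing Function N487b59b3 N68a2faeb Pool.Agent.Helper22 Pool.Agent.Helper6.WB Computability
  Pool.Agent.Helper47.TR

section

variable {α β γ : Type} [N487b59b3 α] [N487b59b3 β] [N487b59b3 γ]

private theorem natBeq' {f g : α → ℕ} (hf : FP f) (hg : FP g) : FP fun a => (f a == g a) := by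
  refine (congrArg FP (funext fun a => ?_)).mp (FP.natEq hf hg)
  exact (beq_eq_decide _ _).symm

theorem FP.filter2 [Inhabited β] {p : γ × β → Bool} (hp : FP p) {f : α → γ} {g : α → List β}
    (hf : FP f) (hg : FP g) : FP fun a => (g a).filter fun b => p (f a, b) := by
  have h1 : FP fun q : γ × β => if p q then [q.2] else [] :=
    FP.ite hp (FP.cons (by fun_prop) (FP.const [])) (FP.const [])
  have h2 := (FP.flatMap_ctx h1).comp (FP.pair hf hg)
  refine (congrArg FP (funext fun a => ?_)).mp h2
  simp only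
  induction (g a) with
  | nil => rfl
  | cons b l ih =>
    rw [List.flatMap_cons, ih, List.filter_cons]
    split_ifs <;> simp

@[fun_prop]
theorem FP.contains {f : α → List ℕ} {g : α → ℕ} (hf : FP f) (hg : FP g) :
    FP fun a => (f a).contains (g a) := by
  have h1 : FP fun q : ℕ × ℕ => (q.1 == q.2) := natBeq' (by fun_prop) (by fun_prop)
  have h2 := (FP.any_ctx h1).comp (FP.pair hg hf)
  refine (congrArg FP (funext fun a => ?_)).mp h2
  simp only
  rw [List.contains_eq_any_beq]

@[fun_prop]
theorem FP.atL {v : α → ℕ} {G : α → List Ed} (hv : FP v) (hG : FP G) :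
    FP fun a => TFP.atL (v a) (G a) := by
  have h1 : FP fun q : ℕ × Ed => (q.2.2.1 == q.1 || q.2.2.2 == q.1) :=
    FP.or (natBeq' (by fun_prop) (by fun_prop)) (natBeq' (by fun_prop) (by fun_prop))
  exact FP.filter2 h1 hv hG

@[fun_prop]
theorem FP.oth {v : α → ℕ} {e : α → Ed} (hv : FP v) (he : FP e) :
    FP fun a => TFP.oth (v a) (e a) := by
  have h1 : FP fun a => decide ((e a).2.1 = v a) := FP.natEq (by fun_prop) hv
  have h2 := FP.ite h1 (f := fun a => (e a).2.2) (g := fun a => (e a).2.1) (by fun_prop) (by fun_prop)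
  refine (congrArg FP (funext fun a => ?_)).mp h2
  unfold TFP.oth
  by_cases h : (e a).2.1 = v a
  · simp [h]
  · simp [h]

private theorem edEq' {e f : α → Ed} (he : FP e) (hf : FP f) : FP fun a => (e a == f a) := by
  have h1 : FP fun a => ((e a).1 == (f a).1) && (((e a).2.1 == (f a).2.1) && ((e a).2.2 == (f a).2.2)) :=
    FP.and (natBeq' (by fun_prop) (by fun_prop))
      (FP.and (natBeq' (by fun_prop) (by fun_prop)) (natBeq' (by fun_prop) (by fun_prop)))
  exact h1

@[fun_prop]
theorem FP.delL {e : α → Ed} {G : α → List Ed} (he : FP e) (hG : FP G) :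
    FP fun a => TFP.delL (e a) (G a) := by
  have h1 : FP fun q : Ed × Ed => !(q.2 == q.1) := FP.not (edEq' (by fun_prop) (by fun_prop))
  exact FP.filter2 h1 he hG

@[fun_prop]
theorem FP.outL {K : α → List ℕ} {G : α → List Ed} (hK : FP K) (hG : FP G) :
    FP fun a => TFP.outL (K a) (G a) := by
  have h1 : FP fun q : List ℕ × Ed => !(q.1.contains q.2.2.1) && !(q.1.contains q.2.2.2) :=
    FP.and (FP.not (FP.contains (by fun_prop) (by fun_prop)))
      (FP.not (FP.contains (by fun_prop) (by fun_prop)))
  exact FP.filter2 h1 hK hG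

@[fun_prop]
theorem FP.btwL {v : α → ℕ} {K : α → List ℕ} {G : α → List Ed} (hv : FP v) (hK : FP K)
    (hG : FP G) : FP fun a => TFP.btwL (v a) (K a) (G a) := by
  have h1 : FP fun q : (ℕ × List ℕ) × Ed =>
      ((q.2.2.1 == q.1.1 && q.1.2.contains q.2.2.2) || (q.2.2.2 == q.1.1 && q.1.2.contains q.2.2.1)) :=
    FP.or (FP.and (natBeq' (by fun_prop) (by fun_prop)) (FP.contains (by fun_prop) (by fun_prop)))
      (FP.and (natBeq' (by fun_prop) (by fun_prop)) (FP.contains (by fun_prop) (by fun_prop)))
  exact FP.filter2 h1 (hv.pair hK) hG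

@[fun_prop]
theorem FP.val {f : α → List Bool} (hf : FP f) : FP fun a => Helper6.WB.val (f a) := by
  have h := FP.canon (FP.reverse hf)
  simp only [hor_reverse] at h
  exact h

end

end Pool.Agent.TFP
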