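import Mathlib
import Pool.Agent.Helper47.TR.Defs

set_option autoImplicit false

/-!
# TFP: the statement level definitions

Multigraphs `MG`, `Valid` and `tutte` are those of `Pool.Agent.Helper47.TR.Defs`.
-/

namespace Pool.Agent.TFP

open Pool.Agent.Helper47.TR

/-- the number of non-loop edges at the vertex `v` -/
def deg (G : MG) (v : ℕ) : ℕ :=
  (G.2.filter fun e => decide (e.1 ≠ e.2 ∧ (e.1 = v ∨ e.2 = v))).length

/-- there are no two parallel non-loop edges -/
def NoPar (G : MG) : Prop :=
  ∀ i j : Fin G.2.length, i ≠ j → (G.2.get i).1 ≠ (G.2.get i).2 →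
    G.2.get i ≠ G.2.get j ∧ G.2.get i ≠ (G.2.get j).swap

/-- `a` approximates `f`: same sign and ratio of absolute values between `e^(-ε)` and `e^ε` -/
def Close (ε : ℝ) (f a : ℚ) : Prop :=
  (0 < a ↔ 0 < f) ∧ (a < 0 ↔ f < 0) ∧
    Real.exp (-ε) * |(f : ℝ)| ≤ |(a : ℝ)| ∧ |(a : ℝ)| ≤ Real.exp ε * |(f : ℝ)|

open Classical in
/-- `f` has a fully polynomial randomised approximation scheme on the class `C` of valid
multigraphs: there are a polynomial `p` and a polynomial time computable function `A` of the
multigraph `G`, the precision parameter `N` (a list, `ε = 1 / (|N| + 1)`) and a list `r` of bits,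
with values fractions `a / b`, such that for all `G` in `C` and all `N`, for at least three quarters
of the bit strings `r` of length `p (|code of (G, N)|)`, `A (G, N, r)` approximates `f G`. -/
def HasFPRAS (C : MG → Prop) (f : MG → ℚ) : Prop :=
  ∃ (p : Polynomial ℕ) (A : (MG × List Bool) × List Bool → ℤ × ℕ), N68a2faeb.IsPolyTime A ∧
    ∀ G : MG, Valid G → C G → ∀ N : List Bool,
      (3 / 4 : ℚ) * 2 ^ p.eval (N487b59b3.bitEncode (G, N)).length ≤
        (Finset.univ.filter fun r : Fin (p.eval (N487b59b3.bitEncode (G, N)).length) → Bool =>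
          (A ((G, N), List.ofFn r)).2 ≠ 0 ∧
            Close (1 / (N.length + 1)) (f G)
              ((A ((G, N), List.ofFn r)).1 / (A ((G, N), List.ofFn r)).2)).card

end Pool.Agent.TFP
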