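import Mathlib
import Pool.Agent.Helper6.WB.Arith
import Pool.Agent.TFP.Stmt

set_option autoImplicit false

/-!
# TFP: definitions

PROJECT TFP (MP_e767af_lc): FPRAS for the Tutte polynomial `T(G; x, y)`, `x > 1`, `0 ≤ y < 1`, on
graphs of maximum degree `< x` (or `≤ x`).

An edge is a triple (label, end, end); the abstract part works with `Finset`s of edges, the
machine with lists of edges without duplicates.
-/

namespace Pool.Agent.TFP

open Finset

/-- an edge: label and the two ends -/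
abbrev Ed := ℕ × (ℕ × ℕ)

/-- the edge `e` joins `v` and `u` -/
def Jn (e : Ed) (v u : ℕ) : Prop := (e.2.1 = v ∧ e.2.2 = u) ∨ (e.2.1 = u ∧ e.2.2 = v)

/-- adjacency in the edge set `A` -/
def Adj (A : Finset Ed) (a b : ℕ) : Prop := ∃ e ∈ A, Jn e a b

/-- reachability in the edge set `A` -/
def Rch (A : Finset Ed) : ℕ → ℕ → Prop := Relation.ReflTransGen (Adj A)

/-- the ends of the edges in `A` -/
def ends (A : Finset Ed) : Finset ℕ := A.image (fun e => e.2.1) ∪ A.image (fun e => e.2.2)

open Classical in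
/-- the component of `v` in `A` -/
noncomputable def comp (A : Finset Ed) (v : ℕ) : Finset ℕ :=
  (insert v (ends A)).filter fun w => Rch A v w

/-- the rank of `A` -/
noncomputable def rk (A : Finset Ed) : ℕ := ∑ S ∈ (ends A).image (comp A), (S.card - 1)

/-- the partition function `∑_A β^|A| μ^rk(A)` -/
noncomputable def ZZ (μ β : ℚ) (G : Finset Ed) : ℚ := ∑ A ∈ G.powerset, β ^ A.card * μ ^ rk A

/-- the edges with both ends in `S` -/
def ins (S : Finset ℕ) (G : Finset Ed) : Finset Ed := G.filter fun e => e.2.1 ∈ S ∧ e.2.2 ∈ S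

/-- the edges with no end in `S` -/
def out (S : Finset ℕ) (G : Finset Ed) : Finset Ed := G.filter fun e => e.2.1 ∉ S ∧ e.2.2 ∉ S

/-- the edges at `v` -/
def star (v : ℕ) (G : Finset Ed) : Finset Ed := G.filter fun e => e.2.1 = v ∨ e.2.2 = v

/-- the edges between `v` and `K` -/
def btw (v : ℕ) (K : Finset ℕ) (G : Finset Ed) : Finset Ed :=
  G.filter fun e => (e.2.1 = v ∧ e.2.2 ∈ K) ∨ (e.2.2 = v ∧ e.2.1 ∈ K)

/-- all vertices of `S` are connected by `A` -/
def ConnOn (A : Finset Ed) (S : Finset ℕ) : Prop := ∀ a ∈ S, ∀ b ∈ S, Rch A a b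

open Classical in
/-- the generating function of the connected spanning edge sets of `S` -/
noncomputable def cc (β : ℚ) (S : Finset ℕ) (G : Finset Ed) : ℚ :=
  ∑ A ∈ (ins S G).powerset.filter (fun A => ConnOn A S), β ^ A.card

/-- no loops -/
def NL (G : Finset Ed) : Prop := ∀ e ∈ G, e.2.1 ≠ e.2.2

/-- the weight of `S` as the component of `v` -/
noncomputable def ww (μ β : ℚ) (G : Finset Ed) (v : ℕ) (S : Finset ℕ) : ℚ :=
  if v ∈ S then μ ^ (S.card - 1) * cc β S G * ZZ μ β (out S G) else 0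

/-! ## The probabilistic parametrisation: `β = y - 1`, `μ = lam / β`, `lam = 1 / (x - 1)` -/

noncomputable def Z (lam y : ℚ) (G : Finset Ed) : ℚ := ZZ (lam / (y - 1)) (y - 1) G

/-- the distribution of the cluster of `v` -/
noncomputable def q (lam y : ℚ) (G : Finset Ed) (v : ℕ) (S : Finset ℕ) : ℚ :=
  ww (lam / (y - 1)) (y - 1) G v S / Z lam y G

/-- acceptance probability -/
noncomputable def thK (y : ℚ) (v : ℕ) (K : Finset ℕ) (G : Finset Ed) : ℚ :=
  if v ∈ K then 0 else y ^ (btw v K G).card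

/-- mean acceptance probability: `K` is distributed as the cluster of `u` -/
noncomputable def th (lam y : ℚ) (V : Finset ℕ) (G : Finset Ed) (u v : ℕ) : ℚ :=
  ∑ K ∈ V.powerset, q lam y G u K * thK y v K G

/-- the class of edge sets: no loops, ends in `V`, degrees at most `D`, acceptance probabilities
at least `θ0` -/
def Cl (V : Finset ℕ) (D : ℕ) (lam y θ0 : ℚ) (G : Finset Ed) : Prop :=
  NL G ∧ ends G ⊆ V ∧ (∀ v, (star v G).card ≤ D) ∧
    ∀ e ∈ G, ∀ v u, Jn e v u → ∀ H ⊆ G.erase e, θ0 ≤ th lam y V H u v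

/-! ## The machine -/

/-- parameters: `x = a / c`, `y = y1 / y2`, `b` = number of bits per step, `D` = degree bound -/
structure Par where
  a : ℕ
  c : ℕ
  y1 : ℕ
  y2 : ℕ
  b : ℕ
  D : ℕ

/-- conditions on the parameters -/
def Par.Ok (P : Par) : Prop :=
  0 < P.c ∧ P.c < P.a ∧ P.y1 < P.y2 ∧ P.a ≤ 2 ^ P.b ∧ P.y2 ^ P.D ≤ 2 ^ P.b

/-- `lam = 1 / (x - 1)` -/
def Par.lam (P : Par) : ℚ := P.c / (P.a - P.c)

/-- `y` -/
def Par.y (P : Par) : ℚ := P.y1 / P.y2

/-- a frame of the stack -/
abbrev Frame := Bool × ((ℕ × Ed) × (List Ed × List ℕ))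

/-- a state: `(true, ((v, (G, _)), st))`: sample the cluster of `v` in `G`;
`(false, ((_, (_, K)), st))`: the cluster `K` is returned. -/
abbrev St := Bool × ((ℕ × (List Ed × List ℕ)) × List Frame)

/-- evaluation state -/
abbrev ev (v : ℕ) (G : List Ed) (st : List Frame) : St := (true, ((v, (G, [])), st))

/-- return state -/
abbrev ret (K : List ℕ) (st : List Frame) : St := (false, ((0, ([], K)), st))

/-- frame waiting for the cluster of the other end of the edge `e` -/
abbrev frA (v : ℕ) (e : Ed) (G : List Ed) : Frame := (true, ((v, e), (G, [])))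

/-- frame: unite with `K` -/
abbrev frB (K : List ℕ) : Frame := (false, ((0, (0, (0, 0))), ([], K)))

/-- the list of edges at `v` -/
def atL (v : ℕ) (G : List Ed) : List Ed := G.filter fun e => e.2.1 == v || e.2.2 == v

/-- the other end -/
def oth (v : ℕ) (e : Ed) : ℕ := if e.2.1 = v then e.2.2 else e.2.1

/-- deletion -/
def delL (e : Ed) (G : List Ed) : List Ed := G.filter fun f => !(f == e)

/-- the edges without end in `K` -/
def outL (K : List ℕ) (G : List Ed) : List Ed :=
  G.filter fun e => !(K.contains e.2.1) && !(K.contains e.2.2)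

/-- the edges between `v` and `K` -/
def btwL (v : ℕ) (K : List ℕ) (G : List Ed) : List Ed :=
  G.filter fun e => (e.2.1 == v && K.contains e.2.2) || (e.2.2 == v && K.contains e.2.1)

/-- number of edges between `v` and `K`, truncated at `D` -/
def jj (P : Par) (v : ℕ) (K : List ℕ) (G : List Ed) : ℕ := ((btwL v K G).take P.D).length

/-- one step of the machine, `U` is a random number `< 2 ^ b` -/
def stepM (P : Par) (U : ℕ) (s : St) : St :=
  if s.1 then
    if (atL s.2.1.1 s.2.1.2.1).isEmpty then ret [s.2.1.1] s.2.2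
    else if U < P.c then
      ev (oth s.2.1.1 ((atL s.2.1.1 s.2.1.2.1).headD (0, (0, 0))))
        (delL ((atL s.2.1.1 s.2.1.2.1).headD (0, (0, 0))) s.2.1.2.1)
        (frA s.2.1.1 ((atL s.2.1.1 s.2.1.2.1).headD (0, (0, 0)))
          (delL ((atL s.2.1.1 s.2.1.2.1).headD (0, (0, 0))) s.2.1.2.1) :: s.2.2)
    else if U < P.a then
      ev s.2.1.1 (delL ((atL s.2.1.1 s.2.1.2.1).headD (0, (0, 0))) s.2.1.2.1) s.2.2
    else s
  else if s.2.2.isEmpty then s
  else if (s.2.2.headD (frB [])).1 then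
    if s.2.1.2.2.contains (s.2.2.headD (frB [])).2.1.1 then
      ev (s.2.2.headD (frB [])).2.1.1
        ((s.2.2.headD (frB [])).2.1.2 :: (s.2.2.headD (frB [])).2.2.1) s.2.2.tail
    else if U < P.y1 ^ jj P (s.2.2.headD (frB [])).2.1.1 s.2.1.2.2
        (s.2.2.headD (frB [])).2.2.1 then
      ev (s.2.2.headD (frB [])).2.1.1 (outL s.2.1.2.2 (s.2.2.headD (frB [])).2.2.1)
        (frB s.2.1.2.2 :: s.2.2.tail)
    else if U < P.y2 ^ jj P (s.2.2.headD (frB [])).2.1.1 s.2.1.2.2
        (s.2.2.headD (frB [])).2.2.1 then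
      ev (s.2.2.headD (frB [])).2.1.1
        ((s.2.2.headD (frB [])).2.1.2 :: (s.2.2.headD (frB [])).2.2.1) s.2.2.tail
    else s
  else ret ((s.2.2.headD (frB [])).2.2.2 ++ s.2.1.2.2) s.2.2.tail

/-- `L` steps -/
def runM (P : Par) : ℕ → List Bool → St → St
  | 0, _, s => s
  | L + 1, l, s => runM P L (l.drop P.b) (stepM P (Helper6.WB.val (l.take P.b)) s)

/-- terminal state -/
def isT (s : St) : Bool := !s.1 && s.2.2.isEmpty

/-- payoff of a state, times `y2 ^ D` -/
def pay (P : Par) (v : ℕ) (G : List Ed) (s : St) : ℕ :=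
  if isT s && !(s.2.1.2.2.contains v) then
    P.y1 ^ jj P v s.2.1.2.2 G * P.y2 ^ (P.D - jj P v s.2.1.2.2 G) else 0

/-- one trial for the factor of the edge `e`, `E` = list of the later edges -/
def trial (P : Par) (L : ℕ) (e : Ed) (E : List Ed) (l : List Bool) : ℕ :=
  pay P e.2.1 E (runM P L l (ev e.2.2 E []))

/-- the sum of `k` trials -/
def sumT (P : Par) (L : ℕ) (e : Ed) (E : List Ed) : ℕ → List Bool → ℕ
  | 0, _ => 0
  | k + 1, l => trial P L e E (l.take (L * P.b)) + sumT P L e E k (l.drop (L * P.b))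

/-- numerator of the estimator of `Z` -/
def numer (P : Par) (k L : ℕ) : List Ed → List Bool → ℕ
  | [], _ => 1
  | e :: E, l => ((P.a - P.c) * k * P.y2 ^ P.D + P.c * sumT P L e E k (l.take (k * (L * P.b)))) *
      numer P k L E (l.drop (k * (L * P.b)))

/-- denominator of the estimator of `Z` -/
def denom (P : Par) (k : ℕ) (E : List Ed) : ℕ := ((P.a - P.c) * k * P.y2 ^ P.D) ^ E.length

/-- labelled edges; the label is the number of the later edges -/
def labE (l : List (ℕ × ℕ)) : List Ed := l.foldr (fun e acc => (acc.length, e) :: acc) []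

/-- labelled nonloop edges -/
def nlE (l : List (ℕ × ℕ)) : List Ed := (labE l).filter fun e => !(e.2.1 == e.2.2)

/-- the loops -/
def lps (l : List (ℕ × ℕ)) : List (ℕ × ℕ) := l.filter fun e => e.1 == e.2

/-! ## Averages over bit strings -/

/-- the average of `F` over all lists of `n` bits -/
def avg : ℕ → (List Bool → ℚ) → ℚ
  | 0, F => F []
  | n + 1, F => (avg n (fun l => F (false :: l)) + avg n (fun l => F (true :: l))) / 2

/-- product of independent factors -/
def prodB (n : ℕ) : List (List Bool → ℚ) → List Bool → ℚ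
  | [], _ => 1
  | f :: fs, l => f (l.take n) * prodB n fs (l.drop n)

/-! ## Harmonic and superharmonic functions -/

/-- the value function of a stack: `nE G v` is the cost of sampling the cluster of `v` in `G`, `κ`
the cost of a return step, `F` the final payoff -/
noncomputable def RR (lam y : ℚ) (V : Finset ℕ) (nE : Finset Ed → ℕ → ℚ) (κ : ℚ)
    (F : Finset ℕ → ℚ) : List Frame → Finset ℕ → ℚ
  | [], K => F K
  | f :: st, K =>
    if f.1 then
      κ + (thK y f.2.1.1 K f.2.2.1.toFinset *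
          (nE (out K f.2.2.1.toFinset) f.2.1.1 +
            ∑ S ∈ V.powerset, q lam y (out K f.2.2.1.toFinset) f.2.1.1 S *
              (κ + RR lam y V nE κ F st (K ∪ S))) +
        (1 - thK y f.2.1.1 K f.2.2.1.toFinset) *
          (nE (insert f.2.1.2 f.2.2.1.toFinset) f.2.1.1 +
            ∑ S ∈ V.powerset, q lam y (insert f.2.1.2 f.2.2.1.toFinset) f.2.1.1 S *
              RR lam y V nE κ F st S))
    else κ + RR lam y V nE κ F st (f.2.2.2.toFinset ∪ K)

/-- the value function of states -/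
noncomputable def Val (lam y : ℚ) (V : Finset ℕ) (nE : Finset Ed → ℕ → ℚ) (κ : ℚ)
    (F : Finset ℕ → ℚ) (s : St) : ℚ :=
  if s.1 then nE s.2.1.2.1.toFinset s.2.1.1 +
      ∑ S ∈ V.powerset, q lam y s.2.1.2.1.toFinset s.2.1.1 S * RR lam y V nE κ F s.2.2 S
  else RR lam y V nE κ F s.2.2 s.2.1.2.2.toFinset

/-- the expected decrease of the cost at an evaluation step which is not lazy -/
noncomputable def Dcost (lam y : ℚ) (V : Finset ℕ) (nE : Finset Ed → ℕ → ℚ) (κ : ℚ)
    (G : Finset Ed) (v u : ℕ) (e : Ed) : ℚ :=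
  nE G v - (1 / (1 + lam) * nE (G.erase e) v + lam / (1 + lam) *
    (nE (G.erase e) u + κ + ∑ K ∈ V.powerset, q lam y (G.erase e) u K *
      (thK y v K (G.erase e) * (nE (out K (G.erase e)) v + κ) +
        (1 - thK y v K (G.erase e)) * nE G v)))

/-- the invariant of the states -/
def Inv (V : Finset ℕ) (D : ℕ) (lam y θ0 : ℚ) (s : St) : Prop :=
  (s.1 = true → s.2.1.2.1.Nodup ∧ Cl V D lam y θ0 s.2.1.2.1.toFinset ∧ s.2.1.1 ∈ V) ∧
    ∀ f ∈ s.2.2, f.1 = true → (f.2.1.2 :: f.2.2.1).Nodup ∧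
      Cl V D lam y θ0 (f.2.1.2 :: f.2.2.1).toFinset ∧ f.2.1.1 ∈ V ∧
      (f.2.1.2.2.1 = f.2.1.1 ∨ f.2.1.2.2.2 = f.2.1.1)

/-- the potential: expected number of steps, at most -/
noncomputable def Pot (P : Par) (V : Finset ℕ) (B : ℚ) (s : St) : ℚ :=
  Val P.lam P.y V (fun G v => 2 ^ P.b * (1 + B * (star v G).card)) (2 ^ P.b) (fun _ => 0) s

/-- the true factors of `Z` -/
noncomputable def zs (lam y : ℚ) (V : Finset ℕ) : List Ed → List ℚ
  | [] => []
  | e :: E => (1 + lam * th lam y V E.toFinset e.2.2 e.2.1) :: zs lam y V E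

/-- the estimated factors of `Z` -/
def facs (P : Par) (k L : ℕ) : List Ed → List (List Bool → ℚ)
  | [] => []
  | e :: E => (fun l => 1 + P.lam / (k * P.y2 ^ P.D) * sumT P L e E k l) :: facs P k L E

end Pool.Agent.TFP
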