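import Pool.Agent.TFP.Defs

set_option autoImplicit false

/-!
# TFP-Avg: averages over bit strings (easy inductions on `n`)
-/

namespace Pool.Agent.TFP

open Finset

theorem avg_const (n : ℕ) (c : ℚ) : avg n (fun _ => c) = c := by
  induction n with
  | zero => rfl
  | succ n ih =>
    show (avg n (fun _ => c) + avg n (fun _ => c)) / 2 = c
    rw [ih]
    ring

theorem avg_add (n : ℕ) (F H : List Bool → ℚ) : avg n (fun l => F l + H l) = avg n F + avg n H := by
  induction n generalizing F H with
  | zero => rfl
  | succ n ih =>
    show (avg n (fun l => F (false :: l) + H (false :: l)) +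
      avg n (fun l => F (true :: l) + H (true :: l))) / 2 =
      (avg n (fun l => F (false :: l)) + avg n (fun l => F (true :: l))) / 2 +
      (avg n (fun l => H (false :: l)) + avg n (fun l => H (true :: l))) / 2
    rw [ih (fun l => F (false :: l)) (fun l => H (false :: l)),
      ih (fun l => F (true :: l)) (fun l => H (true :: l))]
    ring

theorem avg_smul (n : ℕ) (c : ℚ) (F : List Bool → ℚ) : avg n (fun l => c * F l) = c * avg n F := by
  induction n generalizing F with
  | zero => rfl
  | succ n ih =>
    show (avg n (fun l => c * F (false :: l)) + avg n (fun l => c * F (true :: l))) / 2 =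
      c * ((avg n (fun l => F (false :: l)) + avg n (fun l => F (true :: l))) / 2)
    rw [ih (fun l => F (false :: l)), ih (fun l => F (true :: l))]
    ring

theorem avg_congr {n : ℕ} {F H : List Bool → ℚ} (h : ∀ l, l.length = n → F l = H l) :
    avg n F = avg n H := by
  induction n generalizing F H with
  | zero => exact h [] rfl
  | succ n ih =>
    show (avg n (fun l => F (false :: l)) + avg n (fun l => F (true :: l))) / 2 =
      (avg n (fun l => H (false :: l)) + avg n (fun l => H (true :: l))) / 2
    rw [ih (F := fun l => F (false :: l)) (H := fun l => H (false :: l))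
        (fun l hl => h _ (by rw [List.length_cons, hl])),
      ih (F := fun l => F (true :: l)) (H := fun l => H (true :: l))
        (fun l hl => h _ (by rw [List.length_cons, hl]))]

theorem avg_sub (n : ℕ) (F H : List Bool → ℚ) : avg n (fun l => F l - H l) = avg n F - avg n H := by
  have e : avg n (fun l => F l - H l) = avg n (fun l => F l + (-1) * H l) :=
    avg_congr fun l _ => by ring
  rw [e, avg_add n F (fun l => (-1) * H l), avg_smul]
  ring

theorem avg_mono {n : ℕ} {F H : List Bool → ℚ} (h : ∀ l, l.length = n → F l ≤ H l) :
    avg n F ≤ avg n H := by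
  induction n generalizing F H with
  | zero => exact h [] rfl
  | succ n ih =>
    show (avg n (fun l => F (false :: l)) + avg n (fun l => F (true :: l))) / 2 ≤
      (avg n (fun l => H (false :: l)) + avg n (fun l => H (true :: l))) / 2
    have h1 := ih (F := fun l => F (false :: l)) (H := fun l => H (false :: l))
        (fun l hl => h _ (by rw [List.length_cons, hl]))
    have h2 := ih (F := fun l => F (true :: l)) (H := fun l => H (true :: l))
        (fun l hl => h _ (by rw [List.length_cons, hl]))
    linarith

/-- independence: a bit string of length `m + n` is the concatenation of two independent ones -/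
theorem avg_append (m n : ℕ) (F : List Bool → ℚ) :
    avg (m + n) F = avg m (fun l => avg n (fun l' => F (l ++ l'))) := by
  induction m generalizing F with
  | zero =>
    rw [zero_add]
    rfl
  | succ m ih =>
    have e : m + 1 + n = (m + n) + 1 := by omega
    rw [e]
    show (avg (m + n) (fun l => F (false :: l)) + avg (m + n) (fun l => F (true :: l))) / 2 =
      (avg m (fun l => avg n (fun l' => F ((false :: l) ++ l'))) +
        avg m (fun l => avg n (fun l' => F ((true :: l) ++ l')))) / 2
    rw [ih (fun l => F (false :: l)), ih (fun l => F (true :: l))]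
    rfl

/-- independence, with `take` and `drop` -/
theorem avg_take_drop (m n : ℕ) (F : List Bool → List Bool → ℚ) :
    avg (m + n) (fun l => F (l.take m) (l.drop m)) = avg m (fun l => avg n (fun l' => F l l')) := by
  rw [avg_append]
  refine avg_congr fun l hl => avg_congr fun l' _ => ?_
  rw [← hl, List.take_left, List.drop_left]

theorem avg_take {m n : ℕ} (h : m ≤ n) (F : List Bool → ℚ) :
    avg n (fun l => F (l.take m)) = avg m F := by
  obtain ⟨k, rfl⟩ := Nat.exists_eq_add_of_le h
  rw [avg_take_drop m k (fun l _ => F l)]
  refine avg_congr fun l _ => avg_const k (F l)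

/-- the average as a count -/
theorem avg_count (n : ℕ) (F : List Bool → ℚ) :
    avg n F = (∑ r : Fin n → Bool, F (List.ofFn r)) / 2 ^ n := by
  induction n generalizing F with
  | zero =>
    rw [Fintype.sum_unique, List.ofFn_zero, pow_zero, div_one]
    rfl
  | succ n ih =>
    have h1 := Fintype.sum_equiv (Fin.consEquiv (fun _ : Fin (n + 1) => Bool))
      (fun q : Bool × (Fin n → Bool) => F (q.1 :: List.ofFn q.2)) (fun r => F (List.ofFn r))
      (fun q => by
        have e : List.ofFn ((Fin.consEquiv (fun _ : Fin (n + 1) => Bool)) q) = q.1 :: List.ofFn q.2 := by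
          rw [List.ofFn_succ]
          rfl
        rw [e])
    have h2 : avg (n + 1) F = (avg n (fun l => F (false :: l)) + avg n (fun l => F (true :: l))) / 2 := rfl
    rw [h2, ← h1, Fintype.sum_prod_type, Fintype.sum_bool, ih (fun l => F (false :: l)),
      ih (fun l => F (true :: l)), pow_succ]
    field_simp
    ring

private theorem avg_sum_two (m : ℕ) (F : ℕ → ℚ) :
    ∑ U ∈ range (2 * m), F U = ∑ U ∈ range m, F (2 * U) + ∑ U ∈ range m, F (2 * U + 1) := by
  induction m with
  | zero => simp
  | succ m ih =>
    have e : 2 * (m + 1) = 2 * m + 1 + 1 := by ring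
    rw [e, Finset.sum_range_succ, Finset.sum_range_succ, ih, Finset.sum_range_succ,
      Finset.sum_range_succ]
    ring

/-- `val` of `b` random bits is a uniform number `< 2 ^ b` -/
theorem avg_val (b : ℕ) (F : ℕ → ℚ) :
    avg b (fun l => F (Helper6.WB.val l)) = (∑ U ∈ range (2 ^ b), F U) / 2 ^ b := by
  induction b generalizing F with
  | zero =>
    rw [pow_zero, Finset.range_one, Finset.sum_singleton, pow_zero, div_one]
    rfl
  | succ b ih =>
    have h2 : avg (b + 1) (fun l => F (Helper6.WB.val l)) =
        (avg b (fun l => F (Helper6.WB.val (false :: l))) +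
          avg b (fun l => F (Helper6.WB.val (true :: l)))) / 2 := rfl
    have e1 : avg b (fun l => F (Helper6.WB.val (false :: l))) =
        avg b (fun l => (fun U => F (2 * U)) (Helper6.WB.val l)) :=
      avg_congr fun l _ => by
        rw [Helper6.WB.val_cons, Nat.bit_false]
    have e2 : avg b (fun l => F (Helper6.WB.val (true :: l))) =
        avg b (fun l => (fun U => F (2 * U + 1)) (Helper6.WB.val l)) :=
      avg_congr fun l _ => by
        rw [Helper6.WB.val_cons, Nat.bit_true]
    rw [h2, e1, e2, ih (fun U => F (2 * U)), ih (fun U => F (2 * U + 1))]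
    have e3 : 2 ^ (b + 1) = 2 * 2 ^ b := by ring
    rw [e3, avg_sum_two, pow_succ]
    field_simp

end Pool.Agent.TFP
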