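import Pool.Agent.TFP.Defs

set_option autoImplicit false

/-!
# TFP-Num: elementary inequalities, parameters

Plan.
* `close_of`: `t = 1/(2(N+1)) ≤ 1/2`, `ε = 1/(N+1) = 2t`: `|a - f| ≤ t f`, `f ≥ 0`: `(1-t) f ≤ a ≤ (1+t) f`;
  `exp(-2t) ≤ 1 - t` for `0 ≤ t ≤ 1/2`: `exp(2t) ≥ 1 + 2t`, `(1 + 2t)(1 - t) = 1 + t - 2t² ≥ 1`;
  `1 + t ≤ exp(2t)` (`Real.add_one_le_exp`). If `f = 0` then `a = 0`; if `f > 0` then `a > 0`.
* `par_exists`: `a = x.num.toNat`, `c = x.den`, `y1 = y.num.toNat`, `y2 = y.den`, `b = a + y2 ^ D` (`Nat.lt_two_pow_self`);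
  `x = a / c` (`Rat.num_div_den`), `c < a` from `x > 1`; `lam = c / (a - c) = 1 / (x - 1)`.
-/

namespace Pool.Agent.TFP

open Finset

private theorem exp_neg_le {t : ℝ} (h0 : 0 ≤ t) (h1 : t ≤ 1 / 2) : Real.exp (-(2 * t)) ≤ 1 - t := by
  have h2 : 2 * t + 1 ≤ Real.exp (2 * t) := Real.add_one_le_exp (2 * t)
  have h3 : Real.exp (-(2 * t)) * Real.exp (2 * t) = 1 := by
    rw [← Real.exp_add]
    simp
  have h4 : 0 < Real.exp (-(2 * t)) := Real.exp_pos _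
  have h5 : (1 : ℝ) ≤ (1 - t) * Real.exp (2 * t) := by
    have h6 : (1 - t) * (2 * t + 1) ≤ (1 - t) * Real.exp (2 * t) :=
      mul_le_mul_of_nonneg_left h2 (by linarith)
    nlinarith [h6]
  have h7 : Real.exp (-(2 * t)) * 1 ≤ Real.exp (-(2 * t)) * ((1 - t) * Real.exp (2 * t)) :=
    mul_le_mul_of_nonneg_left h5 h4.le
  have h8 : Real.exp (-(2 * t)) * ((1 - t) * Real.exp (2 * t)) = 1 - t := by
    calc Real.exp (-(2 * t)) * ((1 - t) * Real.exp (2 * t)) =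
        (1 - t) * (Real.exp (-(2 * t)) * Real.exp (2 * t)) := by ring
      _ = 1 - t := by rw [h3, mul_one]
  linarith

theorem close_of {f a : ℚ} (hf : 0 ≤ f) (N : ℕ) (h : |a - f| ≤ 1 / (2 * (N + 1)) * f) :
    Close (1 / (N + 1)) f a := by
  have hfR : (0 : ℝ) ≤ (f : ℝ) := by exact_mod_cast hf
  have hN : (0 : ℝ) < (N : ℝ) + 1 := by positivity
  have hR : |(a : ℝ) - (f : ℝ)| ≤ 1 / (2 * ((N : ℝ) + 1)) * (f : ℝ) := by
    have h' : ((|a - f| : ℚ) : ℝ) ≤ ((1 / (2 * ((N : ℚ) + 1)) * f : ℚ) : ℝ) := by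
      exact_mod_cast h
    push_cast at h'
    exact h'
  obtain ⟨t, ht⟩ : ∃ t : ℝ, t = 1 / (2 * ((N : ℝ) + 1)) := ⟨_, rfl⟩
  rw [← ht] at hR
  have ht0 : 0 ≤ t := by rw [ht]; positivity
  have ht1 : t ≤ 1 / 2 := by
    rw [ht]
    apply div_le_div_of_nonneg_left (by norm_num) (by norm_num)
    have : (0 : ℝ) ≤ N := Nat.cast_nonneg N
    linarith
  have h2t : 1 / ((N : ℝ) + 1) = 2 * t := by
    rw [ht]
    field_simp
  obtain ⟨h1, h2⟩ := abs_le.1 hR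
  have h3 : (1 - t) * (f : ℝ) ≤ (a : ℝ) := by linarith
  have h4 : (a : ℝ) ≤ (1 + t) * (f : ℝ) := by linarith
  have h5 : 0 ≤ (1 - t) * (f : ℝ) := mul_nonneg (by linarith) hfR
  have ha : (0 : ℝ) ≤ (a : ℝ) := h5.trans h3
  have haQ : 0 ≤ a := by exact_mod_cast ha
  unfold Close
  rw [h2t, abs_of_nonneg hfR, abs_of_nonneg ha]
  refine ⟨⟨?_, ?_⟩, ⟨?_, ?_⟩, ?_, ?_⟩
  · intro h6
    rcases hf.lt_or_eq with h7 | h7
    · exact h7
    · exfalso
      rw [← h7] at h4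
      have h8 : (0 : ℝ) < (a : ℝ) := by exact_mod_cast h6
      rw [Rat.cast_zero, mul_zero] at h4
      linarith
  · intro h6
    have h7 : (0 : ℝ) < (f : ℝ) := by exact_mod_cast h6
    have h8 : 0 < (1 - t) * (f : ℝ) := mul_pos (by linarith) h7
    have h9 : (0 : ℝ) < (a : ℝ) := lt_of_lt_of_le h8 h3
    exact_mod_cast h9
  · intro h6
    exact absurd haQ (not_le.2 h6)
  · intro h6
    exact absurd hf (not_le.2 h6)
  · exact (mul_le_mul_of_nonneg_right (exp_neg_le ht0 ht1) hfR).trans h3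
  · refine h4.trans (mul_le_mul_of_nonneg_right ?_ hfR)
    have h6 : 2 * t + 1 ≤ Real.exp (2 * t) := Real.add_one_le_exp (2 * t)
    linarith

theorem par_exists {x y : ℚ} (hx : 1 < x) (hy0 : 0 ≤ y) (hy1 : y < 1) (D : ℕ) :
    ∃ P : Par, P.Ok ∧ P.D = D ∧ P.lam = 1 / (x - 1) ∧ P.y = y ∧ x = P.a / P.c := by
  have hxn : 0 ≤ x.num := Rat.num_nonneg.2 (by linarith)
  have hyn : 0 ≤ y.num := Rat.num_nonneg.2 hy0
  have hxa : ((x.num.toNat : ℕ) : ℚ) = (x.num : ℚ) := by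
    have h := Int.toNat_of_nonneg hxn
    exact_mod_cast congrArg (fun z : ℤ => (z : ℚ)) h
  have hya : ((y.num.toNat : ℕ) : ℚ) = (y.num : ℚ) := by
    have h := Int.toNat_of_nonneg hyn
    exact_mod_cast congrArg (fun z : ℤ => (z : ℚ)) h
  have hxd : (0 : ℚ) < (x.den : ℚ) := by exact_mod_cast x.den_pos
  have hyd : (0 : ℚ) < (y.den : ℚ) := by exact_mod_cast y.den_pos
  have hx1 : x = (x.num.toNat : ℚ) / (x.den : ℚ) := by
    rw [hxa]
    exact (Rat.num_div_den x).symm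
  have hy2 : (y.num.toNat : ℚ) / (y.den : ℚ) = y := by
    rw [hya]
    exact Rat.num_div_den y
  have hxm : x * (x.den : ℚ) = (x.num.toNat : ℚ) := by
    rw [eq_div_iff hxd.ne'] at hx1
    exact hx1
  have hym : y * (y.den : ℚ) = (y.num.toNat : ℚ) := by
    have h := hy2.symm
    rw [eq_div_iff hyd.ne'] at h
    exact h
  refine ⟨⟨x.num.toNat, x.den, y.num.toNat, y.den, x.num.toNat + y.den ^ D, D⟩,
    ⟨x.den_pos, ?_, ?_, ?_, ?_⟩, rfl, ?_, hy2, hx1⟩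
  · have h : (x.den : ℚ) < (x.num.toNat : ℚ) := by
      rw [← hxm]
      nlinarith
    exact_mod_cast h
  · have h : (y.num.toNat : ℚ) < (y.den : ℚ) := by
      rw [← hym]
      nlinarith
    exact_mod_cast h
  · show x.num.toNat ≤ 2 ^ (x.num.toNat + y.den ^ D)
    exact (Nat.lt_two_pow_self).le.trans (Nat.pow_le_pow_right (by norm_num) (Nat.le_add_right _ _))
  · show y.den ^ D ≤ 2 ^ (x.num.toNat + y.den ^ D)
    exact (Nat.lt_two_pow_self).le.trans (Nat.pow_le_pow_right (by norm_num) (Nat.le_add_left _ _))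
  · show (x.den : ℚ) / ((x.num.toNat : ℚ) - (x.den : ℚ)) = 1 / (x - 1)
    have h1 : (x - 1) ≠ 0 := by
      intro h
      linarith
    have h2 : (x.num.toNat : ℚ) - (x.den : ℚ) = (x - 1) * (x.den : ℚ) := by
      rw [← hxm]
      ring
    rw [h2]
    field_simp

end Pool.Agent.TFP
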