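import Pool.Agent.TFP.Comp
import Pool.Agent.Helper47.TR.Tut

set_option autoImplicit false

/-!
# TFP-CpsQ: the number of components of a set of edge indices

`im G A` is the set of labelled edges with indices in `A`, for any injective labelling `lb`.

Plan. The map `Quot (adj G A) → image`, class of `u` ↦ `comp (im lb G A) u`, is well defined (`adj G A u v` gives
`Adj (im ..) u v`, `comp_eq`), surjective onto `(range n).image (comp ..)`, and injective: if
`comp .. u = comp .. v` then `Rch (im ..) u v`; by induction on the path (all vertices on it are `< n` since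
`Valid`), `Quot.mk _ u = Quot.mk _ w` (`Quot.sound` for each edge, in one of the two directions). Hence
`Nat.card (Quot ..) = card` (`Nat.card_congr`/`Nat.card_eq_of_bijective`, `Nat.card_eq_fintype_card`).
-/

namespace Pool.Agent.TFP

open Finset Pool.Agent.Helper47.TR

/-- the set of labelled edges with indices in `A` -/
def im (G : MG) (lb : Fin G.2.length → ℕ) (A : Finset (Fin G.2.length)) : Finset Ed :=
  A.image fun i => (lb i, G.2.get i)

theorem ends_im {G : MG} (hG : Valid G) (lb : Fin G.2.length → ℕ)
    (A : Finset (Fin G.2.length)) : ends (im G lb A) ⊆ range G.1.length := by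
  intro x hx
  unfold ends im at hx
  rw [Finset.mem_union, Finset.mem_image, Finset.mem_image] at hx
  rw [Finset.mem_range]
  rcases hx with ⟨e, he, hxe⟩ | ⟨e, he, hxe⟩
  · rw [Finset.mem_image] at he
    obtain ⟨i, _, rfl⟩ := he
    subst hxe
    exact (hG _ (List.get_mem _ _)).1
  · rw [Finset.mem_image] at he
    obtain ⟨i, _, rfl⟩ := he
    subst hxe
    exact (hG _ (List.get_mem _ _)).2

private theorem cq_adj {G : MG} (lb : Fin G.2.length → ℕ) (A : Finset (Fin G.2.length))
    {u v : Fin G.1.length} (h : adj G A u v) : Adj (im G lb A) u v := by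
  obtain ⟨i, hi, h1, h2⟩ := h
  exact ⟨(lb i, G.2.get i), Finset.mem_image.2 ⟨i, hi, rfl⟩, Or.inl ⟨h1, h2⟩⟩

private theorem cq_rch {G : MG} (hG : Valid G) (lb : Fin G.2.length → ℕ)
    (A : Finset (Fin G.2.length)) {u w : ℕ} (h : Rch (im G lb A) u w) (hu : u < G.1.length) :
    ∃ hw : w < G.1.length, Quot.mk (adj G A) ⟨u, hu⟩ = Quot.mk (adj G A) ⟨w, hw⟩ := by
  induction h with
  | refl => exact ⟨hu, rfl⟩
  | tail _ hbc ih =>
    obtain ⟨hw, ih⟩ := ih
    obtain ⟨e, he, hj⟩ := hbc
    unfold im at he
    rw [Finset.mem_image] at he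
    obtain ⟨i, hi, rfl⟩ := he
    obtain ⟨h1, h2⟩ := hG _ (List.get_mem G.2 i)
    rcases hj with ⟨ha, hb⟩ | ⟨ha, hb⟩
    · have hc := h2
      change (G.2.get i).2 < _ at hc
      change (G.2.get i).1 = _ at ha
      change (G.2.get i).2 = _ at hb
      rw [hb] at hc
      refine ⟨hc, ih.trans (Quot.sound ⟨i, hi, ha, hb⟩)⟩
    · have hc := h1
      change (G.2.get i).1 < _ at hc
      change (G.2.get i).1 = _ at ha
      change (G.2.get i).2 = _ at hb
      rw [ha] at hc
      refine ⟨hc, ih.trans (Quot.sound ⟨i, hi, ha, hb⟩).symm⟩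

theorem comps_eq_card {G : MG} (hG : Valid G) (lb : Fin G.2.length → ℕ)
    (A : Finset (Fin G.2.length)) :
    comps G A = ((range G.1.length).image (comp (im G lb A))).card := by
  classical
  set S := (range G.1.length).image (comp (im G lb A)) with hS
  have hmem : ∀ u : Fin G.1.length, comp (im G lb A) u ∈ S := fun u =>
    Finset.mem_image.2 ⟨u, Finset.mem_range.2 u.2, rfl⟩
  let φ : Quot (adj G A) → S := Quot.lift (fun u => ⟨comp (im G lb A) u, hmem u⟩) (by
    intro u v huv
    apply Subtype.ext
    exact comp_eq (Relation.ReflTransGen.single (cq_adj lb A huv)))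
  have hφ : Function.Bijective φ := by
    constructor
    · intro a b hab
      induction a using Quot.ind with
      | mk u =>
        induction b using Quot.ind with
        | mk v =>
          have h1 : comp (im G lb A) u = comp (im G lb A) v := congrArg Subtype.val hab
          have h2 : (v : ℕ) ∈ comp (im G lb A) u := by
            rw [h1]
            exact self_mem_comp _ _
          rw [mem_comp] at h2
          obtain ⟨_, h3⟩ := cq_rch hG lb A h2 u.2
          exact h3
    · rintro ⟨c, hc⟩
      obtain ⟨u, hu, hcu⟩ := Finset.mem_image.1 hc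
      refine ⟨Quot.mk _ ⟨u, Finset.mem_range.1 hu⟩, ?_⟩
      exact Subtype.ext hcu
  have h := Nat.card_eq_of_bijective φ hφ
  unfold comps
  rw [h]
  simp

end Pool.Agent.TFP
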