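import Pool.Agent.TFP.Comp

set_option autoImplicit false

/-!
# TFP-RkEq: rank and number of components; loops do not matter

Plan.
* `rk_add_card`: the components partition `V` (`comp A v ⊆ V` by `comp_subset`), so
  `V.card = ∑_{S ∈ V.image (comp A)} S.card` (`Finset.card_eq_sum_card_fiberwise` for `comp A`; the fibre of
  `S = comp A v` is `S`) `= ∑ (S.card - 1) + #(V.image (comp A))` (every `S` is nonempty); and
  `∑_{S ∈ V.image (comp A)} (S.card - 1) = rk A` because for `v ∉ ends A` the term of `comp A v = {v}` is zero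
  (`Finset.sum_subset`).
* `comp_noloop`: removing loops does not change `Rch`. (`Adj A a b` by a loop means `a = b`.)
* `rk_noloop`: `rk A = ∑` over the image of `ends A`; the same sum over the larger set, terms of vertices
  not in `ends` of the smaller set are zero; `comp` are equal.
* `ZZ_loops`: `A ↦ (A.filter loop, A.filter nonloop)` is a bijection of `G.powerset` onto the product of
  powersets; `∑_{J ⊆ loops} β^|J| = (1 + β)^#loops`.
-/

namespace Pool.Agent.TFP

open Finset

private theorem rk_sum {A : Finset Ed} {V : Finset ℕ} (hV : ends A ⊆ V) :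
    ∑ S ∈ V.image (comp A), (S.card - 1) = rk A := by
  unfold rk
  symm
  apply Finset.sum_subset (Finset.image_subset_image hV)
  intro S hS hS'
  obtain ⟨v, _, rfl⟩ := Finset.mem_image.1 hS
  have hv : v ∉ ends A := fun h => hS' (Finset.mem_image_of_mem _ h)
  rw [comp_not_ends hv, Finset.card_singleton, Nat.sub_self]

theorem rk_add_card {A : Finset Ed} {V : Finset ℕ} (hV : ends A ⊆ V) :
    rk A + (V.image (comp A)).card = V.card := by
  have h1 : ∀ S ∈ V.image (comp A), (V.filter fun w => comp A w = S).card = (S.card - 1) + 1 := by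
    intro S hS
    obtain ⟨v, hv, rfl⟩ := Finset.mem_image.1 hS
    have h2 : (V.filter fun w => comp A w = comp A v) = comp A v := by
      ext w
      rw [Finset.mem_filter]
      constructor
      · rintro ⟨_, h⟩
        rw [← h]
        exact self_mem_comp A w
      · intro h
        refine ⟨?_, ?_⟩
        · exact comp_subset (Finset.insert_subset hv hV) h
        · exact (comp_eq (mem_comp.1 h)).symm
    rw [h2]
    have h3 : 0 < (comp A v).card := Finset.card_pos.2 ⟨v, self_mem_comp A v⟩
    omega
  rw [Finset.card_eq_sum_card_image (comp A) V, Finset.sum_congr rfl h1, Finset.sum_add_distrib,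
    rk_sum hV, Finset.sum_const, smul_eq_mul, mul_one]

private theorem Rch_noloop {A : Finset Ed} {a b : ℕ} (h : Rch A a b) :
    Rch (A.filter fun e => e.2.1 ≠ e.2.2) a b := by
  induction h with
  | refl => exact Relation.ReflTransGen.refl
  | @tail x y _ hxy ih =>
    obtain ⟨e, he, hj⟩ := hxy
    by_cases hl : e.2.1 = e.2.2
    · have hxy' : x = y := by
        rcases hj with ⟨h1, h2⟩ | ⟨h1, h2⟩
        · rw [← h1, ← h2, hl]
        · rw [← h1, ← h2, hl]
      rw [← hxy']
      exact ih
    · exact ih.tail ⟨e, Finset.mem_filter.2 ⟨he, hl⟩, hj⟩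

private theorem comp_noloop (A : Finset Ed) :
    comp (A.filter fun e => e.2.1 ≠ e.2.2) = comp A := by
  funext v
  ext w
  rw [mem_comp, mem_comp]
  exact ⟨fun h => h.mono (Finset.filter_subset _ _), Rch_noloop⟩

theorem rk_noloop (A : Finset Ed) : rk (A.filter fun e => e.2.1 ≠ e.2.2) = rk A := by
  have h1 : ends (A.filter fun e => e.2.1 ≠ e.2.2) ⊆ ends A :=
    ends_mono (Finset.filter_subset _ _)
  rw [← rk_sum h1, comp_noloop A]
  rfl

private theorem sum_pow_loops (β : ℚ) (L : Finset Ed) :
    ∑ X ∈ L.powerset, β ^ X.card = (1 + β) ^ L.card := by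
  have h := Finset.sum_pow_mul_eq_add_pow β 1 L
  rw [add_comm 1 β, ← h]
  refine Finset.sum_congr rfl fun X _ => ?_
  rw [one_pow, mul_one]

theorem ZZ_loops (μ β : ℚ) (G : Finset Ed) :
    ZZ μ β G = (1 + β) ^ (G.filter fun e => e.2.1 = e.2.2).card *
      ZZ μ β (G.filter fun e => e.2.1 ≠ e.2.2) := by
  rw [← sum_pow_loops β (G.filter fun e => e.2.1 = e.2.2)]
  unfold ZZ
  rw [Finset.sum_mul_sum, ← Finset.sum_product']
  refine Finset.sum_bij'
    (fun A _ => ((A.filter fun e => e.2.1 = e.2.2), (A.filter fun e => e.2.1 ≠ e.2.2)))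
    (fun p _ => p.1 ∪ p.2) ?_ ?_ ?_ ?_ ?_
  · intro A hA
    rw [Finset.mem_powerset] at hA
    rw [Finset.mem_product, Finset.mem_powerset, Finset.mem_powerset]
    exact ⟨Finset.filter_subset_filter _ hA, Finset.filter_subset_filter _ hA⟩
  · rintro ⟨X, Y⟩ hp
    rw [Finset.mem_product, Finset.mem_powerset, Finset.mem_powerset] at hp
    rw [Finset.mem_powerset]
    exact Finset.union_subset (hp.1.trans (Finset.filter_subset _ _))
      (hp.2.trans (Finset.filter_subset _ _))
  · intro A hA
    exact Finset.filter_union_filter_not_eq (fun e : Ed => e.2.1 = e.2.2) A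
  · rintro ⟨X, Y⟩ hp
    rw [Finset.mem_product, Finset.mem_powerset, Finset.mem_powerset] at hp
    have hX : ∀ e ∈ X, e.2.1 = e.2.2 := fun e he => (Finset.mem_filter.1 (hp.1 he)).2
    have hY : ∀ e ∈ Y, e.2.1 ≠ e.2.2 := fun e he => (Finset.mem_filter.1 (hp.2 he)).2
    refine Prod.ext ?_ ?_
    · show (X ∪ Y).filter (fun e => e.2.1 = e.2.2) = X
      ext e
      rw [Finset.mem_filter, Finset.mem_union]
      constructor
      · rintro ⟨h1 | h1, h2⟩
        · exact h1
        · exact absurd h2 (hY e h1)
      · intro h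
        exact ⟨Or.inl h, hX e h⟩
    · show (X ∪ Y).filter (fun e => e.2.1 ≠ e.2.2) = Y
      ext e
      rw [Finset.mem_filter, Finset.mem_union]
      constructor
      · rintro ⟨h1 | h1, h2⟩
        · exact absurd (hX e h1) h2
        · exact h1
      · intro h
        exact ⟨Or.inr h, hY e h⟩
  · intro A _
    show β ^ A.card * μ ^ rk A = β ^ (A.filter fun e => e.2.1 = e.2.2).card *
      (β ^ (A.filter fun e => e.2.1 ≠ e.2.2).card * μ ^ rk (A.filter fun e => e.2.1 ≠ e.2.2))
    rw [rk_noloop, ← mul_assoc, ← pow_add, Finset.card_filter_add_card_filter_not]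

end Pool.Agent.TFP
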