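import Pool.Agent.TFP.FpL
import Pool.Agent.Helper47.TR.FPG

set_option autoImplicit false

/-!
# TFP-FpE: the list of labelled nonloop edges is polynomial time computable

Plan. `labE l = l.reverse.foldl (fun acc e => (acc.length, e) :: acc) []` (`List.foldr`/`List.foldl_reverse`).
`FP.foldl` with `g acc e = (acc.length, e) :: acc` (`FP.length`, `FP.cons`) for the general statement
`FP fun p : List (ℕ × ℕ) × List Ed => p.1.foldl g p.2`; size bound: all labels added are
`≤ l.length + a.length`, so `sz (l.foldl g a) ≤ B (sz l + sz a)` (`sz_list_le`, `size_add_le`, `sz_mem_le`, as for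
`FP.mergers` in `Helper47/TR/Rank.lean`); then `FP.reverse`, `FP.filter`.
-/

namespace Pool.Agent.TFP

open Turing Function N487b59b3 N68a2faeb Pool.Agent.Helper22 Pool.Agent.Helper6.WB Computability
  Pool.Agent.Helper47.TR

/-- one step of `labE` -/
private def fpeG (acc : List Ed) (e : ℕ × ℕ) : List Ed := (acc.length, e) :: acc

private theorem fpe_inv (l : List (ℕ × ℕ)) (N : ℕ) (hl : ∀ e ∈ l, sz e ≤ N) :
    ∀ a : List Ed, (∀ e ∈ a, sz e ≤ 3 * N + 1) → a.length + l.length ≤ N →
      (∀ e ∈ l.foldl fpeG a, sz e ≤ 3 * N + 1) ∧ (l.foldl fpeG a).length ≤ N := by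
  induction l with
  | nil =>
    intro a ha hN
    simp only [List.foldl_nil, List.length_nil, add_zero] at *
    exact ⟨ha, hN⟩
  | cons e l ih =>
    intro a ha hN
    rw [List.length_cons] at hN
    rw [List.foldl_cons]
    refine ih (fun e' he' => hl e' (List.mem_cons_of_mem _ he')) (fpeG a e) ?_ ?_
    · intro e' he'
      unfold fpeG at he'
      rcases List.mem_cons.1 he' with h | h
      · have h1 : Nat.size a.length ≤ a.length := Nat.size_le.2 Nat.lt_two_pow_self
        have h2 := hl e List.mem_cons_self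
        rw [h, sz_pair, sz_nat]
        omega
      · exact ha e' h
    · unfold fpeG
      rw [List.length_cons]
      omega

private theorem fpe_labE (l : List (ℕ × ℕ)) : labE l = l.reverse.foldl fpeG [] := by
  rw [List.foldl_reverse]
  rfl

section

variable {α : Type} [N487b59b3 α]

private theorem fpe_FP {f : α → List (ℕ × ℕ)} (hf : FP f) : FP fun a => TFP.labE (f a) := by
  have h1 : FP fun p : List Ed × (ℕ × ℕ) => fpeG p.1 p.2 := by
    unfold fpeG
    exact FP.cons (FP.pair (FP.length (by fun_prop)) (by fun_prop)) (by fun_prop)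
  have h2 : FP fun p : List (ℕ × ℕ) × List Ed => p.1.foldl fpeG p.2 := by
    refine FP.foldl h1 (B := fun n => n * (2 * (3 * n + 1) + 1)) (by fun_prop) ?_
    intro l a
    have h5 := length_le_sz l
    have h6 := length_le_sz a
    obtain ⟨h3, h4⟩ := fpe_inv l (sz l + sz a)
      (fun e he => by have := sz_mem_le he; omega) a
      (fun e he => by have := sz_mem_le he; omega) (by omega)
    exact (sz_list_le _ (3 * (sz l + sz a) + 1) h3).trans (Nat.mul_le_mul h4 le_rfl)
  have h3 := h2.comp (FP.pair (FP.reverse hf) (FP.const ([] : List Ed)))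
  refine (congrArg FP (funext fun a => ?_)).mp h3
  exact (fpe_labE (f a)).symm

@[fun_prop]
theorem FP.nlE {f : α → List (ℕ × ℕ)} (hf : FP f) : FP fun a => TFP.nlE (f a) := by
  have h1 : FP fun e : Ed => !(decide (e.2.1 = e.2.2)) := by fun_prop
  have h2 := FP.filter h1 (fpe_FP hf)
  refine (congrArg FP (funext fun a => ?_)).mp h2
  rfl

@[fun_prop]
theorem FP.lps {f : α → List (ℕ × ℕ)} (hf : FP f) : FP fun a => TFP.lps (f a) := by
  have h1 : FP fun e : ℕ × ℕ => decide (e.1 = e.2) := by fun_prop
  have h2 := FP.filter h1 hf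
  refine (congrArg FP (funext fun a => ?_)).mp h2
  rfl

end

end Pool.Agent.TFP
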