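import Pool.Agent.TFP.CpsQ
import Pool.Agent.TFP.RkEq
import Pool.Agent.Helper47.TR.Rank

set_option autoImplicit false

/-!
# TFP-TutR: the Tutte polynomial in terms of the partition function `Z`

`lbl l i = l.length - 1 - i` is the label of the `i`-th edge in `labE l` (`mem_labE`), so the set of the labelled edges is
the injective image of the index set (`im_univ`) and the sum over the sets of indices is the sum over the subsets of
`(labE l).toFinset`. `Z_eq_tutte`, `comps_eq_card`, `rk_add_card`, `comps_add_mergers` and `ZZ_loops` give the result.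
-/

namespace Pool.Agent.TFP

open Finset Pool.Agent.Helper47.TR

private theorem labE_length (l : List (ℕ × ℕ)) : (labE l).length = l.length := by
  induction l with
  | nil => rfl
  | cons e l ih =>
    show (((labE l).length, e) :: labE l).length = _
    rw [List.length_cons, ih, List.length_cons]

private theorem labE_cons (e : ℕ × ℕ) (l : List (ℕ × ℕ)) : labE (e :: l) = (l.length, e) :: labE l := by
  show ((labE l).length, e) :: labE l = _
  rw [labE_length]

private theorem mem_labE (l : List (ℕ × ℕ)) (x : Ed) :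
    x ∈ labE l ↔ ∃ i : Fin l.length, (l.length - 1 - (i : ℕ), l.get i) = x := by
  induction l with
  | nil =>
    constructor
    · intro h
      exact absurd h (List.not_mem_nil)
    · rintro ⟨i, -⟩
      exact i.elim0
  | cons e l ih =>
    rw [labE_cons, List.mem_cons, ih]
    constructor
    · rintro (rfl | ⟨i, rfl⟩)
      · exact ⟨⟨0, Nat.succ_pos _⟩, by simp⟩
      · refine ⟨⟨(i : ℕ) + 1, Nat.succ_lt_succ i.2⟩, ?_⟩
        have h1 : (e :: l).length - 1 - ((i : ℕ) + 1) = l.length - 1 - (i : ℕ) := by
          rw [List.length_cons]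
          omega
        rw [Prod.mk.injEq]
        exact ⟨h1, rfl⟩
    · rintro ⟨⟨i, hi⟩, rfl⟩
      cases i with
      | zero =>
        left
        simp
      | succ i =>
        right
        refine ⟨⟨i, Nat.lt_of_succ_lt_succ hi⟩, ?_⟩
        rw [Prod.mk.injEq]
        refine ⟨?_, rfl⟩
        show l.length - 1 - i = l.length + 1 - 1 - (i + 1)
        omega

private theorem labE_snd (l : List (ℕ × ℕ)) : (labE l).map Prod.snd = l := by
  induction l with
  | nil => rfl
  | cons e l ih => rw [labE_cons, List.map_cons, ih]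

theorem nodup_labE (l : List (ℕ × ℕ)) : (labE l).Nodup := by
  induction l with
  | nil => exact List.nodup_nil
  | cons e l ih =>
    rw [labE_cons, List.nodup_cons]
    refine ⟨?_, ih⟩
    rw [mem_labE]
    rintro ⟨i, hi⟩
    have h1 := (Prod.mk.inj hi).1
    have h2 := i.2
    omega

theorem nodup_nlE (l : List (ℕ × ℕ)) : (nlE l).Nodup := by
  exact (nodup_labE l).filter _

private theorem card_loops (l : List (ℕ × ℕ)) :
    ((labE l).toFinset.filter fun e => e.2.1 = e.2.2).card = (lps l).length := by
  have h1 : (labE l).toFinset.filter (fun e => e.2.1 = e.2.2) =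
      ((labE l).filter (fun e => decide (e.2.1 = e.2.2))).toFinset := by
    rw [List.toFinset_filter]
    simp
  rw [h1, List.toFinset_card_of_nodup ((nodup_labE l).filter _)]
  have h2 : lps l = (((labE l).filter (fun e => decide (e.2.1 = e.2.2))).map Prod.snd) := by
    unfold lps
    conv_lhs => rw [← labE_snd l]
    rw [List.filter_map]
    rfl
  rw [h2, List.length_map]

private theorem nlE_fin (l : List (ℕ × ℕ)) :
    (labE l).toFinset.filter (fun e => e.2.1 ≠ e.2.2) = (nlE l).toFinset := by
  unfold nlE
  rw [List.toFinset_filter]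
  refine Finset.filter_congr fun e _ => ?_
  simp

private theorem im_univ (G : MG) :
    im G (fun i => G.2.length - 1 - (i : ℕ)) univ = (labE G.2).toFinset := by
  ext x
  rw [List.mem_toFinset, mem_labE, im, mem_image]
  constructor
  · rintro ⟨i, _, h⟩
    exact ⟨i, h⟩
  · rintro ⟨i, h⟩
    exact ⟨i, mem_univ _, h⟩

private theorem sum_im (G : MG) (F : Finset Ed → ℚ) :
    ∑ B ∈ (labE G.2).toFinset.powerset, F B =
      ∑ A : Finset (Fin G.2.length), F (im G (fun i => G.2.length - 1 - (i : ℕ)) A) := by
  have hinj : Function.Injective (fun i : Fin G.2.length => ((G.2.length - 1 - (i : ℕ), G.2.get i) : Ed)) := by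
    intro i j h
    have h1 := (Prod.mk.inj h).1
    have h2 := i.2
    have h3 := j.2
    apply Fin.ext
    omega
  rw [← im_univ, im, powerset_image, sum_image, powerset_univ]
  · rfl
  · intro A _ B _ h
    exact image_injective hinj h

private theorem card_im (G : MG) (A : Finset (Fin G.2.length)) :
    (im G (fun i => G.2.length - 1 - (i : ℕ)) A).card = A.card := by
  refine card_image_of_injective _ ?_
  intro i j h
  have h1 : G.2.length - 1 - (i : ℕ) = G.2.length - 1 - (j : ℕ) := (Prod.mk.inj h).1
  have h2 := i.2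
  have h3 := j.2
  apply Fin.ext
  omega

theorem tutte_eq {G : MG} (hG : Valid G) {x y : ℚ} (hx : 1 < x) (hy : y < 1) :
    tutte x y G = (x - 1) ^ (mergers G).length * y ^ (lps G.2).length *
      Z (1 / (x - 1)) y (nlE G.2).toFinset := by
  have hβ : y - 1 ≠ 0 := by
    intro h
    linarith
  have hx0 : x - 1 ≠ 0 := by
    intro h
    linarith
  have hq : (x - 1) * (y - 1) ≠ 0 := mul_ne_zero hx0 hβ
  have h1 := Z_eq_tutte G hG x y
  have h2 : Helper47.TR.Z G (y - 1) ((x - 1) * (y - 1)) = ((x - 1) * (y - 1)) ^ G.1.length *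
      ZZ (1 / (x - 1) / (y - 1)) (y - 1) (labE G.2).toFinset := by
    unfold ZZ Helper47.TR.Z
    rw [sum_im, mul_sum]
    refine sum_congr rfl fun A _ => ?_
    rw [card_im]
    have h3 := comps_eq_card hG (fun i => G.2.length - 1 - (i : ℕ)) A
    have h4 := rk_add_card (ends_im hG (fun i => G.2.length - 1 - (i : ℕ)) A)
    rw [card_range, ← h3] at h4
    have h5 : 1 / (x - 1) / (y - 1) = ((x - 1) * (y - 1))⁻¹ := by
      rw [div_div, one_div]
    rw [h5, ← h4, pow_add, inv_pow]
    have h6 : ((x - 1) * (y - 1)) ^ rk (im G (fun i => G.2.length - 1 - (i : ℕ)) A) ≠ 0 :=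
      pow_ne_zero _ hq
    field_simp
  have h3 := comps_add_mergers hG
  rw [h2, mul_pow, ← h3, pow_add] at h1
  have h4 : (x - 1) ^ comps G univ ≠ 0 := pow_ne_zero _ hx0
  have h5 : (y - 1) ^ (comps G univ + (mergers G).length) ≠ 0 := pow_ne_zero _ hβ
  have h6 : tutte x y G = (x - 1) ^ (mergers G).length *
      ZZ (1 / (x - 1) / (y - 1)) (y - 1) (labE G.2).toFinset := by
    have h7 : (x - 1) ^ comps G univ * (y - 1) ^ (comps G univ + (mergers G).length) ≠ 0 :=
      mul_ne_zero h4 h5
    apply mul_left_cancel₀ h7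
    rw [← h1]
    ring
  rw [h6, ZZ_loops, card_loops, nlE_fin]
  unfold Z
  rw [add_sub_cancel]
  ring

end Pool.Agent.TFP
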