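import Pool.Agent.TFP.CRec

set_option autoImplicit false

/-!
# TFP-CPos: values and positivity of `cc`

Plan.
* `cc_base`: if no edge of `G` is at `v ∈ S` and `ConnOn A S` for some `A ⊆ ins S G` and `w ∈ S`, `w ≠ v`, then the
  path from `w` to `v` ends with an edge at `v`: contradiction; so the filter is empty and `cc = 0`. If
  `S = {v}`: `ins {v} G = ∅`, the only `A` is `∅`, `ConnOn ∅ {v}` is reflexivity: `cc = 1`.
* `cc_single`: `ins {v} G = ∅` as there are no loops.
* `cc_nonneg`: induction on `|G|` (strong, for all `S`): pick `v ∈ S`. If `star v G = ∅`: `cc_base`. Otherwise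
  take `e ∈ star v G`, `u` its other end, `v ≠ u` (`NL`); `cc_rec` with `β = y - 1` (`1 + β = y ≥ 0`), divide by
  `β^(|S|-1)`: the first term is `≥ 0` by induction; the others are
  `(cc K / β^(|K|-1)) * y^.. * (cc (S \ K) / β^(|S \ K|-1))`, since `|S| - 1 = 1 + (|K|-1) + (|S \ K|-1)`
  (`K`, `S \ K` nonempty), `β ≠ 0`.
-/

namespace Pool.Agent.TFP

open Finset

private theorem cc_empty (β : ℚ) {S : Finset ℕ} {G : Finset Ed} {v : ℕ} (hS : S = {v})
    (h : ins S G = ∅) : cc β S G = 1 := by
  classical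
  subst hS
  unfold cc
  rw [h, Finset.powerset_empty, Finset.filter_singleton, if_pos]
  · simp
  · intro a ha b hb
    rw [Finset.mem_singleton] at ha hb
    subst ha
    subst hb
    exact Relation.ReflTransGen.refl

theorem cc_base (β : ℚ) {S : Finset ℕ} {G : Finset Ed} {v : ℕ} (hv : v ∈ S) (h : star v G = ∅) :
    cc β S G = if S = {v} then 1 else 0 := by
  classical
  split_ifs with hS
  · apply cc_empty β hS
    rw [Finset.eq_empty_iff_forall_notMem]
    intro e he
    unfold ins at he
    rw [Finset.mem_filter, hS, Finset.mem_singleton, Finset.mem_singleton] at he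
    have h1 : e ∈ star v G := by
      unfold star
      rw [Finset.mem_filter]
      exact ⟨he.1, Or.inl he.2.1⟩
    rw [h] at h1
    exact absurd h1 (Finset.notMem_empty e)
  · unfold cc
    apply Finset.sum_eq_zero
    intro A hA
    exfalso
    rw [Finset.mem_filter, Finset.mem_powerset] at hA
    obtain ⟨hA1, hA2⟩ := hA
    have hw : ∃ w ∈ S, w ≠ v := by
      by_contra hcon
      push Not at hcon
      exact hS (Finset.eq_singleton_iff_unique_mem.mpr ⟨hv, hcon⟩)
    obtain ⟨w, hwS, hwv⟩ := hw
    have h1 := hA2 w hwS v hv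
    rcases Relation.ReflTransGen.cases_tail h1 with h2 | ⟨c, -, e, heA, hJ⟩
    · exact hwv h2.symm
    · have h3 := hA1 heA
      unfold ins at h3
      rw [Finset.mem_filter] at h3
      have h4 : e ∈ star v G := by
        unfold star
        rw [Finset.mem_filter]
        refine ⟨h3.1, ?_⟩
        rcases hJ with hJ | hJ
        · exact Or.inr hJ.2
        · exact Or.inl hJ.1
      rw [h] at h4
      exact absurd h4 (Finset.notMem_empty e)

theorem cc_single (β : ℚ) {G : Finset Ed} (hG : NL G) (v : ℕ) : cc β {v} G = 1 := by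
  apply cc_empty β rfl
  rw [Finset.eq_empty_iff_forall_notMem]
  intro e he
  unfold ins at he
  rw [Finset.mem_filter, Finset.mem_singleton, Finset.mem_singleton] at he
  exact hG e he.1 (he.2.1.trans he.2.2.symm)

private theorem cc_nonneg_aux {y : ℚ} (hy0 : 0 ≤ y) (hy1 : y < 1) (n : ℕ) :
    ∀ {G : Finset Ed}, G.card = n → NL G → ∀ {S : Finset ℕ}, S.Nonempty →
      0 ≤ cc (y - 1) S G / (y - 1) ^ (S.card - 1) := by
  induction n using Nat.strong_induction_on with
  | _ n ih =>
  intro G hn hG S hS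
  obtain ⟨v, hv⟩ := hS
  by_cases hst : star v G = ∅
  · rw [cc_base (y - 1) hv hst]
    split_ifs with hSv
    · subst hSv
      simp
    · simp
  · obtain ⟨e, he⟩ := Finset.nonempty_iff_ne_empty.mpr hst
    unfold star at he
    rw [Finset.mem_filter] at he
    obtain ⟨heG, hev⟩ := he
    have hne := hG e heG
    obtain ⟨u, hvu, hJ⟩ : ∃ u, v ≠ u ∧ Jn e v u := by
      rcases hev with h1 | h1
      · exact ⟨e.2.2, fun h2 => hne (h1.trans h2), Or.inl ⟨h1, rfl⟩⟩
      · exact ⟨e.2.1, fun h2 => hne (h2.symm.trans h1.symm), Or.inr ⟨rfl, h1⟩⟩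
    have hβ : (y - 1) ≠ 0 := by
      intro h0
      linarith
    have hG' : NL (G.erase e) := fun f hf => hG f (Finset.mem_of_mem_erase hf)
    have hc : (G.erase e).card < n := by
      rw [← hn]
      exact Finset.card_erase_lt_of_mem heG
    rw [cc_rec (y - 1) heG hvu hJ hv, add_div]
    apply add_nonneg
    · exact ih _ hc rfl hG' ⟨v, hv⟩
    · rw [Finset.mul_sum, Finset.sum_div]
      apply Finset.sum_nonneg
      intro K hK
      rw [Finset.mem_filter, Finset.mem_powerset] at hK
      obtain ⟨hKS, huK, hvK⟩ := hK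
      have hKne : K.Nonempty := ⟨u, huK⟩
      have hSne : (S \ K).Nonempty := ⟨v, Finset.mem_sdiff.mpr ⟨hv, hvK⟩⟩
      have hcard : (S \ K).card + K.card = S.card := Finset.card_sdiff_add_card_eq_card hKS
      have hk1 : 0 < K.card := hKne.card_pos
      have hk2 : 0 < (S \ K).card := hSne.card_pos
      have hexp : S.card - 1 = 1 + ((K.card - 1) + ((S \ K).card - 1)) := by omega
      have hy : (1 : ℚ) + (y - 1) = y := by ring
      rw [hexp, pow_add, pow_add, pow_one, hy]
      have h1 := ih _ hc rfl hG' hKne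
      have h2 := ih _ hc rfl hG' hSne
      have h3 : (y - 1) * (cc (y - 1) K (G.erase e) * y ^ (btw v K (G.erase e)).card *
          cc (y - 1) (S \ K) (G.erase e)) /
          ((y - 1) * ((y - 1) ^ (K.card - 1) * (y - 1) ^ ((S \ K).card - 1))) =
          (cc (y - 1) K (G.erase e) / (y - 1) ^ (K.card - 1)) *
            y ^ (btw v K (G.erase e)).card *
            (cc (y - 1) (S \ K) (G.erase e) / (y - 1) ^ ((S \ K).card - 1)) := by
        have h4 : (y - 1) ^ (K.card - 1) ≠ 0 := pow_ne_zero _ hβ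
        have h5 : (y - 1) ^ ((S \ K).card - 1) ≠ 0 := pow_ne_zero _ hβ
        rw [mul_div_mul_left _ _ hβ]
        rw [div_mul_eq_mul_div, div_mul_div_comm]
      rw [h3]
      exact mul_nonneg (mul_nonneg h1 (pow_nonneg hy0 _)) h2

theorem cc_nonneg {y : ℚ} (hy0 : 0 ≤ y) (hy1 : y < 1) {G : Finset Ed} (hG : NL G) {S : Finset ℕ}
    (hS : S.Nonempty) : 0 ≤ cc (y - 1) S G / (y - 1) ^ (S.card - 1) :=
  cc_nonneg_aux hy0 hy1 G.card rfl hG hS

end Pool.Agent.TFP
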