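import Pool.Agent.TFP.Split

set_option autoImplicit false

/-!
# TFP-RecA: decomposition of a connected edge set containing the edge `e = vu`

Plan. `H` = edges of `A` not at `v`, `K = comp H u`.
* `u ∈ K` (`self_mem_comp`). `v ∉ K`: `v ∉ ends H`, so `Rch H v u` forces `v = u`
  (`comp_not_ends`, symmetry).
* `K ⊆ S`: `ends H ⊆ S`, `u ∈ S` (`comp_subset`).
* `A = ...`: let `f ∈ A`; if `f` is not at `v` then `f ∈ H`, both ends in `K` or both in `S \ K`
  (`edge_comp`). If `f` has an end `v` (`v ∈ S \ K`), the other end is in `K` (then `f ∈ btw v K A`)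
  or in `S \ K`.
* `ConnOn (ins K A) K`: `conn_comp H u` and `ins K H ⊆ ins K A`.
* `ConnOn (ins (S \ K) A) (S \ K)`: claim: if `Rch (insert e A) v w` then `w ∈ K ∨ Rch (ins (S \ K) A) v w`.
  Induction along the path; last step `w → w'` by the edge `f ∈ insert e A`.
  If `w' ∈ K` done. Let `w' ∉ K`. Case `w ∈ K`: if `f = e`: then `w = u`, `w' = v` (as `v ∉ K`), refl. If
  `f ∈ A`: `f ∉ H` (`edge_comp` would give `w' ∈ K`), so `f` is at `v`, `w ≠ v`, so `w' = v`, refl.
  Case `Rch (ins (S \ K) A) v w`: then `w ∈ S \ K` (`v ∈ S \ K`; the last edge is in `ins (S \ K) A`),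
  `f ≠ e` because `e` has the end `u ∈ K`, so `f ∈ A` has both ends in `S \ K`: extend the path.
  Every `w ∈ S \ K` is reachable from `v` by `hc`; then symmetry and transitivity.
-/

namespace Pool.Agent.TFP

open Finset

theorem recA {A : Finset Ed} {e : Ed} {v u : ℕ} {S K : Finset ℕ} (hvu : v ≠ u) (hJ : Jn e v u)
    (hv : v ∈ S) (hu : u ∈ S) (hA : ∀ f ∈ A, f.2.1 ∈ S ∧ f.2.2 ∈ S) (hc : ConnOn (insert e A) S)
    (hK : comp (A.filter fun f => f.2.1 ≠ v ∧ f.2.2 ≠ v) u = K) :
    u ∈ K ∧ v ∉ K ∧ K ⊆ S ∧ ins K A ∪ (btw v K A ∪ ins (S \ K) A) = A ∧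
      ConnOn (ins K A) K ∧ ConnOn (ins (S \ K) A) (S \ K) := by
  subst hK
  have hHA : (A.filter fun f => f.2.1 ≠ v ∧ f.2.2 ≠ v) ⊆ A := Finset.filter_subset _ _
  have hnH : ∀ f ∈ A, f ∉ (A.filter fun f => f.2.1 ≠ v ∧ f.2.2 ≠ v) → f.2.1 = v ∨ f.2.2 = v := by
    intro f hf hn
    by_contra hcon
    rw [not_or] at hcon
    exact hn (Finset.mem_filter.2 ⟨hf, hcon.1, hcon.2⟩)
  have hve : v ∉ ends (A.filter fun f => f.2.1 ≠ v ∧ f.2.2 ≠ v) := by
    intro h
    unfold ends at h
    rcases Finset.mem_union.1 h with h | h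
    · obtain ⟨f, hf, hfv⟩ := Finset.mem_image.1 h
      exact (Finset.mem_filter.1 hf).2.1 hfv
    · obtain ⟨f, hf, hfv⟩ := Finset.mem_image.1 h
      exact (Finset.mem_filter.1 hf).2.2 hfv
  have hedge : ∀ f ∈ (A.filter fun f => f.2.1 ≠ v ∧ f.2.2 ≠ v),
      (f.2.1 ∈ comp (A.filter fun f => f.2.1 ≠ v ∧ f.2.2 ≠ v) u ↔
        f.2.2 ∈ comp (A.filter fun f => f.2.1 ≠ v ∧ f.2.2 ≠ v) u) := fun f hf => edge_comp hf u
  have huK : u ∈ comp (A.filter fun f => f.2.1 ≠ v ∧ f.2.2 ≠ v) u := self_mem_comp _ u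
  have hvK : v ∉ comp (A.filter fun f => f.2.1 ≠ v ∧ f.2.2 ≠ v) u := by
    intro h
    have h1 := comp_eq (mem_comp.1 h)
    rw [comp_not_ends hve] at h1
    rw [h1, Finset.mem_singleton] at huK
    exact hvu huK.symm
  have hKS : comp (A.filter fun f => f.2.1 ≠ v ∧ f.2.2 ≠ v) u ⊆ S := by
    apply comp_subset
    intro w hw
    rcases Finset.mem_insert.1 hw with rfl | hw
    · exact hu
    · unfold ends at hw
      rcases Finset.mem_union.1 hw with h | h
      · obtain ⟨f, hf, rfl⟩ := Finset.mem_image.1 h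
        exact (hA f (hHA hf)).1
      · obtain ⟨f, hf, rfl⟩ := Finset.mem_image.1 h
        exact (hA f (hHA hf)).2
  have hconnK : ConnOn (ins (comp (A.filter fun f => f.2.1 ≠ v ∧ f.2.2 ≠ v) u) A)
      (comp (A.filter fun f => f.2.1 ≠ v ∧ f.2.2 ≠ v) u) := by
    intro a ha b hb
    refine Rch.mono ?_ (conn_comp (A.filter fun f => f.2.1 ≠ v ∧ f.2.2 ≠ v) u a ha b hb)
    intro f hf
    unfold ins at hf ⊢
    rw [Finset.mem_filter] at hf ⊢
    exact ⟨hHA hf.1, hf.2⟩
  generalize hK : comp (A.filter fun f => f.2.1 ≠ v ∧ f.2.2 ≠ v) u = K at *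
  refine ⟨huK, hvK, hKS, ?_, hconnK, ?_⟩
  · ext f
    unfold ins btw
    simp only [Finset.mem_union, Finset.mem_filter, Finset.mem_sdiff]
    constructor
    · rintro (h | h | h) <;> exact h.1
    · intro hf
      by_cases hfH : f ∈ (A.filter fun f => f.2.1 ≠ v ∧ f.2.2 ≠ v)
      · have h1 := hedge f hfH
        by_cases h2 : f.2.1 ∈ K
        · exact Or.inl ⟨hf, h2, h1.1 h2⟩
        · exact Or.inr (Or.inr ⟨hf, ⟨(hA f hf).1, h2⟩, (hA f hf).2, fun h3 => h2 (h1.2 h3)⟩)
      · rcases hnH f hf hfH with h1 | h1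
        · by_cases h2 : f.2.2 ∈ K
          · exact Or.inr (Or.inl ⟨hf, Or.inl ⟨h1, h2⟩⟩)
          · exact Or.inr (Or.inr ⟨hf, ⟨(hA f hf).1, by rw [h1]; exact hvK⟩, (hA f hf).2, h2⟩)
        · by_cases h2 : f.2.1 ∈ K
          · exact Or.inr (Or.inl ⟨hf, Or.inr ⟨h1, h2⟩⟩)
          · exact Or.inr (Or.inr ⟨hf, ⟨(hA f hf).1, h2⟩, (hA f hf).2, by rw [h1]; exact hvK⟩)
  · have hin : ∀ w, Rch (ins (S \ K) A) v w → w ∈ S \ K := by
      intro w hw
      have h1 : comp (ins (S \ K) A) v ⊆ S \ K := by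
        apply comp_subset
        intro x hx
        rcases Finset.mem_insert.1 hx with rfl | hx
        · exact Finset.mem_sdiff.2 ⟨hv, hvK⟩
        · unfold ends ins at hx
          rcases Finset.mem_union.1 hx with h | h
          · obtain ⟨f, hf, rfl⟩ := Finset.mem_image.1 h
            exact (Finset.mem_filter.1 hf).2.1
          · obtain ⟨f, hf, rfl⟩ := Finset.mem_image.1 h
            exact (Finset.mem_filter.1 hf).2.2
      exact h1 (mem_comp.2 hw)
    have hclaim : ∀ w, Rch (insert e A) v w → w ∈ K ∨ Rch (ins (S \ K) A) v w := by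
      intro w hw
      induction hw with
      | refl => exact Or.inr Relation.ReflTransGen.refl
      | @tail b c hb hbc ih =>
        by_cases hcK : c ∈ K
        · exact Or.inl hcK
        · right
          obtain ⟨f, hf, hJf⟩ := hbc
          rcases ih with hbK | hbR
          · have hcv : c = v := by
              rcases Finset.mem_insert.1 hf with rfl | hfA
              · have hbv : b ≠ v := fun h => hvK (h ▸ hbK)
                unfold Jn at hJ hJf
                omega
              · have hfH : f ∉ (A.filter fun f => f.2.1 ≠ v ∧ f.2.2 ≠ v) := by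
                  intro hfH
                  have h1 := hedge f hfH
                  rcases hJf with ⟨h2, h3⟩ | ⟨h2, h3⟩
                  · exact hcK (h3 ▸ h1.1 (h2.symm ▸ hbK))
                  · exact hcK (h2 ▸ h1.2 (h3.symm ▸ hbK))
                have h4 := hnH f hfA hfH
                have hbv : b ≠ v := fun h => hvK (h ▸ hbK)
                unfold Jn at hJf
                omega
            rw [hcv]
            exact Relation.ReflTransGen.refl
          · have hbS := Finset.mem_sdiff.1 (hin b hbR)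
            rcases Finset.mem_insert.1 hf with rfl | hfA
            · exfalso
              have hbu : b ≠ u := fun h => hbS.2 (h ▸ huK)
              have hcu : c ≠ u := fun h => hcK (h ▸ huK)
              unfold Jn at hJ hJf
              omega
            · refine Relation.ReflTransGen.tail hbR ⟨f, ?_, hJf⟩
              unfold ins
              rw [Finset.mem_filter, Finset.mem_sdiff, Finset.mem_sdiff]
              have h5 := hA f hfA
              rcases hJf with ⟨h2, h3⟩ | ⟨h2, h3⟩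
              · exact ⟨hfA, ⟨h5.1, h2.symm ▸ hbS.2⟩, h5.2, h3.symm ▸ hcK⟩
              · exact ⟨hfA, ⟨h5.1, h2.symm ▸ hcK⟩, h5.2, h3.symm ▸ hbS.2⟩
    intro a ha b hb
    obtain ⟨haS, haK⟩ := Finset.mem_sdiff.1 ha
    obtain ⟨hbS, hbK⟩ := Finset.mem_sdiff.1 hb
    have h1 := (hclaim a (hc v hv a haS)).resolve_left haK
    have h2 := (hclaim b (hc v hv b hbS)).resolve_left hbK
    exact Relation.ReflTransGen.trans h1.symm h2

end Pool.Agent.TFP
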