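import Pool.Agent.TFP.Split

set_option autoImplicit false

/-!
# TFP-RecB: gluing, converse of `recA`

Connectivity through the edge `e`, the component by `join_comp`, the three edge sets by cases.
-/

namespace Pool.Agent.TFP

open Finset

theorem recB {A1 J A2 : Finset Ed} {e : Ed} {v u : ℕ} {S K : Finset ℕ} (hvu : v ≠ u)
    (hJ : Jn e v u) (hv : v ∈ S) (hK : K ⊆ S) (huK : u ∈ K) (hvK : v ∉ K)
    (h1 : ∀ f ∈ A1, f.2.1 ∈ K ∧ f.2.2 ∈ K) (hc1 : ConnOn A1 K)
    (hJ' : ∀ f ∈ J, (f.2.1 = v ∧ f.2.2 ∈ K) ∨ (f.2.2 = v ∧ f.2.1 ∈ K))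
    (h2 : ∀ f ∈ A2, f.2.1 ∈ S \ K ∧ f.2.2 ∈ S \ K) (hc2 : ConnOn A2 (S \ K)) :
    ConnOn (insert e (A1 ∪ (J ∪ A2))) S ∧
      comp ((A1 ∪ (J ∪ A2)).filter fun f => f.2.1 ≠ v ∧ f.2.2 ≠ v) u = K ∧
      ins K (A1 ∪ (J ∪ A2)) = A1 ∧ btw v K (A1 ∪ (J ∪ A2)) = J ∧
      ins (S \ K) (A1 ∪ (J ∪ A2)) = A2 := by
  have hvSK : v ∈ S \ K := mem_sdiff.2 ⟨hv, hvK⟩
  refine ⟨?_, ?_, ?_, ?_, ?_⟩
  · have hreach : ∀ w ∈ S, Rch (insert e (A1 ∪ (J ∪ A2))) v w := by
      intro w hw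
      by_cases hwK : w ∈ K
      · have a1 : Rch (insert e (A1 ∪ (J ∪ A2))) v u :=
          Relation.ReflTransGen.single ⟨e, mem_insert_self _ _, hJ⟩
        have a2 : Rch (insert e (A1 ∪ (J ∪ A2))) u w :=
          Rch.mono (fun f hf => mem_insert_of_mem (mem_union_left _ hf)) (hc1 u huK w hwK)
        exact Relation.ReflTransGen.trans a1 a2
      · exact Rch.mono (fun f hf => mem_insert_of_mem (mem_union_right _ (mem_union_right _ hf)))
          (hc2 v hvSK w (mem_sdiff.2 ⟨hw, hwK⟩))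
    intro a ha b hb
    exact Relation.ReflTransGen.trans (hreach a ha).symm (hreach b hb)
  · have hfil : (A1 ∪ (J ∪ A2)).filter (fun f => f.2.1 ≠ v ∧ f.2.2 ≠ v) =
        A1 ∪ A2.filter (fun f => f.2.1 ≠ v ∧ f.2.2 ≠ v) := by
      ext f
      rw [mem_filter, mem_union, mem_union, mem_union, mem_filter]
      constructor
      · rintro ⟨hf | hf | hf, hne⟩
        · exact Or.inl hf
        · rcases hJ' f hf with ⟨h, -⟩ | ⟨h, -⟩
          · exact absurd h hne.1
          · exact absurd h hne.2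
        · exact Or.inr ⟨hf, hne⟩
      · rintro (hf | ⟨hf, hne⟩)
        · refine ⟨Or.inl hf, ?_, ?_⟩
          · intro h
            exact hvK (h ▸ (h1 f hf).1)
          · intro h
            exact hvK (h ▸ (h1 f hf).2)
        · exact ⟨Or.inr (Or.inr hf), hne⟩
    rw [hfil]
    exact (join_comp huK h1 hc1 fun f hf => by
      have h3 := h2 f (mem_filter.1 hf).1
      exact ⟨(mem_sdiff.1 h3.1).2, (mem_sdiff.1 h3.2).2⟩).1
  · ext f
    unfold ins
    rw [mem_filter, mem_union, mem_union]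
    constructor
    · rintro ⟨hf | hf | hf, hk⟩
      · exact hf
      · rcases hJ' f hf with ⟨h, -⟩ | ⟨h, -⟩
        · exact absurd (h ▸ hk.1) hvK
        · exact absurd (h ▸ hk.2) hvK
      · exact absurd hk.1 (mem_sdiff.1 (h2 f hf).1).2
    · intro hf
      exact ⟨Or.inl hf, h1 f hf⟩
  · ext f
    unfold btw
    rw [mem_filter, mem_union, mem_union]
    constructor
    · rintro ⟨hf | hf | hf, hk⟩
      · rcases hk with ⟨h, -⟩ | ⟨h, -⟩
        · exact absurd (h ▸ (h1 f hf).1) hvK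
        · exact absurd (h ▸ (h1 f hf).2) hvK
      · exact hf
      · rcases hk with ⟨-, h⟩ | ⟨-, h⟩
        · exact absurd h (mem_sdiff.1 (h2 f hf).2).2
        · exact absurd h (mem_sdiff.1 (h2 f hf).1).2
    · intro hf
      exact ⟨Or.inr (Or.inl hf), hJ' f hf⟩
  · ext f
    unfold ins
    rw [mem_filter, mem_union, mem_union]
    constructor
    · rintro ⟨hf | hf | hf, hk⟩
      · exact absurd (h1 f hf).1 (mem_sdiff.1 hk.1).2
      · rcases hJ' f hf with ⟨-, h⟩ | ⟨-, h⟩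
        · exact absurd h (mem_sdiff.1 hk.2).2
        · exact absurd h (mem_sdiff.1 hk.1).2
      · exact hf
    · intro hf
      exact ⟨Or.inr (Or.inr hf), h2 f hf⟩

end Pool.Agent.TFP
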