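import Pool.Agent.TFP.Defs

set_option autoImplicit false

/-!
# TFP-Comp: reachability and components in an edge set (easy)

Plan. `Jn` is symmetric in the two vertices (`unfold Jn; tauto`), hence `Adj A` is symmetric, hence
`Rch A = ReflTransGen (Adj A)` is symmetric (`Relation.ReflTransGen.symmetric`). If `Rch A v w` and
`w ≠ v` then the last step of the path ends in `w`, so `w ∈ ends A` (`Relation.ReflTransGen.cases_tail`);
so in the definition of `comp` the restriction to `insert v (ends A)` is harmless: `mem_comp`.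
-/

namespace Pool.Agent.TFP

open Finset

theorem Jn.symm {e : Ed} {a b : ℕ} (h : Jn e a b) : Jn e b a := by
  unfold Jn at *
  tauto

theorem mem_ends_left {A : Finset Ed} {e : Ed} (h : e ∈ A) : e.2.1 ∈ ends A := by
  unfold ends
  exact mem_union_left _ (mem_image_of_mem (fun e : Ed => e.2.1) h)

theorem mem_ends_right {A : Finset Ed} {e : Ed} (h : e ∈ A) : e.2.2 ∈ ends A := by
  unfold ends
  exact mem_union_right _ (mem_image_of_mem (fun e : Ed => e.2.2) h)

theorem ends_mono {A B : Finset Ed} (h : A ⊆ B) : ends A ⊆ ends B := by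
  unfold ends
  exact union_subset_union (image_subset_image h) (image_subset_image h)

private theorem adj_symm {A : Finset Ed} {a b : ℕ} (h : Adj A a b) : Adj A b a := by
  obtain ⟨e, he, hj⟩ := h
  exact ⟨e, he, hj.symm⟩

theorem Rch.symm {A : Finset Ed} {a b : ℕ} (h : Rch A a b) : Rch A b a := by
  unfold Rch at *
  induction h with
  | refl => exact Relation.ReflTransGen.refl
  | tail _ hbc ih => exact Relation.ReflTransGen.head (adj_symm hbc) ih

theorem Rch.mono {A B : Finset Ed} (hAB : A ⊆ B) {a b : ℕ} (h : Rch A a b) : Rch B a b := by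
  have h1 : ∀ x y, Adj A x y → Adj B x y := by
    rintro x y ⟨e, he, hj⟩
    exact ⟨e, hAB he, hj⟩
  unfold Rch at *
  induction h with
  | refl => exact Relation.ReflTransGen.refl
  | tail _ hbc ih => exact Relation.ReflTransGen.tail ih (h1 _ _ hbc)

private theorem rch_mem {A : Finset Ed} {v w : ℕ} (h : Rch A v w) : w ∈ insert v (ends A) := by
  unfold Rch at h
  rcases Relation.ReflTransGen.cases_tail h with h | ⟨c, _, e, he, hj⟩
  · rw [h]
    exact mem_insert_self _ _
  · apply mem_insert_of_mem
    rcases hj with ⟨_, h2⟩ | ⟨h1, _⟩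
    · rw [← h2]
      exact mem_ends_right he
    · rw [← h1]
      exact mem_ends_left he

theorem mem_comp {A : Finset Ed} {v w : ℕ} : w ∈ comp A v ↔ Rch A v w := by
  classical
  unfold comp
  rw [mem_filter]
  exact ⟨fun h => h.2, fun h => ⟨rch_mem h, h⟩⟩

theorem self_mem_comp (A : Finset Ed) (v : ℕ) : v ∈ comp A v := by
  rw [mem_comp]
  exact Relation.ReflTransGen.refl

theorem comp_eq {A : Finset Ed} {v w : ℕ} (h : Rch A v w) : comp A v = comp A w := by
  ext x
  rw [mem_comp, mem_comp]
  constructor
  · intro hx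
    exact Relation.ReflTransGen.trans h.symm hx
  · intro hx
    exact Relation.ReflTransGen.trans h hx

theorem comp_subset {A : Finset Ed} {v : ℕ} {V : Finset ℕ} (h : insert v (ends A) ⊆ V) :
    comp A v ⊆ V := by
  intro x hx
  rw [mem_comp] at hx
  exact h (rch_mem hx)

theorem comp_not_ends {A : Finset Ed} {v : ℕ} (h : v ∉ ends A) : comp A v = {v} := by
  ext x
  rw [mem_comp, mem_singleton]
  constructor
  · intro hx
    unfold Rch at hx
    rcases Relation.ReflTransGen.cases_head hx with h1 | ⟨c, ⟨e, he, hj⟩, _⟩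
    · exact h1.symm
    · exfalso
      apply h
      rcases hj with ⟨h1, _⟩ | ⟨_, h2⟩
      · rw [← h1]
        exact mem_ends_left he
      · rw [← h2]
        exact mem_ends_right he
  · intro hx
    rw [hx]
    exact Relation.ReflTransGen.refl

/-- the two ends of an edge of `A` are in the same component -/
theorem edge_comp {A : Finset Ed} {e : Ed} (he : e ∈ A) (v : ℕ) :
    e.2.1 ∈ comp A v ↔ e.2.2 ∈ comp A v := by
  rw [mem_comp, mem_comp]
  have h1 : Adj A e.2.1 e.2.2 := ⟨e, he, Or.inl ⟨rfl, rfl⟩⟩
  constructor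
  · intro h
    exact Relation.ReflTransGen.tail h h1
  · intro h
    exact Relation.ReflTransGen.tail h (adj_symm h1)

end Pool.Agent.TFP
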