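import Pool.Agent.TFP.FpN
import Pool.Agent.TFP.FpE
import Pool.Agent.Helper47.TR.Rank

set_option autoImplicit false

/-!
# TFP-FpA: the algorithm and its polynomial running time

Plan. `t` in unary: `un (G.2.length) ++ (un N.length ++ [true])` or directly `FP.un_length` of lists and `FP.append`; length
`= tt inp`. `k = C1 * t^3` in unary: `FP.un_poly` with the polynomial `C C1 * X^3` (`Polynomial.eval_mul, eval_C, eval_pow,
eval_X`), similarly `L`. Powers: `FP.powU` with the lists `mergers G`, `lps G.2` and constant bases. `FP.natMul`,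
`FP.intPos`, `FP.pair`. Conclude with `isPolyTime_iff`.
-/

namespace Pool.Agent.TFP

open Turing Function N487b59b3 N68a2faeb Pool.Agent.Helper22 Pool.Agent.Helper6.WB Computability
  Pool.Agent.Helper47.TR

/-- size parameter: number of edges plus precision -/
def tt (inp : MG × List Bool) : ℕ := inp.1.2.length + inp.2.length + 1

/-- the algorithm -/
def alg (P : Par) (C1 C2 : ℕ) (inp : (MG × List Bool) × List Bool) : ℤ × ℕ :=
  ((((P.a - P.c) ^ (mergers inp.1.1).length * P.y1 ^ (lps inp.1.1.2).length *
      numer P (C1 * tt inp.1 ^ 3) (C2 * tt inp.1 ^ 2) (nlE inp.1.1.2) inp.2 : ℕ) : ℤ),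
    P.c ^ (mergers inp.1.1).length * P.y2 ^ (lps inp.1.1.2).length *
      denom P (C1 * tt inp.1 ^ 3) (nlE inp.1.1.2))

theorem alg_poly (P : Par) (C1 C2 : ℕ) : N68a2faeb.IsPolyTime (alg P C1 C2) := by
  rw [isPolyTime_iff]
  have hG : FP fun inp : (MG × List Bool) × List Bool => inp.1.1 := by fun_prop
  have hE : FP fun inp : (MG × List Bool) × List Bool => inp.1.1.2 := by fun_prop
  have hN : FP fun inp : (MG × List Bool) × List Bool => inp.1.2 := by fun_prop
  have hr : FP fun inp : (MG × List Bool) × List Bool => inp.2 := by fun_prop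
  have hT : FP fun inp : (MG × List Bool) × List Bool =>
      un inp.1.1.2.length ++ (inp.1.2 ++ [true]) :=
    FP.append (FP.un_length hE) (FP.append hN (FP.const [true]))
  have hTl : ∀ inp : (MG × List Bool) × List Bool,
      (un inp.1.1.2.length ++ (inp.1.2 ++ [true])).length = tt inp.1 := by
    intro inp
    simp only [List.length_append, Helper22.un_length, List.length_singleton, tt]
    ring
  have hk := FP.un_poly hT (Polynomial.C C1 * Polynomial.X ^ 3)
  have hL := FP.un_poly hT (Polynomial.C C2 * Polynomial.X ^ 2)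
  simp only [hTl, Polynomial.eval_mul, Polynomial.eval_C, Polynomial.eval_pow,
    Polynomial.eval_X] at hk hL
  have hn := FP.numer P hk hL (FP.nlE hE) hr
  have hd := FP.denom P hk (FP.nlE hE)
  simp only [Helper22.un_length] at hn hd
  have hm := FP.mergers hG
  have hl := FP.lps hE
  have e1 : FP fun inp : (MG × List Bool) × List Bool =>
      (P.a - P.c) ^ (mergers inp.1.1).length := FP.powU (FP.const (P.a - P.c)) hm
  have e2 : FP fun inp : (MG × List Bool) × List Bool =>
      P.y1 ^ (lps inp.1.1.2).length := FP.powU (FP.const P.y1) hl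
  have e3 : FP fun inp : (MG × List Bool) × List Bool =>
      P.c ^ (mergers inp.1.1).length := FP.powU (FP.const P.c) hm
  have e4 : FP fun inp : (MG × List Bool) × List Bool =>
      P.y2 ^ (lps inp.1.1.2).length := FP.powU (FP.const P.y2) hl
  exact FP.pair (FP.intPos (FP.natMul (FP.natMul e1 e2) hn)) (FP.natMul (FP.natMul e3 e4) hd)

end Pool.Agent.TFP
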