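import Pool.Agent.TFP.Defs
import Pool.Agent.Helper47.TR.FPG

set_option autoImplicit false

/-!
# TFP-SzS: the size of the states grows polynomially

Plan. For numbers `M ≥ 5`, `κ`, `n` let `BdS M κ n s` be the predicate
`sz s.2.1.1 ≤ M ∧ sz s.2.1.2.1 ≤ M ∧ s.2.2.length ≤ n ∧`
`(∀ f ∈ s.2.2, sz f.2.1.1 ≤ M ∧ sz (f.2.1.2 :: f.2.2.1) ≤ M) ∧`
`sz s.2.1.2.2 + (s.2.2.map (fun f => sz f.2.2.2)).sum ≤ κ`.
* `step`: `BdS M κ n s → BdS M (κ + 2 * M + 1) (n + 1) (stepM P U s)` (all cases of `stepM`; filters do not increase `sz`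
  (induction on the list); `e ∈ G` gives `sz e ≤ sz G` (`sz_mem_le`), hence the size of an end of `e` is `≤ M`;
  `sz (e :: delL e G) ≤ sz G` if `e ∈ G` (induction on `G`: at least one copy of `e` is removed);
  `sz [v] = 2 * sz v + 1 ≤ 2 M + 1`; `sz (K' ++ K) = sz K' + sz K` (`sz_append`); `sz (0, (0, 0)) = 2`, `sz` of the
  constant pieces of `frB` is `≤ 5`).
* every `s` satisfies `BdS (sz s + 5) (sz s) (sz s) s` (`sz_pair`, `length_le_sz`, `sz_mem_le`; the sum of the sizes of
  the parts of the frames is at most `sz s.2.2`, induction).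
* `BdS M κ n s → sz s ≤ 100 * (n + 1) * (M + 1) + 100 * κ + 100` or any other polynomial (`sz_pair`, `sz_cons`, induction on
  the stack; `sz f ≤ c (M + sz f.2.2.2 + 1)`).
So after `i` steps `sz ≤` polynomial of `i + sz s`, which is written here with an explicit cube.
-/

namespace Pool.Agent.TFP

open Turing Function N487b59b3 N68a2faeb Pool.Agent.Helper22 Pool.Agent.Helper6.WB Computability
  Pool.Agent.Helper47.TR

/-- one step of the machine together with the consumption of random bits -/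
def rstep (P : Par) (p : List Bool × St) : List Bool × St :=
  (p.1.drop P.b, stepM P (Helper6.WB.val (p.1.take P.b)) p.2)

theorem runM_eq (P : Par) (L : ℕ) (l : List Bool) (s : St) :
    runM P L l s = ((rstep P)^[L] (l, s)).2 := by
  induction L generalizing l s with
  | zero => rfl
  | succ L ih =>
    rw [Function.iterate_succ_apply]
    show runM P L (l.drop P.b) (stepM P (Helper6.WB.val (l.take P.b)) s) = _
    rw [ih]
    rfl

private theorem szs_filter {β : Type} [N487b59b3 β] (q : β → Bool) (l : List β) :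
    sz (l.filter q) ≤ sz l := by
  induction l with
  | nil => exact le_rfl
  | cons a l ih =>
    rw [List.filter_cons, sz_cons]
    split_ifs
    · rw [sz_cons]
      omega
    · omega

private theorem szs_del {e : Ed} {G : List Ed} (h : e ∈ G) : sz (e :: delL e G) ≤ sz G := by
  induction G with
  | nil => exact absurd h List.not_mem_nil
  | cons g G ih =>
    rw [sz_cons, sz_cons]
    by_cases hg : g = e
    · subst hg
      have h1 : delL g (g :: G) = delL g G := by
        unfold delL
        rw [List.filter_cons, if_neg (by simp)]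
      rw [h1]
      have h2 : sz (delL g G) ≤ sz G := szs_filter _ _
      omega
    · have h1 : delL e (g :: G) = g :: delL e G := by
        unfold delL
        rw [List.filter_cons, if_pos (by simp [hg])]
      rw [h1, sz_cons]
      have h2 : e ∈ G := by
        rcases List.mem_cons.1 h with h3 | h3
        · exact absurd h3.symm hg
        · exact h3
      have h3 := ih h2
      rw [sz_cons] at h3
      omega

private theorem szs_oth (v : ℕ) (e : Ed) : sz (oth v e) ≤ sz e := by
  obtain ⟨a, b, c⟩ := e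
  unfold oth
  rw [sz_pair, sz_pair]
  split_ifs
  · show sz c ≤ _
    omega
  · show sz b ≤ _
    omega

/-- the bounds of the parts of a state -/
private def BdS (M κ n : ℕ) (s : St) : Prop :=
  sz s.2.1.1 ≤ M ∧ sz s.2.1.2.1 ≤ M ∧ s.2.2.length ≤ n ∧
  (∀ f ∈ s.2.2, sz f.2.1.1 ≤ M ∧ sz (f.2.1.2 :: f.2.2.1) ≤ M) ∧
  sz s.2.1.2.2 + (s.2.2.map (fun f : Frame => sz f.2.2.2)).sum ≤ κ

private theorem BdS.mono {M κ n κ' n' : ℕ} {s : St} (h : BdS M κ n s) (h1 : κ ≤ κ') (h2 : n ≤ n') :
    BdS M κ' n' s :=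
  ⟨h.1, h.2.1, h.2.2.1.trans h2, h.2.2.2.1, h.2.2.2.2.trans h1⟩

private theorem szs_zero : sz (0 : ℕ) = 0 := by
  rw [sz_nat, Nat.size_zero]

private theorem szs_ret {M κ n : ℕ} {K : List ℕ} {st : List Frame} (h3 : st.length ≤ n)
    (h4 : ∀ f ∈ st, sz f.2.1.1 ≤ M ∧ sz (f.2.1.2 :: f.2.2.1) ≤ M)
    (h5 : sz K + (st.map (fun f : Frame => sz f.2.2.2)).sum ≤ κ) : BdS M κ n (ret K st) :=
  ⟨by
    show sz (0 : ℕ) ≤ M
    rw [szs_zero]
    exact Nat.zero_le _, Nat.zero_le _, h3, h4, h5⟩

private theorem szs_ev {M κ n v : ℕ} {G : List Ed} {st : List Frame} (h1 : sz v ≤ M)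
    (h2 : sz G ≤ M) (h3 : st.length ≤ n)
    (h4 : ∀ f ∈ st, sz f.2.1.1 ≤ M ∧ sz (f.2.1.2 :: f.2.2.1) ≤ M)
    (h5 : (st.map (fun f : Frame => sz f.2.2.2)).sum ≤ κ) : BdS M κ n (ev v G st) :=
  ⟨h1, h2, h3, h4, by
    show sz ([] : List ℕ) + (st.map (fun f : Frame => sz f.2.2.2)).sum ≤ κ
    rw [sz_nil, zero_add]
    exact h5⟩

private theorem szs_step_ev (P : Par) (U : ℕ) {M κ n v : ℕ} {G : List Ed} {K : List ℕ}
    {st : List Frame} (h : BdS M κ n (true, ((v, (G, K)), st))) :
    BdS M (κ + (2 * M + 1)) (n + 1) (stepM P U (true, ((v, (G, K)), st))) := by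
  obtain ⟨h1, h2, h3, h4, h5⟩ := h
  change sz v ≤ M at h1
  change sz G ≤ M at h2
  change st.length ≤ n at h3
  change ∀ f ∈ st, sz f.2.1.1 ≤ M ∧ sz (f.2.1.2 :: f.2.2.1) ≤ M at h4
  change sz K + (st.map (fun f : Frame => sz f.2.2.2)).sum ≤ κ at h5
  have hh : stepM P U (true, ((v, (G, K)), st)) =
      if (atL v G).isEmpty then ret [v] st
      else if U < P.c then
        ev (oth v ((atL v G).headD (0, (0, 0)))) (delL ((atL v G).headD (0, (0, 0))) G)
          (frA v ((atL v G).headD (0, (0, 0))) (delL ((atL v G).headD (0, (0, 0))) G) :: st)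
      else if U < P.a then ev v (delL ((atL v G).headD (0, (0, 0))) G) st
      else (true, ((v, (G, K)), st)) := rfl
  rw [hh]
  by_cases c1 : (atL v G).isEmpty = true
  · rw [if_pos c1]
    refine szs_ret (by omega) h4 ?_
    rw [sz_cons, sz_nil]
    omega
  · rw [if_neg c1]
    have hne : atL v G ≠ [] := by
      intro h6
      rw [h6] at c1
      exact c1 rfl
    obtain ⟨e, E, heE⟩ := List.exists_cons_of_ne_nil hne
    have he : e ∈ G := by
      have h6 : e ∈ atL v G := by
        rw [heE]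
        exact List.mem_cons_self
      exact (List.mem_filter.1 h6).1
    rw [heE]
    show BdS _ _ _ (if U < P.c then ev (oth v e) (delL e G) (frA v e (delL e G) :: st)
      else if U < P.a then ev v (delL e G) st else (true, ((v, (G, K)), st)))
    have h7 : sz (e :: delL e G) ≤ M := (szs_del he).trans h2
    have h8 : sz (delL e G) ≤ M := (szs_filter _ _).trans h2
    have h9 : sz (oth v e) ≤ M := ((szs_oth v e).trans (sz_mem_le he)).trans h2
    by_cases c2 : U < P.c
    · rw [if_pos c2]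
      refine szs_ev h9 h8 ?_ ?_ ?_
      · rw [List.length_cons]
        omega
      · intro f hf
        rcases List.mem_cons.1 hf with rfl | hf
        · exact ⟨h1, h7⟩
        · exact h4 f hf
      · rw [List.map_cons, List.sum_cons]
        show sz ([] : List ℕ) + _ ≤ _
        rw [sz_nil]
        omega
    · rw [if_neg c2]
      by_cases c3 : U < P.a
      · rw [if_pos c3]
        exact szs_ev h1 h8 (by omega) h4 (by omega)
      · rw [if_neg c3]
        exact ⟨h1, h2, Nat.le_succ_of_le h3, h4, h5.trans (Nat.le_add_right _ _)⟩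

private theorem szs_step_ret (P : Par) (U : ℕ) {M κ n v : ℕ} (hM : 5 ≤ M) {G : List Ed}
    {K : List ℕ} {st : List Frame} (h : BdS M κ n (false, ((v, (G, K)), st))) :
    BdS M (κ + (2 * M + 1)) (n + 1) (stepM P U (false, ((v, (G, K)), st))) := by
  have hw : BdS M (κ + (2 * M + 1)) (n + 1) (false, ((v, (G, K)), st)) :=
    h.mono (by omega) (by omega)
  obtain ⟨h1, h2, h3, h4, h5⟩ := h
  change sz v ≤ M at h1
  change sz G ≤ M at h2
  change st.length ≤ n at h3
  change ∀ f ∈ st, sz f.2.1.1 ≤ M ∧ sz (f.2.1.2 :: f.2.2.1) ≤ M at h4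
  change sz K + (st.map (fun f : Frame => sz f.2.2.2)).sum ≤ κ at h5
  cases st with
  | nil => exact hw
  | cons f st =>
    have hh : stepM P U (false, ((v, (G, K)), f :: st)) =
        if f.1 then
          if K.contains f.2.1.1 then ev f.2.1.1 (f.2.1.2 :: f.2.2.1) st
          else if U < P.y1 ^ jj P f.2.1.1 K f.2.2.1 then
            ev f.2.1.1 (outL K f.2.2.1) (frB K :: st)
          else if U < P.y2 ^ jj P f.2.1.1 K f.2.2.1 then
            ev f.2.1.1 (f.2.1.2 :: f.2.2.1) st
          else (false, ((v, (G, K)), f :: st))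
        else ret (f.2.2.2 ++ K) st := rfl
    rw [hh]
    rw [List.length_cons] at h3
    rw [List.map_cons, List.sum_cons] at h5
    obtain ⟨h6, h7⟩ := h4 f List.mem_cons_self
    have h4' : ∀ g ∈ st, sz g.2.1.1 ≤ M ∧ sz (g.2.1.2 :: g.2.2.1) ≤ M := fun g hg =>
      h4 g (List.mem_cons_of_mem _ hg)
    have h8 : BdS M (κ + (2 * M + 1)) (n + 1) (ev f.2.1.1 (f.2.1.2 :: f.2.2.1) st) :=
      szs_ev h6 h7 (by omega) h4' (by omega)
    by_cases c1 : f.1 = true
    · rw [if_pos c1]
      by_cases c2 : K.contains f.2.1.1 = true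
      · rw [if_pos c2]
        exact h8
      · rw [if_neg c2]
        by_cases c3 : U < P.y1 ^ jj P f.2.1.1 K f.2.2.1
        · rw [if_pos c3]
          refine szs_ev h6 ?_ ?_ ?_ ?_
          · have h9 : sz (outL K f.2.2.1) ≤ sz f.2.2.1 := szs_filter _ _
            rw [sz_cons] at h7
            omega
          · rw [List.length_cons]
            omega
          · intro g hg
            rcases List.mem_cons.1 hg with rfl | hg
            · refine ⟨?_, ?_⟩
              · show sz (0 : ℕ) ≤ M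
                rw [szs_zero]
                omega
              · show sz ((0, (0, 0)) :: ([] : List Ed)) ≤ M
                rw [sz_cons, sz_pair, sz_pair, szs_zero, sz_nil]
                omega
            · exact h4' g hg
          · rw [List.map_cons, List.sum_cons]
            show sz K + _ ≤ _
            omega
        · rw [if_neg c3]
          by_cases c4 : U < P.y2 ^ jj P f.2.1.1 K f.2.2.1
          · rw [if_pos c4]
            exact h8
          · rw [if_neg c4]
            exact hw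
    · rw [if_neg c1]
      refine szs_ret (by omega) h4' ?_
      rw [sz_append]
      omega

private theorem szs_step (P : Par) (U : ℕ) {M κ n : ℕ} (hM : 5 ≤ M) {s : St} (h : BdS M κ n s) :
    BdS M (κ + (2 * M + 1)) (n + 1) (stepM P U s) := by
  obtain ⟨b, ⟨v, G, K⟩, st⟩ := s
  cases b with
  | true => exact szs_step_ev P U h
  | false => exact szs_step_ret P U hM h

private theorem szs_iter (P : Par) {M : ℕ} (hM : 5 ≤ M) (i : ℕ) :
    ∀ (κ n : ℕ) (p : List Bool × St), BdS M κ n p.2 →
      BdS M (κ + i * (2 * M + 1)) (n + i) ((rstep P)^[i] p).2 ∧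
        sz ((rstep P)^[i] p).1 ≤ sz p.1 := by
  induction i with
  | zero =>
    intro κ n p h
    exact ⟨h.mono (Nat.le_add_right _ _) (Nat.le_add_right _ _), le_rfl⟩
  | succ i ih =>
    intro κ n p h
    rw [Function.iterate_succ_apply]
    obtain ⟨h1, h2⟩ := ih (κ + (2 * M + 1)) (n + 1) (rstep P p) (szs_step P _ hM h)
    refine ⟨h1.mono ?_ (by omega), h2.trans (sz_drop _ _)⟩
    rw [Nat.add_mul i 1, Nat.one_mul]
    omega

private theorem szs_frame (f : Frame) : sz f = 7 + 4 * sz f.2.1.1 + 2 * sz f.2.1.2 +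
    2 * sz f.2.2.1 + sz f.2.2.2 := by
  obtain ⟨b, ⟨v, e⟩, G, K⟩ := f
  show sz (b, ((v, e), (G, K))) = 7 + 4 * sz v + 2 * sz e + 2 * sz G + sz K
  rw [sz_pair b, sz_pair (v, e), sz_pair v e, sz_pair G K, sz_bool]
  ring

private theorem szs_state (s : St) : sz s = 8 + 4 * sz s.2.1.1 + 4 * sz s.2.1.2.1 +
    2 * sz s.2.1.2.2 + sz s.2.2 := by
  obtain ⟨b, ⟨v, G, K⟩, st⟩ := s
  show sz (b, ((v, (G, K)), st)) = 8 + 4 * sz v + 4 * sz G + 2 * sz K + sz st
  rw [sz_pair b, sz_pair (v, (G, K)), sz_pair v (G, K), sz_pair G K, sz_bool]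
  ring

private theorem szs_init_sum (st : List Frame) :
    (st.map (fun f : Frame => sz f.2.2.2)).sum ≤ sz st := by
  induction st with
  | nil => exact le_rfl
  | cons f st ih =>
    rw [List.map_cons, List.sum_cons, sz_cons, szs_frame f]
    omega

private theorem szs_init (s : St) : BdS (sz s + 5) (sz s) (sz s) s := by
  have h := szs_state s
  have h1 := szs_init_sum s.2.2
  refine ⟨by omega, by omega, ?_, ?_, by omega⟩
  · have h2 := length_le_sz s.2.2
    omega
  · intro f hf
    have h2 := sz_mem_le hf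
    have h3 := szs_frame f
    rw [sz_cons]
    constructor
    · omega
    · omega

private theorem szs_stack (M : ℕ) (st : List Frame)
    (h : ∀ f ∈ st, sz f.2.1.1 ≤ M ∧ sz (f.2.1.2 :: f.2.2.1) ≤ M) :
    sz st ≤ st.length * (15 + 12 * M) + 2 * (st.map (fun f : Frame => sz f.2.2.2)).sum := by
  induction st with
  | nil => exact Nat.zero_le _
  | cons f st ih =>
    have h1 := ih fun g hg => h g (List.mem_cons_of_mem _ hg)
    obtain ⟨h2, h3⟩ := h f List.mem_cons_self
    rw [sz_cons] at h3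
    rw [List.map_cons, List.sum_cons, sz_cons, szs_frame f, List.length_cons,
      Nat.add_mul st.length 1, Nat.one_mul]
    omega

private theorem szs_final {M κ n : ℕ} {s : St} (h : BdS M κ n s) :
    sz s ≤ 8 + 8 * M + 2 * κ + n * (15 + 12 * M) := by
  obtain ⟨h1, h2, h3, h4, h5⟩ := h
  have h6 := szs_stack M s.2.2 h4
  have h7 : s.2.2.length * (15 + 12 * M) ≤ n * (15 + 12 * M) := Nat.mul_le_mul_right _ h3
  rw [szs_state s]
  omega

theorem sz_rstep (P : Par) (p : List Bool × St) (i : ℕ) :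
    sz ((rstep P)^[i] p) ≤ 1000 * (i + sz p + 1) ^ 3 := by
  obtain ⟨h1, h2⟩ := szs_iter P (show 5 ≤ sz p.2 + 5 by omega) i _ _ p (szs_init p.2)
  have h3 := szs_final h1
  have h4 : sz p = 2 * sz p.1 + 1 + sz p.2 := by
    obtain ⟨l, s⟩ := p
    rw [sz_pair]
  have h5 : sz ((rstep P)^[i] p) =
      2 * sz ((rstep P)^[i] p).1 + 1 + sz ((rstep P)^[i] p).2 := by
    generalize (rstep P)^[i] p = r
    obtain ⟨l, s⟩ := r
    rw [sz_pair]
  rw [h5]
  have h6 : 2 * sz ((rstep P)^[i] p).1 + 1 + sz ((rstep P)^[i] p).2 ≤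
      2 * sz p.1 + 1 + (8 + 8 * (sz p.2 + 5) + 2 * (sz p.2 + i * (2 * (sz p.2 + 5) + 1)) +
        (sz p.2 + i) * (15 + 12 * (sz p.2 + 5))) := by
    omega
  refine h6.trans ?_
  rw [h4]
  generalize sz p.1 = a
  generalize sz p.2 = b
  have e3 : 2 * a + 1 + (8 + 8 * (b + 5) + 2 * (b + i * (2 * (b + 5) + 1)) +
      (b + i) * (15 + 12 * (b + 5))) =
      2 * a + 49 + 85 * b + 97 * i + 16 * (i * b) + 12 * (b * b) := by ring
  rw [e3]
  have hX : i + (2 * a + 1 + b) + 1 = i + 2 * a + b + 2 := by ring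
  rw [hX]
  generalize hY : i + 2 * a + b + 2 = X
  have h7 : i * b ≤ X * X := Nat.mul_le_mul (by omega) (by omega)
  have h8 : b * b ≤ X * X := Nat.mul_le_mul (by omega) (by omega)
  have h9 : X ≤ X * X := Nat.le_mul_self X
  have h10 : X * X ≤ X ^ 3 := by
    rw [pow_succ, pow_two]
    exact Nat.le_mul_of_pos_right _ (by omega)
  omega

end Pool.Agent.TFP
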