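import Pool.Agent.TFP.ThLow
import Pool.Agent.TFP.TutR

set_option autoImplicit false

/-!
# TFP-Cls: the classes of multigraphs

Plan. `E = (nlE G.2).toFinset`, `V = range G.1.length`, `m = G.2.length`.
`mem_nlE`: `(i, e) ∈ nlE l ↔ e.1 ≠ e.2 ∧ ∃ j : Fin l.length, i = l.length - 1 - j ∧ l.get j = e`; labels are distinct.
* `NL E` by the filter; `ends E ⊆ V` by `Valid G`.
* `(star v E).card = deg G v` (or `≤`): `(nlE l).filter (at v)` has the same length as the filtered `l`
  (induction on `l`: `labE (e :: l) = (l.length, e) :: labE l`; and `toFinset_card_of_nodup`, `List.toFinset_filter`).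
* `θ0 = 0`: `th_nonneg` (`NL.mono`).
* `cl_pos`: `e ∈ E` joins `v`, `u`; `H ⊆ E.erase e`; `(star u H).card ≤ (star u E).card - 1 ≤ D - 1` (`e ∈ star u E`),
  `(btw v {u} H).card ≤ (star u H).card ≤ D - 1`; `th_low`, `0 < 1/(1+lam) < 1`, `0 ≤ y < 1`: powers are decreasing in
  the exponent (`pow_le_pow_of_le_one`). So `th ≥ (1/(1+lam))^D * y^D`, positive if `0 < y`.
* `cl_simple`: if `NoPar G`: `btw v {u} H = ∅`: an edge `f ∈ H` joining `v` and `u`, `f ≠ e`, would have an index
  different from the index of `e` (the pair of ends and the label determine the edge; if the labels are equal the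
  edges are equal) and equal or swapped ends. So `th ≥ (1/(1+lam))^D`.
-/

namespace Pool.Agent.TFP

open Finset Pool.Agent.Helper47.TR

private theorem len_labE (l : List (ℕ × ℕ)) : (labE l).length = l.length := by
  induction l with
  | nil => rfl
  | cons e l ih =>
    change ((labE l).length, e).1 + 1 = l.length + 1
    rw [ih]

private theorem map_labE (l : List (ℕ × ℕ)) : (labE l).map Prod.snd = l := by
  induction l with
  | nil => rfl
  | cons e l ih =>
    change e :: (labE l).map Prod.snd = e :: l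
    rw [ih]

private theorem get_of_mem_labE (l : List (ℕ × ℕ)) : ∀ x ∈ labE l,
    ∃ j : Fin l.length, l.get j = x.2 ∧ x.1 + 1 + (j : ℕ) = l.length := by
  induction l with
  | nil =>
    intro x hx
    change x ∈ ([] : List Ed) at hx
    simp at hx
  | cons e l ih =>
    intro x hx
    change x ∈ ((labE l).length, e) :: labE l at hx
    rw [List.mem_cons] at hx
    rcases hx with rfl | hx
    · refine ⟨⟨0, by simp⟩, rfl, ?_⟩
      simp only [List.length_cons]
      rw [len_labE]
    · obtain ⟨j, hj1, hj2⟩ := ih x hx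
      refine ⟨j.succ, ?_, ?_⟩
      · rw [← hj1]
        rfl
      · simp only [Fin.val_succ, List.length_cons]
        omega

private theorem mem_nlE' {l : List (ℕ × ℕ)} {x : Ed} (hx : x ∈ (nlE l).toFinset) :
    x ∈ labE l ∧ x.2.1 ≠ x.2.2 := by
  rw [List.mem_toFinset] at hx
  unfold nlE at hx
  rw [List.mem_filter] at hx
  refine ⟨hx.1, ?_⟩
  simpa using hx.2

private theorem cl_base {G : MG} (hG : Valid G) {D : ℕ} (hD : ∀ v, deg G v ≤ D) :
    NL (nlE G.2).toFinset ∧ ends (nlE G.2).toFinset ⊆ range G.1.length ∧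
      ∀ v, (star v (nlE G.2).toFinset).card ≤ D := by
  have hE : ∀ x ∈ (nlE G.2).toFinset, x.2.1 < G.1.length ∧ x.2.2 < G.1.length := by
    intro x hx
    have h1 := (mem_nlE' hx).1
    apply hG
    rw [← map_labE G.2]
    exact List.mem_map.2 ⟨x, h1, rfl⟩
  refine ⟨fun x hx => (mem_nlE' hx).2, fun z hz => ?_, fun v => ?_⟩
  · unfold ends at hz
    rw [mem_union, mem_image, mem_image] at hz
    rw [mem_range]
    rcases hz with ⟨x, hx, rfl⟩ | ⟨x, hx, rfl⟩
    · exact (hE x hx).1
    · exact (hE x hx).2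
  · refine le_trans ?_ (hD v)
    have h1 : star v (nlE G.2).toFinset =
        ((nlE G.2).filter fun e => decide (e.2.1 = v ∨ e.2.2 = v)).toFinset := by
      unfold star
      rw [List.toFinset_filter]
      refine filter_congr fun x _ => ?_
      simp
    rw [h1]
    refine (List.toFinset_card_le _).trans (le_of_eq ?_)
    unfold deg nlE
    have h2 : (G.2.filter fun e => decide (e.1 ≠ e.2 ∧ (e.1 = v ∨ e.2 = v))) =
        (((labE G.2).map Prod.snd).filter fun e => decide (e.1 ≠ e.2 ∧ (e.1 = v ∨ e.2 = v))) := by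
      rw [map_labE]
    rw [h2, List.filter_map, List.length_map, List.filter_filter]
    refine congrArg List.length (List.filter_congr fun x _ => ?_)
    by_cases h3 : x.2.1 = x.2.2
    · simp [h3]
    · simp [h3]

private theorem jn_mem {G : MG} {e : Ed} (h : ends (nlE G.2).toFinset ⊆ range G.1.length)
    (he : e ∈ (nlE G.2).toFinset) {v u : ℕ} (hJ : Jn e v u) : u ∈ range G.1.length ∧ v ≠ u := by
  have h1 := (mem_nlE' he).2
  have ha : e.2.1 ∈ ends (nlE G.2).toFinset :=
    mem_union_left _ (mem_image.2 ⟨e, he, rfl⟩)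
  have hb : e.2.2 ∈ ends (nlE G.2).toFinset :=
    mem_union_right _ (mem_image.2 ⟨e, he, rfl⟩)
  rcases hJ with ⟨h2, h3⟩ | ⟨h2, h3⟩
  · subst h2; subst h3
    exact ⟨h hb, h1⟩
  · subst h2; subst h3
    exact ⟨h ha, fun h4 => h1 h4.symm⟩

theorem cl_zero {G : MG} (hG : Valid G) {lam y : ℚ} (hl : 0 < lam) (hy0 : 0 ≤ y) (hy1 : y < 1)
    {D : ℕ} (hD : ∀ v, deg G v ≤ D) :
    Cl (range G.1.length) D lam y 0 (nlE G.2).toFinset := by
  obtain ⟨h1, h2, h3⟩ := cl_base hG hD
  refine ⟨h1, h2, h3, fun e he v u hJ H hH => ?_⟩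
  exact th_nonneg hl hy0 hy1 (h1.mono (hH.trans (erase_subset _ _))) _ _ _

theorem cl_pos {G : MG} (hG : Valid G) {lam y : ℚ} (hl : 0 < lam) (hy0 : 0 ≤ y) (hy1 : y < 1)
    {D : ℕ} (hD : ∀ v, deg G v ≤ D) :
    Cl (range G.1.length) D lam y ((1 / (1 + lam)) ^ D * y ^ D) (nlE G.2).toFinset := by
  obtain ⟨h1, h2, h3⟩ := cl_base hG hD
  refine ⟨h1, h2, h3, fun e he v u hJ H hH => ?_⟩
  have hHE : H ⊆ (nlE G.2).toFinset := hH.trans (erase_subset _ _)
  obtain ⟨hu, huv⟩ := jn_mem h2 he hJ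
  refine le_trans ?_ (th_low hl hy0 hy1 (h1.mono hHE) hu huv)
  have hs : ∀ w, (star w H).card ≤ D := fun w =>
    (card_le_card (filter_subset_filter _ hHE)).trans (h3 w)
  have hb : (btw v {u} H).card ≤ D := by
    refine (card_le_card fun x hx => ?_).trans (hs v)
    unfold btw at hx
    rw [mem_filter] at hx
    unfold star
    rw [mem_filter]
    refine ⟨hx.1, ?_⟩
    rcases hx.2 with h4 | h4
    · exact Or.inl h4.1
    · exact Or.inr h4.1
  have hx0 : (0 : ℚ) ≤ 1 / (1 + lam) := by positivity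
  have hx1 : 1 / (1 + lam) ≤ (1 : ℚ) := by
    rw [div_le_one (by linarith)]
    linarith
  exact mul_le_mul (pow_le_pow_of_le_one hx0 hx1 (hs u)) (pow_le_pow_of_le_one hy0 hy1.le hb)
    (pow_nonneg hy0 _) (pow_nonneg hx0 _)

theorem cl_simple {G : MG} (hG : Valid G) (hS : NoPar G) {lam y : ℚ} (hl : 0 < lam)
    (hy0 : 0 ≤ y) (hy1 : y < 1) {D : ℕ} (hD : ∀ v, deg G v ≤ D) :
    Cl (range G.1.length) D lam y ((1 / (1 + lam)) ^ D) (nlE G.2).toFinset := by
  obtain ⟨h1, h2, h3⟩ := cl_base hG hD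
  refine ⟨h1, h2, h3, fun e he v u hJ H hH => ?_⟩
  have hHE : H ⊆ (nlE G.2).toFinset := hH.trans (erase_subset _ _)
  obtain ⟨hu, huv⟩ := jn_mem h2 he hJ
  refine le_trans ?_ (th_low hl hy0 hy1 (h1.mono hHE) hu huv)
  have hs : ∀ w, (star w H).card ≤ D := fun w =>
    (card_le_card (filter_subset_filter _ hHE)).trans (h3 w)
  have hb : btw v {u} H = ∅ := by
    rw [eq_empty_iff_forall_notMem]
    intro f hf
    unfold btw at hf
    rw [mem_filter, mem_singleton, mem_singleton] at hf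
    have hfe : f ≠ e := fun h4 => by
      have h5 := hH hf.1
      rw [h4] at h5
      exact notMem_erase _ _ h5
    obtain ⟨i, hi1, hi2⟩ := get_of_mem_labE _ _ (mem_nlE' he).1
    obtain ⟨j, hj1, hj2⟩ := get_of_mem_labE _ _ (mem_nlE' (hHE hf.1)).1
    have hij : i ≠ j := by
      intro h4
      subst h4
      apply hfe
      refine Prod.ext (by omega) (hj1.symm.trans hi1)
    have h6 := hS i j hij (by
      rw [hi1]
      exact (mem_nlE' he).2)
    rw [hi1, hj1] at h6
    rcases hJ with ⟨h7, h8⟩ | ⟨h7, h8⟩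
    · rcases hf.2 with ⟨h9, h10⟩ | ⟨h9, h10⟩
      · exact h6.1 (Prod.ext (h7.trans h9.symm) (h8.trans h10.symm))
      · exact h6.2 (Prod.ext (h7.trans h9.symm) (h8.trans h10.symm))
    · rcases hf.2 with ⟨h9, h10⟩ | ⟨h9, h10⟩
      · exact h6.2 (Prod.ext (h7.trans h10.symm) (h8.trans h9.symm))
      · exact h6.1 (Prod.ext (h7.trans h10.symm) (h8.trans h9.symm))
  rw [hb, card_empty, pow_zero, mul_one]
  have hx0 : (0 : ℚ) ≤ 1 / (1 + lam) := by positivity
  have hx1 : 1 / (1 + lam) ≤ (1 : ℚ) := by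
    rw [div_le_one (by linarith)]
    linarith
  exact pow_le_pow_of_le_one hx0 hx1 (hs u)

end Pool.Agent.TFP
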