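import Pool.Agent.TFP.ZSum
import Pool.Agent.TFP.CPos

set_option autoImplicit false

/-!
# TFP-ZPos: positivity of `Z`, `q` is a probability distribution

By `ZZ_sum` and `cc_nonneg` the partition function is a sum of nonnegative terms; the term of the cluster `{v}` is
positive by induction on the number of edges.
-/

namespace Pool.Agent.TFP

open Finset

variable {lam y : ℚ}

theorem Z_empty : Z lam y ∅ = 1 := by
  simp [Z, ZZ, rk, ends]

private theorem zp_nl {G : Finset Ed} (hG : NL G) (S : Finset ℕ) : NL (out S G) :=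
  fun e he => hG e (Finset.mem_filter.1 he).1

private theorem zp_w (hl : 0 < lam) (hy0 : 0 ≤ y) (hy1 : y < 1) {G : Finset Ed} (hG : NL G)
    {S : Finset ℕ} (hS : S.Nonempty) :
    0 ≤ (lam / (y - 1)) ^ (S.card - 1) * cc (y - 1) S G := by
  have h1 : (lam / (y - 1)) ^ (S.card - 1) * cc (y - 1) S G =
      lam ^ (S.card - 1) * (cc (y - 1) S G / (y - 1) ^ (S.card - 1)) := by
    rw [div_pow]
    ring
  rw [h1]
  exact mul_nonneg (pow_nonneg hl.le _) (cc_nonneg hy0 hy1 hG hS)

private theorem zp_ww (hl : 0 < lam) (hy0 : 0 ≤ y) (hy1 : y < 1) {G : Finset Ed} (hG : NL G)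
    (v : ℕ) (S : Finset ℕ) (hZ : v ∈ S → 0 < Z lam y (out S G)) :
    0 ≤ ww (lam / (y - 1)) (y - 1) G v S := by
  unfold ww
  split_ifs with hv
  · exact mul_nonneg (zp_w hl hy0 hy1 hG ⟨v, hv⟩) (hZ hv).le
  · exact le_refl _

private theorem zp_single (lam y : ℚ) {G : Finset Ed} (hG : NL G) (v : ℕ) :
    ww (lam / (y - 1)) (y - 1) G v {v} = Z lam y (out {v} G) := by
  unfold ww
  rw [if_pos (Finset.mem_singleton_self v), Finset.card_singleton, cc_single _ hG]
  simp [Z]

theorem Z_pos (hl : 0 < lam) (hy0 : 0 ≤ y) (hy1 : y < 1) {G : Finset Ed} (hG : NL G) :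
    0 < Z lam y G := by
  induction hn : G.card using Nat.strong_induction_on generalizing G with
  | _ n ih =>
    rcases G.eq_empty_or_nonempty with rfl | ⟨e, he⟩
    · rw [Z_empty]
      exact one_pos
    · have hlt : ∀ S : Finset ℕ, e.2.1 ∈ S → 0 < Z lam y (out S G) := by
        intro S hS
        refine ih (out S G).card ?_ (zp_nl hG S) rfl
        rw [← hn]
        refine Finset.card_lt_card ⟨Finset.filter_subset _ _, fun h => ?_⟩
        exact (Finset.mem_filter.1 (h he)).2.1 hS
      have h1 := ZZ_sum (lam / (y - 1)) (y - 1) G e.2.1 (insert e.2.1 (ends G)) (Finset.Subset.refl _)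
      show 0 < ZZ (lam / (y - 1)) (y - 1) G
      rw [← h1]
      refine Finset.sum_pos' (fun S _ => zp_ww hl hy0 hy1 hG _ S (hlt S)) ⟨{e.2.1}, ?_, ?_⟩
      · rw [Finset.mem_powerset, Finset.singleton_subset_iff]
        exact Finset.mem_insert_self _ _
      · rw [zp_single lam y hG]
        exact hlt _ (Finset.mem_singleton_self _)

theorem q_nonneg (hl : 0 < lam) (hy0 : 0 ≤ y) (hy1 : y < 1) {G : Finset Ed} (hG : NL G)
    (v : ℕ) (S : Finset ℕ) : 0 ≤ q lam y G v S := by
  unfold q
  exact div_nonneg (zp_ww hl hy0 hy1 hG v S fun _ => Z_pos hl hy0 hy1 (zp_nl hG S))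
    (Z_pos hl hy0 hy1 hG).le

theorem q_sum (hl : 0 < lam) (hy0 : 0 ≤ y) (hy1 : y < 1) {G : Finset Ed} (hG : NL G)
    {V : Finset ℕ} (hV : ends G ⊆ V) {v : ℕ} (hv : v ∈ V) :
    ∑ S ∈ V.powerset, q lam y G v S = 1 := by
  unfold q
  rw [← Finset.sum_div, ZZ_sum _ _ G v V (Finset.insert_subset hv hV)]
  exact div_self (Z_pos hl hy0 hy1 hG).ne'

theorem q_iso (hl : 0 < lam) (hy0 : 0 ≤ y) (hy1 : y < 1) {G : Finset Ed} (hG : NL G) {v : ℕ}
    (h : star v G = ∅) (S : Finset ℕ) : q lam y G v S = if S = {v} then 1 else 0 := by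
  split_ifs with hS
  · subst hS
    have h1 : out {v} G = G := by
      unfold out
      rw [Finset.filter_eq_self]
      intro e he
      rw [Finset.mem_singleton, Finset.mem_singleton]
      constructor
      · intro h2
        have h3 : e ∈ star v G := Finset.mem_filter.2 ⟨he, Or.inl h2⟩
        rw [h] at h3
        exact absurd h3 (Finset.notMem_empty e)
      · intro h2
        have h3 : e ∈ star v G := Finset.mem_filter.2 ⟨he, Or.inr h2⟩
        rw [h] at h3
        exact absurd h3 (Finset.notMem_empty e)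
    unfold q
    rw [zp_single lam y hG, h1]
    exact div_self (Z_pos hl hy0 hy1 hG).ne'
  · unfold q ww
    split_ifs with hv
    · rw [cc_base (y - 1) hv h, if_neg hS, mul_zero, zero_mul, zero_div]
    · rw [zero_div]

theorem q_single (hy1 : y < 1) {G : Finset Ed} (hG : NL G) (v : ℕ) :
    q lam y G v {v} = Z lam y (out {v} G) / Z lam y G := by
  unfold q
  rw [zp_single lam y hG]

/-- small facts on subsets, used everywhere -/
theorem NL.mono {G H : Finset Ed} (hG : NL G) (h : H ⊆ G) : NL H := fun e he => hG e (h he)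

end Pool.Agent.TFP
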