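import Pool.Agent.TFP.RecA
import Pool.Agent.TFP.RecB

set_option autoImplicit false

/-!
# TFP-CRec: the recursion for the connected generating function

The connected edge sets of `S` which contain `e = vu` are decomposed according to the component `K` of `u` in the
edges not at `v`.
-/

namespace Pool.Agent.TFP

open Finset

private theorem mem_ins {S : Finset ℕ} {G : Finset Ed} {f : Ed} :
    f ∈ ins S G ↔ f ∈ G ∧ f.2.1 ∈ S ∧ f.2.2 ∈ S := by
  unfold ins
  rw [Finset.mem_filter]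

private theorem mem_btw {v : ℕ} {K : Finset ℕ} {G : Finset Ed} {f : Ed} :
    f ∈ btw v K G ↔ f ∈ G ∧ ((f.2.1 = v ∧ f.2.2 ∈ K) ∨ (f.2.2 = v ∧ f.2.1 ∈ K)) := by
  unfold btw
  rw [Finset.mem_filter]

private theorem ins_mono {S : Finset ℕ} {A G : Finset Ed} (h : A ⊆ G) : ins S A ⊆ ins S G := by
  intro f hf
  rw [mem_ins] at hf ⊢
  exact ⟨h hf.1, hf.2⟩

private theorem btw_mono {v : ℕ} {K : Finset ℕ} {A G : Finset Ed} (h : A ⊆ G) :
    btw v K A ⊆ btw v K G := by
  intro f hf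
  rw [mem_btw] at hf ⊢
  exact ⟨h hf.1, hf.2⟩

private theorem card_three {A1 J A2 : Finset Ed} {v : ℕ} {S K : Finset ℕ} (hvK : v ∉ K)
    (h1 : ∀ f ∈ A1, f.2.1 ∈ K ∧ f.2.2 ∈ K)
    (hJ' : ∀ f ∈ J, (f.2.1 = v ∧ f.2.2 ∈ K) ∨ (f.2.2 = v ∧ f.2.1 ∈ K))
    (h2 : ∀ f ∈ A2, f.2.1 ∈ S \ K ∧ f.2.2 ∈ S \ K) :
    (A1 ∪ (J ∪ A2)).card = A1.card + (J.card + A2.card) := by
  rw [Finset.card_union_of_disjoint, Finset.card_union_of_disjoint]
  · rw [Finset.disjoint_left]
    intro f hf hf2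
    obtain ⟨k1, k2⟩ := h2 f hf2
    rw [Finset.mem_sdiff] at k1 k2
    rcases hJ' f hf with ⟨-, k⟩ | ⟨-, k⟩
    · exact k2.2 k
    · exact k1.2 k
  · rw [Finset.disjoint_left]
    intro f hf hf2
    obtain ⟨k1, k2⟩ := h1 f hf
    rcases Finset.mem_union.1 hf2 with h3 | h3
    · rcases hJ' f h3 with ⟨k, -⟩ | ⟨k, -⟩
      · rw [k] at k1
        exact hvK k1
      · rw [k] at k2
        exact hvK k2
    · obtain ⟨k3, -⟩ := h2 f h3
      rw [Finset.mem_sdiff] at k3
      exact k3.2 k1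

private theorem fiber (β : ℚ) {S K : Finset ℕ} {G : Finset Ed} {e : Ed} {v u : ℕ} (hvu : v ≠ u)
    (hJ : Jn e v u) (hv : v ∈ S) (hu : u ∈ S) (hKS : K ⊆ S) (huK : u ∈ K) (hvK : v ∉ K) :
    (open Classical in
      ∑ A ∈ ((ins S G).powerset.filter (fun A => ConnOn (insert e A) S)).filter
        (fun A => comp (A.filter fun f => f.2.1 ≠ v ∧ f.2.2 ≠ v) u = K), β ^ A.card) =
      cc β K G * (1 + β) ^ (btw v K G).card * cc β (S \ K) G := by
  classical
  have hb : (1 + β) ^ (btw v K G).card = ∑ J ∈ (btw v K G).powerset, β ^ J.card := by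
    have h1 := Finset.sum_pow_mul_eq_add_pow β 1 (btw v K G)
    simp only [one_pow, mul_one] at h1
    rw [h1, add_comm]
  rw [hb]
  unfold cc
  rw [mul_assoc, Finset.sum_mul_sum, Finset.sum_mul_sum]
  have hR : (∑ A1 ∈ (ins K G).powerset.filter (fun A => ConnOn A K),
      ∑ J ∈ (btw v K G).powerset, β ^ A1.card *
        ∑ A2 ∈ (ins (S \ K) G).powerset.filter (fun A => ConnOn A (S \ K)),
          β ^ J.card * β ^ A2.card) =
      ∑ q ∈ ((ins K G).powerset.filter (fun A => ConnOn A K)) ×ˢ ((btw v K G).powerset ×ˢ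
        ((ins (S \ K) G).powerset.filter (fun A => ConnOn A (S \ K)))),
        β ^ q.1.card * (β ^ q.2.1.card * β ^ q.2.2.card) := by
    rw [Finset.sum_product]
    apply Finset.sum_congr rfl
    intro A1 _
    rw [Finset.sum_product]
    apply Finset.sum_congr rfl
    intro J _
    rw [Finset.mul_sum]
  have hL : (∑ i ∈ (ins K G).powerset.filter (fun A => ConnOn A K), β ^ i.card) *
      (∑ i ∈ (btw v K G).powerset,
        ∑ j ∈ (ins (S \ K) G).powerset.filter (fun A => ConnOn A (S \ K)),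
          β ^ i.card * β ^ j.card) =
      ∑ q ∈ ((ins K G).powerset.filter (fun A => ConnOn A K)) ×ˢ ((btw v K G).powerset ×ˢ
        ((ins (S \ K) G).powerset.filter (fun A => ConnOn A (S \ K)))),
        β ^ q.1.card * (β ^ q.2.1.card * β ^ q.2.2.card) := by
    rw [← hR, Finset.sum_mul_sum]
  rw [← Finset.sum_mul_sum, hL]
  refine Finset.sum_bij' (fun A _ => (ins K A, (btw v K A, ins (S \ K) A)))
    (fun q _ => q.1 ∪ (q.2.1 ∪ q.2.2)) ?_ ?_ ?_ ?_ ?_
  · intro A hA
    rw [Finset.mem_filter, Finset.mem_filter, Finset.mem_powerset] at hA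
    obtain ⟨⟨h1, h2⟩, h3⟩ := hA
    have hAG : A ⊆ G := fun f hf => (mem_ins.1 (h1 hf)).1
    obtain ⟨-, -, -, -, h4, h5⟩ := recA hvu hJ hv hu (fun f hf => (mem_ins.1 (h1 hf)).2) h2 h3
    rw [Finset.mem_product, Finset.mem_product, Finset.mem_filter, Finset.mem_filter,
      Finset.mem_powerset, Finset.mem_powerset, Finset.mem_powerset]
    exact ⟨⟨ins_mono hAG, h4⟩, btw_mono hAG, ins_mono hAG, h5⟩
  · rintro ⟨A1, J, A2⟩ hq
    rw [Finset.mem_product, Finset.mem_product, Finset.mem_filter, Finset.mem_filter,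
      Finset.mem_powerset, Finset.mem_powerset, Finset.mem_powerset] at hq
    obtain ⟨⟨h1, h2⟩, h3, h4, h5⟩ := hq
    obtain ⟨k1, k2, -, -, -⟩ := recB hvu hJ hv hKS huK hvK (fun f hf => (mem_ins.1 (h1 hf)).2) h2
      (fun f hf => (mem_btw.1 (h3 hf)).2) (fun f hf => (mem_ins.1 (h4 hf)).2) h5
    rw [Finset.mem_filter, Finset.mem_filter, Finset.mem_powerset]
    refine ⟨⟨?_, k1⟩, k2⟩
    intro f hf
    rw [mem_ins]
    rcases Finset.mem_union.1 hf with hf | hf
    · have h6 := mem_ins.1 (h1 hf)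
      exact ⟨h6.1, hKS h6.2.1, hKS h6.2.2⟩
    · rcases Finset.mem_union.1 hf with hf | hf
      · have h6 := mem_btw.1 (h3 hf)
        refine ⟨h6.1, ?_⟩
        rcases h6.2 with ⟨h7, h8⟩ | ⟨h7, h8⟩
        · rw [h7]
          exact ⟨hv, hKS h8⟩
        · rw [h7]
          exact ⟨hKS h8, hv⟩
      · have h6 := mem_ins.1 (h4 hf)
        exact ⟨h6.1, (Finset.mem_sdiff.1 h6.2.1).1, (Finset.mem_sdiff.1 h6.2.2).1⟩
  · intro A hA
    rw [Finset.mem_filter, Finset.mem_filter, Finset.mem_powerset] at hA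
    obtain ⟨⟨h1, h2⟩, h3⟩ := hA
    obtain ⟨-, -, -, h4, -, -⟩ := recA hvu hJ hv hu (fun f hf => (mem_ins.1 (h1 hf)).2) h2 h3
    exact h4
  · rintro ⟨A1, J, A2⟩ hq
    rw [Finset.mem_product, Finset.mem_product, Finset.mem_filter, Finset.mem_filter,
      Finset.mem_powerset, Finset.mem_powerset, Finset.mem_powerset] at hq
    obtain ⟨⟨h1, h2⟩, h3, h4, h5⟩ := hq
    obtain ⟨-, -, k3, k4, k5⟩ := recB hvu hJ hv hKS huK hvK (fun f hf => (mem_ins.1 (h1 hf)).2) h2
      (fun f hf => (mem_btw.1 (h3 hf)).2) (fun f hf => (mem_ins.1 (h4 hf)).2) h5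
    show (ins K (A1 ∪ (J ∪ A2)), (btw v K (A1 ∪ (J ∪ A2)), ins (S \ K) (A1 ∪ (J ∪ A2)))) =
      (A1, (J, A2))
    rw [k3, k4, k5]
  · intro A hA
    rw [Finset.mem_filter, Finset.mem_filter, Finset.mem_powerset] at hA
    obtain ⟨⟨h1, h2⟩, h3⟩ := hA
    obtain ⟨-, -, -, h4, -, -⟩ := recA hvu hJ hv hu (fun f hf => (mem_ins.1 (h1 hf)).2) h2 h3
    show β ^ A.card = β ^ (ins K A).card * (β ^ (btw v K A).card * β ^ (ins (S \ K) A).card)
    rw [← pow_add, ← pow_add, ← card_three (S := S) hvK (fun f hf => (mem_ins.1 hf).2)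
      (fun f hf => (mem_btw.1 hf).2) (fun f hf => (mem_ins.1 hf).2), h4]

theorem cc_rec (β : ℚ) {S : Finset ℕ} {G : Finset Ed} {e : Ed} (he : e ∈ G) {v u : ℕ}
    (hvu : v ≠ u) (hJ : Jn e v u) (hv : v ∈ S) :
    cc β S G = cc β S (G.erase e) +
      β * ∑ K ∈ S.powerset.filter (fun K => u ∈ K ∧ v ∉ K),
        cc β K (G.erase e) * (1 + β) ^ (btw v K (G.erase e)).card * cc β (S \ K) (G.erase e) := by
  classical
  by_cases hu : u ∈ S
  · have hins : ins S G = insert e (ins S (G.erase e)) := by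
      ext f
      rw [Finset.mem_insert, mem_ins, mem_ins, Finset.mem_erase]
      constructor
      · rintro ⟨h1, h2⟩
        by_cases hfe : f = e
        · exact Or.inl hfe
        · exact Or.inr ⟨⟨hfe, h1⟩, h2⟩
      · rintro (rfl | ⟨⟨-, h1⟩, h2⟩)
        · refine ⟨he, ?_⟩
          rcases hJ with ⟨h3, h4⟩ | ⟨h3, h4⟩
          · rw [h3, h4]
            exact ⟨hv, hu⟩
          · rw [h3, h4]
            exact ⟨hu, hv⟩
        · exact ⟨h1, h2⟩
    have heI : e ∉ ins S (G.erase e) := by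
      rw [mem_ins]
      intro h
      exact Finset.notMem_erase e G h.1
    have h1 : cc β S G = cc β S (G.erase e) +
        ∑ A ∈ (ins S (G.erase e)).powerset.filter (fun A => ConnOn (insert e A) S),
          β ^ (insert e A).card := by
      unfold cc
      rw [hins, Finset.sum_filter, Finset.sum_powerset_insert heI, ← Finset.sum_filter,
        ← Finset.sum_filter]
    rw [h1]
    congr 1
    have h2 : ∑ A ∈ (ins S (G.erase e)).powerset.filter (fun A => ConnOn (insert e A) S),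
          β ^ (insert e A).card =
        β * ∑ A ∈ (ins S (G.erase e)).powerset.filter (fun A => ConnOn (insert e A) S),
          β ^ A.card := by
      rw [Finset.mul_sum]
      apply Finset.sum_congr rfl
      intro A hA
      rw [Finset.mem_filter, Finset.mem_powerset] at hA
      rw [Finset.card_insert_of_notMem (fun h => heI (hA.1 h)), pow_succ']
    rw [h2]
    congr 1
    rw [← Finset.sum_fiberwise_of_maps_to
      (g := fun A => comp (A.filter fun f => f.2.1 ≠ v ∧ f.2.2 ≠ v) u)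
      (t := S.powerset.filter (fun K => u ∈ K ∧ v ∉ K))]
    · apply Finset.sum_congr rfl
      intro K hK
      rw [Finset.mem_filter, Finset.mem_powerset] at hK
      exact fiber β hvu hJ hv hu hK.1 hK.2.1 hK.2.2
    · intro A hA
      rw [Finset.mem_filter, Finset.mem_powerset] at hA
      obtain ⟨k1, k2, k3, -⟩ := recA hvu hJ hv hu (fun f hf => (mem_ins.1 (hA.1 hf)).2) hA.2 rfl
      rw [Finset.mem_filter, Finset.mem_powerset]
      exact ⟨k3, k1, k2⟩
  · have hins : ins S G = ins S (G.erase e) := by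
      ext f
      rw [mem_ins, mem_ins, Finset.mem_erase]
      constructor
      · rintro ⟨h1, h2⟩
        refine ⟨⟨?_, h1⟩, h2⟩
        rintro rfl
        rcases hJ with ⟨h3, h4⟩ | ⟨h3, h4⟩
        · rw [h4] at h2
          exact hu h2.2
        · rw [h3] at h2
          exact hu h2.1
      · rintro ⟨⟨-, h1⟩, h2⟩
        exact ⟨h1, h2⟩
    have hempty : S.powerset.filter (fun K => u ∈ K ∧ v ∉ K) = ∅ := by
      rw [Finset.filter_eq_empty_iff]
      intro K hK h
      exact hu (Finset.mem_powerset.1 hK h.1)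
    rw [hempty, Finset.sum_empty, mul_zero, add_zero]
    unfold cc
    rw [hins]

end Pool.Agent.TFP
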