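import Pool.Agent.TFP.ZEr

set_option autoImplicit false

/-!
# TFP-DcLow: the expected cost decreases

Plan. `p = lam/(1+lam)`, `1/(1+lam) = 1-p`, `G' = G.erase e`, `d = deg_G v ≥ 1`, `θ = th lam y V G' u v`, `θ0 ≤ θ ≤ 1`.
`deg_{G'} v = d - 1`, `deg_{G'} u ≤ D - 1` (`e` is at `u`, `deg_G u ≤ D`), `deg_{out K G'} v ≤ d - 1`.
With `nE G v = κ (1 + B d)`, `0 ≤ thK ≤ 1`, `q ≥ 0`, `∑_K q G' u K = 1` (`u ∈ V`):
`∑_K q (thK (nE (out K G') v + κ) + (1 - thK) nE G v) ≤ κ (θ (2 + B (d-1)) + (1 - θ) (1 + B d))`. Hence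
`Dcost ≥ κ [1 + B d - (1-p)(1 + B(d-1)) - p (2 + B(D-1) + θ(2 + B(d-1)) + (1-θ)(1 + B d))]`
`     = κ [B (1 - p D + p θ) - 2p - pθ] ≥ κ [B (1 - p D + p θ0) - 3p] ≥ κ`.
-/

namespace Pool.Agent.TFP

open Finset

variable {lam y : ℚ}

private theorem dcl_mem_star {G : Finset Ed} {e : Ed} (he : e ∈ G) {v u : ℕ} (hJ : Jn e v u) :
    e ∈ star v G ∧ e ∈ star u G := by
  unfold star
  rw [mem_filter, mem_filter]
  rcases hJ with ⟨h1, h2⟩ | ⟨h1, h2⟩
  · exact ⟨⟨he, Or.inl h1⟩, ⟨he, Or.inr h2⟩⟩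
  · exact ⟨⟨he, Or.inr h2⟩, ⟨he, Or.inl h1⟩⟩

private theorem dcl_star_erase (G : Finset Ed) (e : Ed) (v : ℕ) :
    star v (G.erase e) = (star v G).erase e := by
  ext f
  unfold star
  simp only [mem_filter, mem_erase]
  tauto

private theorem dcl_card {G : Finset Ed} {e : Ed} {v : ℕ} (h : e ∈ star v G) :
    ((star v (G.erase e)).card : ℚ) = (star v G).card - 1 := by
  have h1 : (star v (G.erase e)).card + 1 = (star v G).card := by
    rw [dcl_star_erase]
    exact card_erase_add_one h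
  have h2 : ((star v (G.erase e)).card : ℚ) + 1 = (star v G).card := by exact_mod_cast h1
  linarith

private theorem dcl_out (K : Finset ℕ) (G : Finset Ed) (v : ℕ) :
    (star v (out K G)).card ≤ (star v G).card := by
  apply card_le_card
  unfold star out
  exact filter_subset_filter _ (filter_subset _ _)

private theorem dcl_ends {G H : Finset Ed} (h : H ⊆ G) : ends H ⊆ ends G := by
  unfold ends
  exact union_subset_union (image_subset_image h) (image_subset_image h)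

private theorem dcl_end {G : Finset Ed} {e : Ed} (he : e ∈ G) {v u : ℕ} (hJ : Jn e v u) :
    u ∈ ends G := by
  unfold ends
  rw [mem_union, mem_image, mem_image]
  rcases hJ with ⟨_, h2⟩ | ⟨h1, _⟩
  · exact Or.inr ⟨e, he, h2⟩
  · exact Or.inl ⟨e, he, h1⟩

private theorem dcl_sum {V : Finset ℕ} (f t g : Finset ℕ → ℚ) (hf : ∀ K ∈ V.powerset, 0 ≤ f K)
    (ht0 : ∀ K, 0 ≤ t K) {a b : ℚ} (hg : ∀ K, g K ≤ a) (h1 : ∑ K ∈ V.powerset, f K = 1) :
    ∑ K ∈ V.powerset, f K * (t K * g K + (1 - t K) * b) ≤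
      (∑ K ∈ V.powerset, f K * t K) * a + (1 - ∑ K ∈ V.powerset, f K * t K) * b := by
  have h2 : (∑ K ∈ V.powerset, f K * t K) * a + (1 - ∑ K ∈ V.powerset, f K * t K) * b =
      ∑ K ∈ V.powerset, f K * (t K * a + (1 - t K) * b) := by
    have h3 : ∑ K ∈ V.powerset, f K * (t K * a + (1 - t K) * b) =
        ∑ K ∈ V.powerset, (f K * t K * a + (f K * b - f K * t K * b)) :=
      sum_congr rfl fun K _ => by ring
    rw [h3, sum_add_distrib, sum_sub_distrib, ← sum_mul, ← sum_mul, ← sum_mul, h1]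
    ring
  rw [h2]
  refine sum_le_sum fun K hK => mul_le_mul_of_nonneg_left ?_ (hf K hK)
  have := mul_le_mul_of_nonneg_left (hg K) (ht0 K)
  linarith

theorem Dcost_low (hl : 0 < lam) (hy0 : 0 ≤ y) (hy1 : y < 1) {V : Finset ℕ} {D : ℕ} {θ0 : ℚ}
    {G : Finset Ed} (hG : Cl V D lam y θ0 G) {e : Ed} (he : e ∈ G) {v u : ℕ} (hJ : Jn e v u)
    {B κ : ℚ} (hB0 : 0 ≤ B) (hκ : 0 ≤ κ)
    (hB : 1 + 3 * (lam / (1 + lam)) ≤ B * (1 - lam / (1 + lam) * D + lam / (1 + lam) * θ0)) :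
    κ ≤ Dcost lam y V (fun G v => κ * (1 + B * (star v G).card)) κ G v u e := by
  obtain ⟨hNL, hends, hdeg, hθ⟩ := hG
  have hNL' : NL (G.erase e) := hNL.mono (erase_subset _ _)
  have hV' : ends (G.erase e) ⊆ V := (dcl_ends (erase_subset _ _)).trans hends
  have huV : u ∈ V := hends (dcl_end he hJ)
  have hθ0 : θ0 ≤ th lam y V (G.erase e) u v := hθ e he v u hJ _ (Subset.refl _)
  have hθ1 : th lam y V (G.erase e) u v ≤ 1 := th_le_one hl hy0 hy1 hNL' hV' huV v
  have hS := dcl_mem_star he hJ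
  have hdv := dcl_card hS.1
  have hdu := dcl_card hS.2
  have hduD : ((star u G).card : ℚ) ≤ D := by exact_mod_cast hdeg u
  have hsum := dcl_sum (V := V) (fun K => q lam y (G.erase e) u K)
    (fun K => thK y v K (G.erase e))
    (fun K => κ * (1 + B * (star v (out K (G.erase e))).card) + κ)
    (fun K _ => q_nonneg hl hy0 hy1 hNL' u K) (fun K => thK_nonneg hy0 v K _)
    (a := κ * (1 + B * ((star v G).card - 1)) + κ) (b := κ * (1 + B * (star v G).card))
    (fun K => by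
      have h1 : ((star v (out K (G.erase e))).card : ℚ) ≤ (star v G).card - 1 := by
        rw [← hdv]
        exact_mod_cast dcl_out K (G.erase e) v
      have h2 := mul_le_mul_of_nonneg_left (mul_le_mul_of_nonneg_left h1 hB0) hκ
      show κ * (1 + B * (star v (out K (G.erase e))).card) + κ ≤ _
      linarith)
    (q_sum hl hy0 hy1 hNL' hV' huV)
  have hth : ∑ K ∈ V.powerset, q lam y (G.erase e) u K * thK y v K (G.erase e) =
      th lam y V (G.erase e) u v := rfl
  have hp1 : 1 / (1 + lam) = 1 - lam / (1 + lam) := by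
    have : (1 + lam) ≠ 0 := by positivity
    field_simp
    ring
  have hp0 : 0 ≤ lam / (1 + lam) := by positivity
  unfold Dcost
  rw [hp1]
  beta_reduce at hsum ⊢
  rw [hth] at hsum
  rw [hdv, hdu]
  revert hsum hθ0 hθ1 hB hp0
  generalize (∑ K ∈ V.powerset, q lam y (G.erase e) u K *
      (thK y v K (G.erase e) * (κ * (1 + B * (star v (out K (G.erase e))).card) + κ) +
        (1 - thK y v K (G.erase e)) * (κ * (1 + B * (star v G).card)))) = T
  generalize th lam y V (G.erase e) u v = θ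
  generalize lam / (1 + lam) = p
  generalize ((star v G).card : ℚ) = d
  generalize ((star u G).card : ℚ) = d' at hduD
  intro hB hθ0 hθ1 hsum hp0
  have h1 := mul_le_mul_of_nonneg_left hsum hp0
  have h2 : p * (κ * (1 + B * (d' - 1))) ≤ p * (κ * (1 + B * (D - 1))) := by
    have := mul_le_mul_of_nonneg_left hduD (mul_nonneg (mul_nonneg hp0 hκ) hB0)
    nlinarith
  have h3 : κ * (1 + 3 * p) ≤ κ * (B * (1 - p * D + p * θ0)) := mul_le_mul_of_nonneg_left hB hκ
  have h4 : κ * B * p * θ0 ≤ κ * B * p * θ :=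
    mul_le_mul_of_nonneg_left hθ0 (mul_nonneg (mul_nonneg hκ hB0) hp0)
  have h5 : κ * p * θ ≤ κ * p * 1 := mul_le_mul_of_nonneg_left hθ1 (mul_nonneg hκ hp0)
  nlinarith [h1, h2, h3, h4, h5]

end Pool.Agent.TFP
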