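import Pool.Agent.TFP.Defs

set_option autoImplicit false

/-!
# TFP-MeanR: one return step of the machine, mean of the value function

Plan. `s = (false, ((v0, (G0, K)), f :: st))`.
* `f.1 = false`: `stepM P U s = ret (f.2.2.2 ++ K) st` for all `U`; `List.toFinset_append`; `t = 1`.
* `f.1 = true`, `v = f.2.1.1 ∈ K`: `thK = 0`, the new state is `ev v (e :: G') st`, `t = 1`
  (`List.toFinset_cons`; `K.contains v = true ↔ v ∈ K`).
* `f.1 = true`, `v ∉ K`: `j = jj P v K G' = (btw v K.toFinset G'.toFinset).card` (`btwL v K G'` is a sublist of a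
  list without duplicates, its `toFinset` is `btw ..`, its length is at most the degree `≤ P.D`, so `take`
  does nothing), `thK = y^j = y1^j / y2^j`, `y1^j ≤ y2^j ≤ y2^D ≤ 2^b` (`y2 ≥ 1`). For `U < y1^j` the new value
  is `A = nE (out K G') v + ∑_S q (out K G') v S * (κ + RR st (K ∪ S))` (`outL` and `out`;
  `RR (frB K :: st) S = κ + RR st (K ∪ S)`), for `y1^j ≤ U < y2^j` it is `T = nE (insert e G') v + ...`, else `Val s =
  κ + (y^j * A + (1 - y^j) * T)`. Mean: `(y1^j * A + (y2^j - y1^j) * T + (2^b - y2^j) * Val s) / 2^b = Val s - t κ`,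
  `t = y2^j / 2^b`.
-/

namespace Pool.Agent.TFP

open Finset

private theorem btwL_toFinset (v : ℕ) (K : List ℕ) (G : List Ed) :
    (btwL v K G).toFinset = btw v K.toFinset G.toFinset := by
  ext e
  simp [btwL, btw]

private theorem outL_toFinset (K : List ℕ) (G : List Ed) :
    (outL K G).toFinset = out K.toFinset G.toFinset := by
  ext e
  simp [outL, out]

/-- the number of edges between `v` and `K`, computed by the machine -/
theorem jj_eq {P : Par} {v : ℕ} {K : List ℕ} {G : List Ed} (hn : G.Nodup)
    (hd : (star v G.toFinset).card ≤ P.D) :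
    jj P v K G = (btw v K.toFinset G.toFinset).card := by
  have h1 : (btwL v K G).Nodup := hn.filter _
  have h2 : (btwL v K G).length = (btw v K.toFinset G.toFinset).card := by
    rw [← btwL_toFinset, List.toFinset_card_of_nodup h1]
  have h3 : (btw v K.toFinset G.toFinset).card ≤ P.D := by
    refine (Finset.card_le_card ?_).trans hd
    intro e he
    simp only [btw, star, Finset.mem_filter] at he ⊢
    refine ⟨he.1, ?_⟩
    rcases he.2 with h | h
    · exact Or.inl h.1
    · exact Or.inr h.1
  unfold jj
  rw [List.take_of_length_le (by omega), h2]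

private theorem sum_three (m n N : ℕ) (h1 : m ≤ n) (h2 : n ≤ N) (A T c : ℚ) :
    (∑ U ∈ range N, if U < m then A else if U < n then T else c) =
      m * A + (n - m) * T + (N - n) * c := by
  have e1 : ∀ U ∈ range N, (if U < m then A else if U < n then T else c) =
      c + (if U < n then T - c else 0) + (if U < m then A - T else 0) := by
    intro U _
    by_cases ha : U < m
    · have hb : U < n := by omega
      simp [ha, hb]
    · by_cases hb : U < n
      · simp [ha, hb]
      · simp [ha, hb]
  have f1 : (range N).filter (fun U => U < n) = range n := by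
    ext U
    simp only [Finset.mem_filter, Finset.mem_range]
    omega
  have f2 : (range N).filter (fun U => U < m) = range m := by
    ext U
    simp only [Finset.mem_filter, Finset.mem_range]
    omega
  rw [Finset.sum_congr rfl e1, Finset.sum_add_distrib, Finset.sum_add_distrib,
    ← Finset.sum_filter, ← Finset.sum_filter, f1, f2]
  simp only [Finset.sum_const, Finset.card_range, nsmul_eq_mul]
  ring

theorem mean_R {P : Par} (hP : P.Ok) (V : Finset ℕ) (nE : Finset Ed → ℕ → ℚ) (κ : ℚ)
    (F : Finset ℕ → ℚ) (v0 : ℕ) (G0 : List Ed) (K : List ℕ) (f : Frame) (st : List Frame)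
    (h : f.1 = true → f.2.2.1.Nodup ∧ (star f.2.1.1 f.2.2.1.toFinset).card ≤ P.D) :
    ∃ t : ℚ, 1 ≤ t * 2 ^ P.b ∧
      (∑ U ∈ range (2 ^ P.b),
        Val P.lam P.y V nE κ F (stepM P U (false, ((v0, (G0, K)), f :: st)))) / 2 ^ P.b =
      Val P.lam P.y V nE κ F (false, ((v0, (G0, K)), f :: st)) - t * κ := by
  obtain ⟨hc, hca, hy, ha2, hyD⟩ := hP
  have hb : (0 : ℚ) < 2 ^ P.b := by positivity
  have hb1 : (1 : ℚ) ≤ 1 * 2 ^ P.b := by
    rw [one_mul]
    exact one_le_pow₀ (by norm_num)
  rcases hf : f.1 with _ | _
  · -- a frame of type B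
    refine ⟨1, hb1, ?_⟩
    have e1 : ∀ U ∈ range (2 ^ P.b),
        Val P.lam P.y V nE κ F (stepM P U (false, ((v0, (G0, K)), f :: st))) =
          RR P.lam P.y V nE κ F st (f.2.2.2.toFinset ∪ K.toFinset) := by
      intro U _
      simp [stepM, hf, Val]
    have e2 : Val P.lam P.y V nE κ F (false, ((v0, (G0, K)), f :: st)) =
        κ + RR P.lam P.y V nE κ F st (f.2.2.2.toFinset ∪ K.toFinset) := by
      simp [Val, RR, hf]
    rw [Finset.sum_congr rfl e1, e2, Finset.sum_const, Finset.card_range, nsmul_eq_mul]
    push_cast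
    field_simp
    ring
  · obtain ⟨hn, hd⟩ := h hf
    set A : ℚ := nE (out K.toFinset f.2.2.1.toFinset) f.2.1.1 +
            ∑ S ∈ V.powerset, q P.lam P.y (out K.toFinset f.2.2.1.toFinset) f.2.1.1 S *
              (κ + RR P.lam P.y V nE κ F st (K.toFinset ∪ S)) with hA
    set T : ℚ := nE (insert f.2.1.2 f.2.2.1.toFinset) f.2.1.1 +
            ∑ S ∈ V.powerset, q P.lam P.y (insert f.2.1.2 f.2.2.1.toFinset) f.2.1.1 S *
              RR P.lam P.y V nE κ F st S with hT
    have e2 : Val P.lam P.y V nE κ F (false, ((v0, (G0, K)), f :: st)) =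
        κ + (thK P.y f.2.1.1 K.toFinset f.2.2.1.toFinset * A +
          (1 - thK P.y f.2.1.1 K.toFinset f.2.2.1.toFinset) * T) := by
      simp only [Val, RR, hf, if_true, hA, hT]
      simp
    by_cases hv : f.2.1.1 ∈ K
    · refine ⟨1, hb1, ?_⟩
      have e1 : ∀ U ∈ range (2 ^ P.b),
          Val P.lam P.y V nE κ F (stepM P U (false, ((v0, (G0, K)), f :: st))) = T := by
        intro U _
        simp [stepM, hf, Val, hv, hT]
      have e3 : thK P.y f.2.1.1 K.toFinset f.2.2.1.toFinset = 0 := by
        simp [thK, hv]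
      rw [Finset.sum_congr rfl e1, e2, e3, Finset.sum_const, Finset.card_range, nsmul_eq_mul]
      push_cast
      field_simp
      ring
    · set j : ℕ := (btw f.2.1.1 K.toFinset f.2.2.1.toFinset).card with hj
      have hjj : jj P f.2.1.1 K f.2.2.1 = j := jj_eq hn hd
      have hjD : j ≤ P.D := by
        refine (Finset.card_le_card ?_).trans hd
        intro e he
        simp only [btw, star, Finset.mem_filter] at he ⊢
        refine ⟨he.1, ?_⟩
        rcases he.2 with h | h
        · exact Or.inl h.1
        · exact Or.inr h.1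
      have hy2 : 1 ≤ P.y2 := by omega
      have hle1 : P.y1 ^ j ≤ P.y2 ^ j := Nat.pow_le_pow_left hy.le j
      have hle2 : P.y2 ^ j ≤ 2 ^ P.b := (Nat.pow_le_pow_right hy2 hjD).trans hyD
      set W : ℚ := Val P.lam P.y V nE κ F (false, ((v0, (G0, K)), f :: st)) with hW
      have e1 : ∀ U ∈ range (2 ^ P.b),
          Val P.lam P.y V nE κ F (stepM P U (false, ((v0, (G0, K)), f :: st))) =
            if U < P.y1 ^ j then A else if U < P.y2 ^ j then T else W := by
        intro U _
        by_cases h1 : U < P.y1 ^ j
        · rw [if_pos h1]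
          have hs : stepM P U (false, ((v0, (G0, K)), f :: st)) =
              ev f.2.1.1 (outL K f.2.2.1) (frB K :: st) := by
            simp [stepM, hf, hv, hjj, h1]
          rw [hs]
          simp only [Val, if_true, RR, outL_toFinset, hA]
          simp
        · rw [if_neg h1]
          by_cases h2 : U < P.y2 ^ j
          · rw [if_pos h2]
            have hs : stepM P U (false, ((v0, (G0, K)), f :: st)) =
                ev f.2.1.1 (f.2.1.2 :: f.2.2.1) st := by
              simp [stepM, hf, hv, hjj, h1, h2]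
            rw [hs]
            simp only [Val, if_true, hT, List.toFinset_cons]
          · rw [if_neg h2]
            have hs : stepM P U (false, ((v0, (G0, K)), f :: st)) =
                (false, ((v0, (G0, K)), f :: st)) := by
              simp [stepM, hf, hv, hjj, h1, h2]
            rw [hs]
      have e3 : thK P.y f.2.1.1 K.toFinset f.2.2.1.toFinset = P.y ^ j := by
        simp [thK, hv, hj]
      refine ⟨P.y2 ^ j / 2 ^ P.b, ?_, ?_⟩
      · rw [div_mul_cancel₀ _ hb.ne']
        exact one_le_pow₀ (by exact_mod_cast hy2)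
      · rw [Finset.sum_congr rfl e1, sum_three _ _ _ hle1 hle2]
        have hy2' : (P.y2 : ℚ) ≠ 0 := by
          have : 0 < P.y2 := by omega
          positivity
        have hyj : P.y ^ j * (P.y2 : ℚ) ^ j = (P.y1 : ℚ) ^ j := by
          rw [← mul_pow, Par.y, div_mul_cancel₀ _ hy2']
        rw [e3] at e2
        have e4 : W - κ = P.y ^ j * A + (1 - P.y ^ j) * T := by rw [e2]; ring
        push_cast
        have e5 : (P.y1 : ℚ) ^ j * A + ((P.y2 : ℚ) ^ j - (P.y1 : ℚ) ^ j) * T =
            (P.y2 : ℚ) ^ j * (W - κ) := by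
          rw [e4, ← hyj]
          ring
        rw [e5]
        field_simp
        ring

end Pool.Agent.TFP
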