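import Pool.Agent.TFP.ZEr

set_option autoImplicit false

/-!
# TFP-NumR: `Z` is the product of the factors `zs`; the numerator over the denominator is the product of
the estimated factors

Plan. `zs_prod`: induction on `E`: `Z_erase` with `G = (e :: E).toFinset = insert e E.toFinset`, `G.erase e = E.toFinset`
(`e ∉ E`), `v = e.2.1`, `u = e.2.2`, `Jn e v u` trivially; `Z_empty`.
`numer_eq`: induction on `E`; `((a - c : ℕ) : ℚ) = a - c`, `a - c > 0`, `k > 0`, `y2 > 0`:
`((a-c) k y2^D + c * s) / ((a-c) k y2^D) = 1 + lam / (k y2^D) * s`.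
-/

namespace Pool.Agent.TFP

open Finset

theorem zs_prod {lam y : ℚ} (hl : 0 < lam) (hy0 : 0 ≤ y) (hy1 : y < 1) {V : Finset ℕ}
    {E : List Ed} (hn : E.Nodup) (hG : NL E.toFinset) (hV : ends E.toFinset ⊆ V) :
    (zs lam y V E).prod = Z lam y E.toFinset := by
  induction E with
  | nil => simp [zs, Z_empty]
  | cons e E ih =>
    obtain ⟨he, hn'⟩ := List.nodup_cons.mp hn
    have hsub : E.toFinset ⊆ (e :: E).toFinset := by
      intro f hf
      rw [List.mem_toFinset] at hf ⊢
      exact List.mem_cons_of_mem _ hf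
    have heG : e ∈ (e :: E).toFinset := by simp
    have her : (e :: E).toFinset.erase e = E.toFinset := by
      rw [List.toFinset_cons]
      exact Finset.erase_insert (by rwa [List.mem_toFinset])
    have h1 := Z_erase hl hy0 hy1 hG hV heG (v := e.2.1) (u := e.2.2) (Or.inl ⟨rfl, rfl⟩)
    rw [her] at h1
    have h2 := ih hn' (hG.mono hsub) (fun w hw => hV (ends_mono hsub hw))
    rw [h1, ← h2, zs, List.prod_cons, mul_comm]

theorem denom_pos {P : Par} (hP : P.Ok) {k : ℕ} (hk : 0 < k) (E : List Ed) :
    0 < denom P k E := by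
  obtain ⟨h1, h2, h3, h4, h5⟩ := hP
  have h6 : 0 < P.a - P.c := by omega
  have h7 : 0 < P.y2 := by omega
  unfold denom
  positivity

theorem numer_eq {P : Par} (hP : P.Ok) {k : ℕ} (hk : 0 < k) (L : ℕ) (E : List Ed)
    (l : List Bool) :
    (numer P k L E l : ℚ) / denom P k E = prodB (k * (L * P.b)) (facs P k L E) l := by
  have hP' := hP
  obtain ⟨h1, h2, h3, h4, h5⟩ := hP'
  have h6 : 0 < P.a - P.c := by omega
  have h6' : (0 : ℚ) < (P.a : ℚ) - P.c := by
    have : (P.c : ℚ) < P.a := by exact_mod_cast h2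
    linarith
  have h7 : 0 < P.y2 := by omega
  have h7' : (0 : ℚ) < P.y2 := by exact_mod_cast h7
  have hk' : (0 : ℚ) < k := by exact_mod_cast hk
  have hc : ((P.a - P.c : ℕ) : ℚ) = (P.a : ℚ) - P.c := by
    rw [Nat.cast_sub h2.le]
  induction E generalizing l with
  | nil => simp [numer, denom, facs, prodB]
  | cons e E ih =>
    have ih' := ih (l.drop (k * (L * P.b)))
    have hd : (denom P k (e :: E) : ℚ) =
        (((P.a : ℚ) - P.c) * k * P.y2 ^ P.D) * denom P k E := by
      unfold denom
      rw [List.length_cons, pow_succ]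
      push_cast [hc]
      ring
    have hd0 : (denom P k E : ℚ) ≠ 0 := by
      have := denom_pos hP hk E
      positivity
    rw [numer, hd, facs, prodB, ← ih']
    push_cast [hc]
    unfold Par.lam
    field_simp

end Pool.Agent.TFP
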