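import Pool.Agent.TFP.Avg

set_option autoImplicit false

/-!
# TFP-ProdE: the product of independent estimators (abstract)
-/

namespace Pool.Agent.TFP

open Finset

private theorem peA {n m : ℕ} {F G : List Bool → ℚ} : 
    avg (n + m) (fun l => F (l.take n) * G (l.drop n)) = avg n F * avg m G := by
  rw [avg_take_drop n m (fun a b => F a * G b)]
  simp only [avg_smul]
  have : (fun l => F l * avg m G) = fun l => avg m G * F l := by
    funext l; ring
  rw [this, avg_smul]; ring

private theorem peMean (n : ℕ) (fs : List (List Bool → ℚ)) :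
    avg (fs.length * n) (prodB n fs) = (fs.map (avg n)).prod := by
  induction fs with
  | nil => simp [prodB, avg]
  | cons f fs ih =>
    rw [List.length_cons, List.map_cons, List.prod_cons, ← ih,
      show (fs.length + 1) * n = n + fs.length * n by ring]
    exact peA

private theorem peSq (n : ℕ) (fs : List (List Bool → ℚ)) :
    avg (fs.length * n) (fun l => prodB n fs l ^ 2) =
      (fs.map (fun f => avg n (fun l => f l ^ 2))).prod := by
  induction fs with
  | nil => simp [prodB, avg]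
  | cons f fs ih =>
    rw [List.length_cons, List.map_cons, List.prod_cons, ← ih,
      show (fs.length + 1) * n = n + fs.length * n by ring]
    have : (fun l => prodB n (f :: fs) l ^ 2) =
        fun l => (f (l.take n)) ^ 2 * (prodB n fs (l.drop n)) ^ 2 := by
      funext l
      rw [prodB, mul_pow]
    rw [this]
    exact peA (F := fun l => f l ^ 2) (G := fun l => prodB n fs l ^ 2)

private theorem peBounds (n : ℕ) (δ ε : ℚ) (hδ0 : 0 ≤ δ) (hδ1 : δ < 1) (hε : 0 ≤ ε)
    (fs : List (List Bool → ℚ)) (zz : List ℚ)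
    (h : List.Forall₂ (fun f z => 1 ≤ z ∧ z * (1 - δ) ≤ avg n f ∧ avg n f ≤ z ∧
      avg n (fun l => f l ^ 2) ≤ avg n f ^ 2 * (1 + ε)) fs zz) :
    0 < zz.prod ∧ 0 < (fs.map (avg n)).prod ∧
    zz.prod * (1 - δ) ^ fs.length ≤ (fs.map (avg n)).prod ∧ (fs.map (avg n)).prod ≤ zz.prod ∧
    (fs.map (fun f => avg n (fun l => f l ^ 2))).prod ≤
      (fs.map (avg n)).prod ^ 2 * (1 + ε) ^ fs.length ∧
    0 ≤ (fs.map (fun f => avg n (fun l => f l ^ 2))).prod := by
  induction h with
  | nil => simp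
  | @cons f z fs zz hfz _ ih =>
    obtain ⟨h1, h2, h3, h4⟩ := hfz
    obtain ⟨i1, i2, i3, i4, i5, i6⟩ := ih
    have hd : 0 < 1 - δ := by linarith
    have hz : 0 < z := by linarith
    have hf : 0 < avg n f := lt_of_lt_of_le (mul_pos hz hd) h2
    have hf2 : 0 ≤ avg n (fun l => f l ^ 2) := by
      have := avg_mono (n := n) (F := fun _ => 0) (H := fun l => f l ^ 2) (fun l _ => sq_nonneg _)
      rwa [avg_const] at this
    simp only [List.map_cons, List.prod_cons, List.length_cons]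
    refine ⟨mul_pos hz i1, mul_pos hf i2, ?_, ?_, ?_, mul_nonneg hf2 i6⟩
    · calc z * zz.prod * (1 - δ) ^ (fs.length + 1)
          = (z * (1 - δ)) * (zz.prod * (1 - δ) ^ fs.length) := by ring
        _ ≤ avg n f * (fs.map (avg n)).prod :=
          mul_le_mul h2 i3 (by positivity) hf.le
    · exact mul_le_mul h3 i4 i2.le hz.le
    · calc avg n (fun l => f l ^ 2) * (fs.map (fun f => avg n (fun l => f l ^ 2))).prod
          ≤ (avg n f ^ 2 * (1 + ε)) * ((fs.map (avg n)).prod ^ 2 * (1 + ε) ^ fs.length) :=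
          mul_le_mul h4 i5 i6 (by positivity)
        _ = _ := by ring

private theorem pePow (ε : ℚ) (hε : 0 ≤ ε) (m : ℕ) (h : 2 * (m : ℚ) * ε ≤ 1) (j : ℕ) (hj : j ≤ m) :
    (1 + ε) ^ j ≤ 1 + 2 * j * ε := by
  induction j with
  | zero => simp
  | succ j ih =>
    have h1 := ih (by omega)
    have hj' : (j : ℚ) ≤ m := by exact_mod_cast (by omega : j ≤ m)
    have h2 : 2 * (j : ℚ) * ε ≤ 1 := by
      have : (j : ℚ) * ε ≤ m * ε := mul_le_mul_of_nonneg_right hj' hε
      linarith
    rw [pow_succ]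
    calc (1 + ε) ^ j * (1 + ε) ≤ (1 + 2 * j * ε) * (1 + ε) :=
          mul_le_mul_of_nonneg_right h1 (by linarith)
      _ ≤ 1 + 2 * ((j + 1 : ℕ) : ℚ) * ε := by
          push_cast
          nlinarith

theorem prod_good (n : ℕ) (fs : List (List Bool → ℚ)) (zz : List ℚ) (δ ε η : ℚ)
    (h : List.Forall₂ (fun f z => 1 ≤ z ∧ z * (1 - δ) ≤ avg n f ∧ avg n f ≤ z ∧
      avg n (fun l => f l ^ 2) ≤ avg n f ^ 2 * (1 + ε)) fs zz)
    (hδ0 : 0 ≤ δ) (hδ1 : δ < 1) (hε : 0 ≤ ε) (hη : 0 < η) (hη1 : η ≤ 1)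
    (h1 : fs.length * δ ≤ η) (h2 : 8 * fs.length * ε ≤ η ^ 2) :
    3 / 4 ≤ avg (fs.length * n)
      (fun l => if |prodB n fs l - zz.prod| ≤ 2 * η * zz.prod then 1 else 0) := by
  obtain ⟨b1, b2, b3, b4, b5, b6⟩ := peBounds n δ ε hδ0 hδ1 hε fs zz h
  set M := (fs.map (avg n)).prod with hM
  set Zt := zz.prod with hZ
  have hη2 : η ^ 2 ≤ 1 := by nlinarith
  have hm : 2 * (fs.length : ℚ) * ε ≤ 1 := by
    have : 0 ≤ (fs.length : ℚ) * ε := by positivity
    linarith
  have c1 := pePow ε hε fs.length hm fs.length le_rfl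
  have c2 : 1 - η ≤ (1 - δ) ^ fs.length := by
    have := one_add_mul_le_pow (a := -δ) (by linarith) fs.length
    calc 1 - η ≤ 1 + (fs.length : ℚ) * (-δ) := by linarith
      _ ≤ (1 + -δ) ^ fs.length := this
      _ = _ := by rw [← sub_eq_add_neg]
  have c3 : Zt * (1 - η) ≤ M := (mul_le_mul_of_nonneg_left c2 b1.le).trans b3
  have c4 : avg (fs.length * n) (fun l => (prodB n fs l - M) ^ 2) ≤ η ^ 2 / 4 * M ^ 2 := by
    have e1 : (fun l => (prodB n fs l - M) ^ 2) =
        fun l => (prodB n fs l ^ 2 - (2 * M) * prodB n fs l) + M ^ 2 := by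
      funext l; ring
    rw [e1, avg_add, avg_sub, avg_smul, avg_const, peSq, peMean, ← hM]
    have e2 : (fs.map (fun f => avg n (fun l => f l ^ 2))).prod ≤ M ^ 2 * (1 + 2 * fs.length * ε) :=
      b5.trans (mul_le_mul_of_nonneg_left c1 (sq_nonneg _))
    have e3 : M ^ 2 * (2 * fs.length * ε) ≤ M ^ 2 * (η ^ 2 / 4) :=
      mul_le_mul_of_nonneg_left (by linarith) (sq_nonneg _)
    nlinarith
  have hηM : 0 < η * M := mul_pos hη b2
  have c5 : avg (fs.length * n) (fun l => 1 - (prodB n fs l - M) ^ 2 / (η * M) ^ 2) ≥ 3 / 4 := by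
    have e1 : (fun l => 1 - (prodB n fs l - M) ^ 2 / (η * M) ^ 2) =
        fun l => 1 - (1 / (η * M) ^ 2) * (prodB n fs l - M) ^ 2 := by
      funext l; ring
    rw [e1, avg_sub (fs.length * n) (fun _ => 1), avg_const, avg_smul]
    have e2 : (1 / (η * M) ^ 2) * avg (fs.length * n) (fun l => (prodB n fs l - M) ^ 2) ≤
        (1 / (η * M) ^ 2) * (η ^ 2 / 4 * M ^ 2) :=
      mul_le_mul_of_nonneg_left c4 (by positivity)
    have e3 : (1 / (η * M) ^ 2) * (η ^ 2 / 4 * M ^ 2) = 1 / 4 := by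
      have : M ≠ 0 := b2.ne'
      field_simp
    rw [e3] at e2
    linarith
  refine le_trans c5 (avg_mono (fun l _ => ?_))
  split_ifs with hc
  · have : 0 ≤ (prodB n fs l - M) ^ 2 / (η * M) ^ 2 := by positivity
    linarith
  · have d1 : η * M < |prodB n fs l - M| := by
      by_contra hcon
      push Not at hcon
      apply hc
      have d2 : |M - Zt| ≤ η * Zt := by
        rw [abs_le]
        constructor <;> nlinarith
      have d3 : η * M ≤ η * Zt := mul_le_mul_of_nonneg_left b4 hη.le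
      calc |prodB n fs l - Zt| = |(prodB n fs l - M) + (M - Zt)| := by congr 1; ring
        _ ≤ |prodB n fs l - M| + |M - Zt| := abs_add_le _ _
        _ ≤ 2 * η * Zt := by linarith
    have d4 : (η * M) ^ 2 ≤ (prodB n fs l - M) ^ 2 := by
      rw [← sq_abs (prodB n fs l - M)]
      exact pow_le_pow_left₀ hηM.le d1.le 2
    have d5 : 1 ≤ (prodB n fs l - M) ^ 2 / (η * M) ^ 2 := by
      rw [le_div_iff₀ (by positivity)]
      linarith
    linarith

end Pool.Agent.TFP
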