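import Pool.Agent.TFP.FacA
import Pool.Agent.TFP.ProdE
import Pool.Agent.TFP.NumR

set_option autoImplicit false

/-!
# TFP-EstG: the estimator of `Z` is good with probability at least 3/4

Plan. `prod_good` with `fs = facs P k L E`, `zz = zs .. E` (`facs_good`), `n = k * (L * b)`, `δ = lam * (2^b (1 + B D) / L)`,
`ε = lam² / k`; `(facs P k L E).length = E.length` (induction); `numer_eq`, `zs_prod` (`Cl` gives `NL`, `ends ⊆ V`).
-/

namespace Pool.Agent.TFP

open Finset

private theorem length_facs (P : Par) (k L : ℕ) (E : List Ed) :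
    (facs P k L E).length = E.length := by
  induction E with
  | nil => rfl
  | cons e E ih => rw [facs, List.length_cons, ih, List.length_cons]

theorem est_good {P : Par} (hP : P.Ok) {V : Finset ℕ} {θ0 : ℚ} {B : ℚ} (hB0 : 0 ≤ B)
    (hB : 1 + 3 * (P.lam / (1 + P.lam)) ≤
      B * (1 - P.lam / (1 + P.lam) * P.D + P.lam / (1 + P.lam) * θ0)) {k L : ℕ} (hk : 0 < k)
    (hL : 0 < L) {E : List Ed} (hn : E.Nodup) (hC : Cl V P.D P.lam P.y θ0 E.toFinset)
    {η : ℚ} (hη : 0 < η) (hη1 : η ≤ 1)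
    (h0 : P.lam * (2 ^ P.b * (1 + B * P.D) / L) < 1)
    (h1 : E.length * (P.lam * (2 ^ P.b * (1 + B * P.D) / L)) ≤ η)
    (h2 : 8 * E.length * (P.lam ^ 2 / k) ≤ η ^ 2) :
    3 / 4 ≤ avg (E.length * (k * (L * P.b)))
      (fun l => if |(numer P k L E l : ℚ) / denom P k E - Z P.lam P.y E.toFinset| ≤
        2 * η * Z P.lam P.y E.toFinset then 1 else 0) := by
  obtain ⟨hl, hy0, hy1, -, -⟩ := Par.facts hP
  have hf := facs_good hP hB0 hB hk hL hn hC
  have hlen := length_facs P k L E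
  have key := prod_good (k * (L * P.b)) (facs P k L E) (zs P.lam P.y V E)
    (P.lam * (2 ^ P.b * (1 + B * P.D) / L)) (P.lam ^ 2 / k) η hf (by positivity) h0
    (by positivity) hη hη1 (by rw [hlen]; exact h1) (by rw [hlen]; exact h2)
  rw [hlen, zs_prod hl hy0 hy1 hn hC.1 hC.2.1] at key
  simp only [numer_eq hP hk]
  exact key

end Pool.Agent.TFP
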