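import Pool.Agent.TFP.TrialA
import Pool.Agent.TFP.SumA

set_option autoImplicit false

/-!
# TFP-FacA: mean and second moment of one estimated factor

Plan. `f l = 1 + c' * sumT .. l`, `c' = lam / (k * y2^D)`, `W = y2^D`, `τ = avg trial / y2^D`, `0 ≤ θ ≤ 1` (`th_nonneg`),
`z = 1 + lam θ ≥ 1`, `δ0 = 2^b (1 + B D) / L`.
`avg f = 1 + lam τ` (`sum_mean`), `θ - δ0 ≤ τ ≤ θ` (`trial_mean`), so `z (1 - lam δ0) ≤ z - lam δ0 ≤ avg f ≤ z`.
`avg f² = 1 + 2 lam τ + c'² avg sumT² ≤ 1 + 2 lam τ + lam² τ² + lam² / k ≤ (avg f)² (1 + lam² / k)` (`sum_sq`, `avg f ≥ 1` since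
`τ ≥ 0`).
The list version by induction on `E` (`Cl.mono`, `List.nodup_cons`).
-/

namespace Pool.Agent.TFP

open Finset

private theorem fa_num {lam θ τ δ z : ℚ} (hl : 0 < lam) (hθ : 0 ≤ θ) (hδ : 0 ≤ δ) (hz : z = 1 + lam * θ)
    (h1 : θ - δ ≤ τ) (h2 : τ ≤ θ) (h0 : 0 ≤ τ) (k : ℕ) {F : ℚ}
    (hF : F ≤ 1 + 2 * (lam * τ) + (lam ^ 2 * τ ^ 2 + lam ^ 2 / k)) :
    1 ≤ z ∧ z * (1 - lam * δ) ≤ 1 + lam * τ ∧ 1 + lam * τ ≤ z ∧
      F ≤ (1 + lam * τ) ^ 2 * (1 + lam ^ 2 / k) := by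
  have hz1 : 1 ≤ z := by
    have := mul_nonneg hl.le hθ
    linarith
  have hk0 : (0 : ℚ) ≤ lam ^ 2 / k := div_nonneg (sq_nonneg _) (Nat.cast_nonneg _)
  refine ⟨hz1, ?_, ?_, ?_⟩
  · have h3 : 0 ≤ (z - 1) * (lam * δ) := mul_nonneg (by linarith) (mul_nonneg hl.le hδ)
    have h4 : lam * (θ - δ) ≤ lam * τ := mul_le_mul_of_nonneg_left h1 hl.le
    have h5 : lam * (θ - δ) = lam * θ - lam * δ := by ring
    have h6 : z * (1 - lam * δ) = z - lam * δ - (z - 1) * (lam * δ) := by ring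
    rw [h6]
    linarith
  · have h4 : lam * τ ≤ lam * θ := mul_le_mul_of_nonneg_left h2 hl.le
    linarith
  · have h7 : 0 ≤ lam * τ := mul_nonneg hl.le h0
    have h8 : 1 ≤ (1 + lam * τ) ^ 2 := by
      have h9 : 0 ≤ (lam * τ) ^ 2 := sq_nonneg _
      have h10 : (1 + lam * τ) ^ 2 = 1 + 2 * (lam * τ) + (lam * τ) ^ 2 := by ring
      rw [h10]
      linarith
    have h11 : 0 ≤ ((1 + lam * τ) ^ 2 - 1) * (lam ^ 2 / k) := mul_nonneg (by linarith) hk0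
    have h12 : (1 + lam * τ) ^ 2 * (1 + lam ^ 2 / k) =
        1 + 2 * (lam * τ) + (lam ^ 2 * τ ^ 2 + lam ^ 2 / k) +
          ((1 + lam * τ) ^ 2 - 1) * (lam ^ 2 / k) := by ring
    rw [h12]
    linarith

private theorem fa_mean (P : Par) {k : ℕ} (hk : 0 < k) (hy2 : (P.y2 : ℚ) ^ P.D ≠ 0) (L : ℕ) (e : Ed)
    (E : List Ed) :
    avg (k * (L * P.b)) (fun l => 1 + P.lam / (k * P.y2 ^ P.D) * sumT P L e E k l) =
      1 + P.lam * (avg (L * P.b) (fun l => (trial P L e E l : ℚ)) / P.y2 ^ P.D) := by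
  have hk' : (k : ℚ) ≠ 0 := by exact_mod_cast hk.ne'
  rw [avg_add (k * (L * P.b)) (fun _ => 1)
      (fun l => P.lam / (k * P.y2 ^ P.D) * (sumT P L e E k l : ℚ)), avg_const,
    avg_smul (k * (L * P.b)) (P.lam / (k * P.y2 ^ P.D)) (fun l => (sumT P L e E k l : ℚ)),
    sum_mean]
  field_simp

private theorem fa_sq (P : Par) {k : ℕ} (hk : 0 < k) (hy2 : (P.y2 : ℚ) ^ P.D ≠ 0) (L : ℕ) (e : Ed)
    (E : List Ed) (hW : ∀ l, trial P L e E l ≤ P.y2 ^ P.D) :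
    avg (k * (L * P.b)) (fun l => (1 + P.lam / (k * P.y2 ^ P.D) * sumT P L e E k l) ^ 2) ≤
      1 + 2 * (P.lam * (avg (L * P.b) (fun l => (trial P L e E l : ℚ)) / P.y2 ^ P.D)) +
        (P.lam ^ 2 * (avg (L * P.b) (fun l => (trial P L e E l : ℚ)) / P.y2 ^ P.D) ^ 2 +
          P.lam ^ 2 / k) := by
  have hk' : (k : ℚ) ≠ 0 := by exact_mod_cast hk.ne'
  have h1 : (fun l => (1 + P.lam / (k * P.y2 ^ P.D) * (sumT P L e E k l : ℚ)) ^ 2) = fun l =>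
      (fun l => (fun _ : List Bool => (1 : ℚ)) l +
        (fun l => 2 * (P.lam / (k * P.y2 ^ P.D)) * (sumT P L e E k l : ℚ)) l) l +
        (fun l => (P.lam / (k * P.y2 ^ P.D)) ^ 2 * (sumT P L e E k l : ℚ) ^ 2) l := by
    funext l
    simp only []
    ring
  rw [h1, avg_add (k * (L * P.b)), avg_add (k * (L * P.b)), avg_const,
    avg_smul (k * (L * P.b)) (2 * (P.lam / (k * P.y2 ^ P.D))) (fun l => (sumT P L e E k l : ℚ)),
    avg_smul (k * (L * P.b)) ((P.lam / (k * P.y2 ^ P.D)) ^ 2)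
      (fun l => (sumT P L e E k l : ℚ) ^ 2), sum_mean]
  have h2 := mul_le_mul_of_nonneg_left (sum_sq P L e E k (P.y2 ^ P.D) hW)
    (sq_nonneg (P.lam / (k * (P.y2 : ℚ) ^ P.D)))
  generalize avg (L * P.b) (fun l => (trial P L e E l : ℚ)) = A at h2 ⊢
  generalize avg (k * (L * P.b)) (fun l => (sumT P L e E k l : ℚ) ^ 2) = S at h2 ⊢
  push_cast at h2
  generalize (P.y2 : ℚ) ^ P.D = W at h2 hy2 ⊢
  have h3 : (P.lam / (k * W)) ^ 2 * ((k * A) ^ 2 + k * W ^ 2) =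
      P.lam ^ 2 * (A / W) ^ 2 + P.lam ^ 2 / k := by
    field_simp
  have h4 : 2 * (P.lam / (k * W)) * (k * A) = 2 * (P.lam * (A / W)) := by
    field_simp
  rw [h4]
  rw [h3] at h2
  linarith

theorem facs_good {P : Par} (hP : P.Ok) {V : Finset ℕ} {θ0 : ℚ} {B : ℚ} (hB0 : 0 ≤ B)
    (hB : 1 + 3 * (P.lam / (1 + P.lam)) ≤
      B * (1 - P.lam / (1 + P.lam) * P.D + P.lam / (1 + P.lam) * θ0)) {k L : ℕ} (hk : 0 < k)
    (hL : 0 < L) {E : List Ed} (hn : E.Nodup) (hC : Cl V P.D P.lam P.y θ0 E.toFinset) :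
    List.Forall₂ (fun f z => 1 ≤ z ∧
      z * (1 - P.lam * (2 ^ P.b * (1 + B * P.D) / L)) ≤ avg (k * (L * P.b)) f ∧
      avg (k * (L * P.b)) f ≤ z ∧
      avg (k * (L * P.b)) (fun l => f l ^ 2) ≤
        avg (k * (L * P.b)) f ^ 2 * (1 + P.lam ^ 2 / k)) (facs P k L E) (zs P.lam P.y V E) := by
  obtain ⟨hl, hy0, hy1, _, _⟩ := Par.facts hP
  have hy2 : (P.y2 : ℚ) ^ P.D ≠ 0 := by
    have h2 : 0 < P.y2 := lt_of_le_of_lt (Nat.zero_le _) hP.2.2.1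
    exact pow_ne_zero _ (by exact_mod_cast h2.ne')
  have hW0 : (0 : ℚ) ≤ (P.y2 : ℚ) ^ P.D := pow_nonneg (Nat.cast_nonneg _) _
  have hδ : (0 : ℚ) ≤ 2 ^ P.b * (1 + B * P.D) / L :=
    div_nonneg (mul_nonneg (by positivity)
      (add_nonneg zero_le_one (mul_nonneg hB0 (Nat.cast_nonneg _)))) (Nat.cast_nonneg _)
  induction E with
  | nil => exact List.Forall₂.nil
  | cons e E ih =>
    have hsub : E.toFinset ⊆ (e :: E).toFinset := by
      intro f hf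
      rw [List.mem_toFinset] at hf ⊢
      exact List.mem_cons_of_mem _ hf
    have hnE : E.Nodup := (List.nodup_cons.1 hn).2
    refine List.Forall₂.cons ?_ (ih hnE (hC.mono hsub))
    have hNL : NL E.toFinset := hC.1.mono hsub
    have hθ := th_nonneg hl hy0 hy1 hNL V e.2.2 e.2.1
    obtain ⟨h1, h2⟩ := trial_mean hP hB0 hB hL hn hC
    have h0 : 0 ≤ avg (L * P.b) (fun l => (trial P L e E l : ℚ)) / P.y2 ^ P.D := by
      refine div_nonneg ?_ hW0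
      have h3 := avg_mono (n := L * P.b) (F := fun _ => (0 : ℚ))
        (H := fun l => (trial P L e E l : ℚ)) (fun l _ => Nat.cast_nonneg _)
      rwa [avg_const] at h3
    have hF := fa_sq P hk hy2 L e E (fun l => trial_le hP L e E l)
    have h4 := fa_num hl hθ hδ rfl h1 h2 h0 k hF
    rw [← fa_mean P hk hy2 L e E] at h4
    exact h4

end Pool.Agent.TFP
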