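import Pool.Agent.TFP.FpT

set_option autoImplicit false

/-!
# TFP-FpN: numerator and denominator of the estimator are polynomial time computable

A loop over the list of the edges; the accumulator gains a bounded factor times the number of
trials in every step.
-/

namespace Pool.Agent.TFP

open Turing Function N487b59b3 N68a2faeb Pool.Agent.Helper22 Pool.Agent.Helper6.WB Computability
  Pool.Agent.Helper47.TR

section

variable {α : Type} [N487b59b3 α]

/-- the number of random bits of one factor, in unary -/
private def fpnW (P : Par) (k L : List Bool) : List Bool :=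
  un (k.length * (un (L.length * (List.replicate P.b true).length)).length)

omit [N487b59b3 α] in
private theorem fpnW_length (P : Par) (k L : List Bool) :
    (fpnW P k L).length = k.length * (L.length * P.b) := by
  simp [fpnW]

/-- the factor of an edge -/
private def fpnF (P : Par) (k L : List Bool) (e : Ed) (E : List Ed) (l : List Bool) : ℕ :=
  (P.a - P.c) * k.length * P.y2 ^ P.D + P.c * TFP.sumT P L.length e E k.length l

private abbrev FpnS : Type := (List Bool × List Bool) × (List Ed × (List Bool × ℕ))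

/-- one step of the loop -/
private def fpnStep (P : Par) (s : FpnS) : FpnS :=
  (s.1, (s.2.1.tail, (s.2.2.1.drop (fpnW P s.1.1 s.1.2).length,
    s.2.2.2 * fpnF P s.1.1 s.1.2 (s.2.1.headD (0, (0, 0))) s.2.1.tail
      (s.2.2.1.take (fpnW P s.1.1 s.1.2).length))))

private theorem fpnW_fp (P : Par) {k L : α → List Bool} (hk : FP k) (hL : FP L) :
    FP fun a => fpnW P (k a) (L a) :=
  FP.unMul hk (FP.unMul hL (FP.const (List.replicate P.b true)))

private theorem fpnF_fp (P : Par) {k L l : α → List Bool} {e : α → Ed} {E : α → List Ed}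
    (hk : FP k) (hL : FP L) (he : FP e) (hE : FP E) (hl : FP l) :
    FP fun a => fpnF P (k a) (L a) (e a) (E a) (l a) :=
  FP.natAdd (FP.natMul (FP.natMul (FP.const (P.a - P.c)) (FP.length hk)) (FP.const (P.y2 ^ P.D)))
    (FP.natMul (FP.const P.c) (FP.sumT P hL hk he hE hl))

private theorem fpnStep_fp (P : Par) : FP (fpnStep P) := by
  have hk : FP fun s : FpnS => s.1.1 := by fun_prop
  have hL : FP fun s : FpnS => s.1.2 := by fun_prop
  have hr : FP fun s : FpnS => s.2.1 := by fun_prop
  have hl : FP fun s : FpnS => s.2.2.1 := by fun_prop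
  have hacc : FP fun s : FpnS => s.2.2.2 := by fun_prop
  have hW := fpnW_fp P hk hL
  have h1 : FP fun s : FpnS => s.1 := by fun_prop
  exact FP.pair h1 (FP.pair (FP.tail hr) (FP.pair (FP.drop hl hW)
    (FP.natMul hacc (fpnF_fp P hk hL (FP.headD hr _) (FP.tail hr) (FP.take hl hW)))))

private def fpnM (P : Par) : ℕ := (P.a - P.c) * P.y2 ^ P.D + P.c * (P.y1 + P.y2 + 1) ^ P.D

omit [N487b59b3 α] in
private theorem fpnF_le (P : Par) (k L : List Bool) (e : Ed) (E : List Ed) (l : List Bool) :
    fpnF P k L e E l ≤ k.length * fpnM P := by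
  have h := sumT_le P L.length e E k.length l
  have h2 := Nat.mul_le_mul_left P.c h
  unfold fpnF fpnM
  calc (P.a - P.c) * k.length * P.y2 ^ P.D + P.c * TFP.sumT P L.length e E k.length l
      ≤ (P.a - P.c) * k.length * P.y2 ^ P.D +
        P.c * (k.length * (P.y1 + P.y2 + 1) ^ P.D) := Nat.add_le_add_left h2 _
    _ = k.length * ((P.a - P.c) * P.y2 ^ P.D + P.c * (P.y1 + P.y2 + 1) ^ P.D) := by ring

private theorem fpn_size_le (n : ℕ) : Nat.size n ≤ n := by
  rw [Nat.size_le]
  exact Nat.lt_two_pow_self

omit [N487b59b3 α] in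
private theorem fpn_iter (P : Par) (i : ℕ) (s : FpnS) :
    ∃ (l' : List Bool) (acc' : ℕ), (fpnStep P)^[i] s = (s.1, (s.2.1.drop i, (l', acc'))) ∧
      l'.length ≤ s.2.2.1.length ∧
      Nat.size acc' ≤ Nat.size s.2.2.2 + i * (s.1.1.length + fpnM P) := by
  induction i with
  | zero => exact ⟨s.2.2.1, s.2.2.2, by simp, le_rfl, by simp⟩
  | succ i ih =>
    obtain ⟨l', acc', h1, h2, h3⟩ := ih
    refine ⟨l'.drop (fpnW P s.1.1 s.1.2).length, acc' * fpnF P s.1.1 s.1.2
      ((s.2.1.drop i).headD (0, (0, 0))) (s.2.1.drop i).tail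
      (l'.take (fpnW P s.1.1 s.1.2).length), ?_, ?_, ?_⟩
    · rw [Function.iterate_succ_apply', h1]
      unfold fpnStep
      simp only [List.tail_drop]
    · rw [List.length_drop]
      omega
    · refine (Pool.Agent.Helper47.TR.size_mul_le _ _).trans ?_
      have h4 := Nat.size_le_size (fpnF_le P s.1.1 s.1.2 ((s.2.1.drop i).headD (0, (0, 0)))
        (s.2.1.drop i).tail (l'.take (fpnW P s.1.1 s.1.2).length))
      have h5 := Pool.Agent.Helper47.TR.size_mul_le s.1.1.length (fpnM P)
      have h6 := fpn_size_le s.1.1.length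
      have h7 := fpn_size_le (fpnM P)
      have h8 : (i + 1) * (s.1.1.length + fpnM P) =
        i * (s.1.1.length + fpnM P) + (s.1.1.length + fpnM P) := by ring
      omega

omit [N487b59b3 α] in
private theorem fpn_run (P : Par) (k L : List Bool) (E : List Ed) : ∀ (l : List Bool) (acc : ℕ),
    ((fpnStep P)^[E.length] ((k, L), (E, (l, acc)))).2.2.2 =
      acc * TFP.numer P k.length L.length E l := by
  induction E with
  | nil =>
    intro l acc
    simp [TFP.numer]
  | cons e E ih =>
    intro l acc
    rw [List.length_cons, Function.iterate_succ_apply]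
    have h1 : fpnStep P ((k, L), (e :: E, (l, acc))) = ((k, L), (E,
        (l.drop (k.length * (L.length * P.b)),
          acc * fpnF P k L e E (l.take (k.length * (L.length * P.b)))))) := by
      unfold fpnStep
      simp only [fpnW_length, List.tail_cons, List.headD_cons]
    rw [h1, ih, TFP.numer, mul_assoc]
    rfl

theorem FP.numer (P : Par) {k L l : α → List Bool} {E : α → List Ed} (hk : FP k) (hL : FP L)
    (hE : FP E) (hl : FP l) :
    FP fun a => TFP.numer P (k a).length (L a).length (E a) (l a) := by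
  have h1 : FP fun p : List Ed × FpnS => (fpnStep P)^[p.1.length] p.2 := by
    refine FP.iterate (fpnStep_fp P) (B := fun n => n + n * (n + fpnM P)) (by fun_prop) ?_
    intro lst s i hi
    obtain ⟨l', acc', h2, h3, h4⟩ := fpn_iter P i s
    rw [h2]
    have h5 := sz_drop s.2.1 i
    have h6 : sz s = 2 * sz s.1 + 1 + (2 * sz s.2.1 + 1 + (2 * sz s.2.2.1 + 1 + sz s.2.2.2)) := by
      obtain ⟨s1, s2, s3, s4⟩ := s
      simp only [sz_pair]
    have h7 : i ≤ sz lst + sz s := by
      have := length_le_sz lst
      omega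
    have h8 : s.1.1.length + fpnM P ≤ sz lst + sz s + fpnM P := by
      have h9 : sz s.1 = 2 * sz s.1.1 + 1 + sz s.1.2 := by
        obtain ⟨⟨s1, s1'⟩, s2⟩ := s
        simp only [sz_pair]
      have := length_le_sz s.1.1
      omega
    have h9 := Nat.mul_le_mul h7 h8
    have h10 : sz l' ≤ sz s.2.2.1 := by
      rw [sz_bits, sz_bits]
      omega
    rw [sz_nat] at h6
    have h11 := sz_pair s.1 (s.2.1.drop i, (l', acc'))
    have h12 := sz_pair (s.2.1.drop i) (l', acc')
    have h13 := sz_pair l' acc'
    rw [sz_nat] at h13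
    show _ ≤ sz lst + sz s + (sz lst + sz s) * (sz lst + sz s + fpnM P)
    omega
  have h2 := h1.comp (hE.pair (FP.pair (FP.pair hk hL) (FP.pair hE (FP.pair hl (FP.const 1)))))
  have h3 := h2.snd'.snd'.snd'
  refine (congrArg FP (funext fun a => ?_)).mp h3
  show ((fpnStep P)^[(E a).length] ((k a, L a), (E a, (l a, 1)))).2.2.2 = _
  rw [fpn_run, one_mul]

theorem FP.denom (P : Par) {k : α → List Bool} {E : α → List Ed} (hk : FP k) (hE : FP E) :
    FP fun a => TFP.denom P (k a).length (E a) :=
  FP.powU (FP.natMul (FP.natMul (FP.const (P.a - P.c)) (FP.length hk)) (FP.const (P.y2 ^ P.D))) hE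

end

end Pool.Agent.TFP
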