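import Pool.Agent.TFP.FpS
import Pool.Agent.TFP.SzS

set_option autoImplicit false

/-!
# TFP-FpR: `L` steps of the machine, one trial

Plan. `rstep P` is `FP` (`FP.drop`, `FP.take` with the constant list `List.replicate P.b true`, `FP.val`, `FP.stepM`);
`FP.iterate` with the bound `B n = 1000 * (n + 1)^3` from `sz_rstep` (`i ≤ l.length ≤ sz l`, `length_le_sz`); `runM_eq`.
`FP.trial`: `pay` is an `FP.ite`; `isT`, `FP.isEmpty`, `FP.contains`, `FP.jjpow`, `FP.jjpow'`, `FP.natMul`.
-/

namespace Pool.Agent.TFP

open Turing Function N487b59b3 N68a2faeb Pool.Agent.Helper22 Pool.Agent.Helper6.WB Computability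
  Pool.Agent.Helper47.TR

section

variable {α : Type} [N487b59b3 α]

private theorem rstepFP (P : Par) : FP (TFP.rstep P) := by
  have h1 : FP fun p : List Bool × St => p.1.drop (List.replicate P.b true).length :=
    FP.drop (by fun_prop) (FP.const _)
  have h2 : FP fun p : List Bool × St => p.1.take (List.replicate P.b true).length :=
    FP.take (by fun_prop) (FP.const _)
  simp only [List.length_replicate] at h1 h2
  exact h1.pair ((FP.stepM P).comp (FP.pair (FP.val h2) FP.snd))

theorem FP.runM (P : Par) {L l : α → List Bool} {s : α → St} (hL : FP L) (hl : FP l)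
    (hs : FP s) : FP fun a => TFP.runM P (L a).length (l a) (s a) := by
  have h : FP fun p : List Bool × (List Bool × St) => (TFP.rstep P)^[p.1.length] p.2 := by
    refine FP.iterate (rstepFP P) (B := fun n => 1000 * ((n + 1) * (n + 1) * (n + 1)))
      (by fun_prop) ?_
    intro l a i hi
    refine (sz_rstep P a i).trans ?_
    have h1 := length_le_sz l
    have h2 : i + sz a + 1 ≤ sz l + sz a + 1 := by omega
    have h3 := Nat.pow_le_pow_left h2 3
    calc 1000 * (i + sz a + 1) ^ 3 ≤ 1000 * (sz l + sz a + 1) ^ 3 := Nat.mul_le_mul_left _ h3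
      _ = 1000 * ((sz l + sz a + 1) * (sz l + sz a + 1) * (sz l + sz a + 1)) := by ring
  have h2 := (h.comp (hL.pair (hl.pair hs))).snd'
  refine (congrArg FP (funext fun a => ?_)).mp h2
  exact (runM_eq P _ _ _).symm

private theorem isTFP : FP fun s : St => isT s := by
  unfold isT
  fun_prop

private theorem payFP (P : Par) {v : α → ℕ} {G : α → List Ed} {s : α → St} (hv : FP v) (hG : FP G)
    (hs : FP s) : FP fun a => pay P (v a) (G a) (s a) := by
  unfold pay
  have hK : FP fun a => (s a).2.1.2.2 := hs.snd'.fst'.snd'.snd'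
  have h1 : FP fun a => isT (s a) := isTFP.comp hs
  have h2 : FP fun a => !((s a).2.1.2.2.contains (v a)) := FP.not (FP.contains hK hv)
  have h3 : FP fun a => (isT (s a) && !((s a).2.1.2.2.contains (v a))) := FP.and h1 h2
  have h4 : FP fun a => P.y1 ^ jj P (v a) (s a).2.1.2.2 (G a) := FP.jjpow P P.y1 hv hK hG
  have h5 : FP fun a => P.y2 ^ (P.D - jj P (v a) (s a).2.1.2.2 (G a)) := FP.jjpow' P P.y2 hv hK hG
  exact FP.ite h3 (FP.natMul h4 h5) (FP.const 0)

theorem FP.trial (P : Par) {L l : α → List Bool} {e : α → Ed} {E : α → List Ed} (hL : FP L)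
    (he : FP e) (hE : FP E) (hl : FP l) :
    FP fun a => TFP.trial P (L a).length (e a) (E a) (l a) := by
  unfold TFP.trial
  have h1 : FP fun a => ev (e a).2.2 (E a) [] := by
    refine FP.pair (FP.const true) (FP.pair (FP.pair he.snd'.snd' (FP.pair hE (FP.const []))) (FP.const []))
  exact payFP P he.snd'.fst' hE (FP.runM P hL hl h1)

end

end Pool.Agent.TFP
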