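import Pool.Agent.TFP.FpL

set_option autoImplicit false

/-!
# TFP-FpS: one step of the machine is polynomial time computable

`P` is a constant.

Plan. `jj P v K G = ((btwL v K G).take P.D).length`: `FP.take` takes its bound as the length of a list:
`(btwL ..).take (List.replicate P.D true).length`, constant list `FP.const`. `y1 ^ jj`: `FP.powU` with base
`FP.const P.y1` and list `(btwL ..).take ..`. `U < n` is `!(decide (n ≤ U))`: `FP.natLe`. Then `stepM` is a nest of
`FP.ite` (conditions `if .. = true`; for `U < ..` use `decide` and `simp only [decide_eq_true_eq]` or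
`FP.ite` with `(congrArg FP (funext ..)).mp`), components by `fun_prop` (`FP.headD _ (frB [])`, `FP.headD _ (0,(0,0))`,
`FP.tail`, `FP.cons`, `FP.append`, `FP.pair`, `FP.atL`, `FP.delL`, `FP.outL`, `FP.oth`). It is convenient to prove `FP` of
each of the seven possible results separately. `ev`, `ret`, `frA`, `frB` are abbreviations.
-/

namespace Pool.Agent.TFP

open Turing Function N487b59b3 N68a2faeb Pool.Agent.Helper22 Pool.Agent.Helper6.WB Computability
  Pool.Agent.Helper47.TR

section

variable {α : Type} [N487b59b3 α]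

private theorem iteLt {β : Type} [N487b59b3 β] {u n : α → ℕ} {f g : α → β} (hu : FP u) (hn : FP n)
    (hf : FP f) (hg : FP g) : FP fun a => if u a < n a then f a else g a := by
  have h := FP.ite (FP.not (FP.natLe hn hu)) hf hg
  refine (congrArg FP (funext fun a => ?_)).mp h
  by_cases h1 : u a < n a
  · have h2 : ¬ n a ≤ u a := Nat.not_le.2 h1
    simp [h1]
  · have h2 : n a ≤ u a := Nat.not_lt.1 h1
    simp [h1]

private theorem jjl (P : Par) {v : α → ℕ} {K : α → List ℕ} {G : α → List Ed} (hv : FP v)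
    (hK : FP K) (hG : FP G) : FP fun a => (TFP.btwL (v a) (K a) (G a)).take P.D := by
  have h := FP.take (FP.btwL hv hK hG) (FP.const (α := α) (List.replicate P.D true))
  refine (congrArg FP (funext fun a => ?_)).mp h
  rw [List.length_replicate]

@[fun_prop]
theorem FP.jjpow (P : Par) (n : ℕ) {v : α → ℕ} {K : α → List ℕ} {G : α → List Ed} (hv : FP v)
    (hK : FP K) (hG : FP G) : FP fun a => n ^ jj P (v a) (K a) (G a) :=
  FP.powU (FP.const n) (jjl P hv hK hG)

@[fun_prop]
theorem FP.jjpow' (P : Par) (n : ℕ) {v : α → ℕ} {K : α → List ℕ} {G : α → List Ed} (hv : FP v)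
    (hK : FP K) (hG : FP G) : FP fun a => n ^ (P.D - jj P (v a) (K a) (G a)) := by
  have h := FP.powU (FP.const (α := α) n) (FP.drop (FP.const (α := α) (List.replicate P.D true))
    (jjl P hv hK hG))
  refine (congrArg FP (funext fun a => ?_)).mp h
  rw [List.length_drop, List.length_replicate]
  rfl

theorem FP.stepM (P : Par) : FP fun p : ℕ × St => TFP.stepM P p.1 p.2 := by
  have hU : FP fun p : ℕ × St => p.1 := by fun_prop
  have hs : FP fun p : ℕ × St => p.2 := by fun_prop
  have hs1 : FP fun p : ℕ × St => p.2.1 := by fun_prop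
  have hv : FP fun p : ℕ × St => p.2.2.1.1 := by fun_prop
  have hG : FP fun p : ℕ × St => p.2.2.1.2.1 := by fun_prop
  have hK : FP fun p : ℕ × St => p.2.2.1.2.2 := by fun_prop
  have hst : FP fun p : ℕ × St => p.2.2.2 := by fun_prop
  have hat : FP fun p : ℕ × St => TFP.atL p.2.2.1.1 p.2.2.1.2.1 := FP.atL hv hG
  have he : FP fun p : ℕ × St => (TFP.atL p.2.2.1.1 p.2.2.1.2.1).headD (0, (0, 0)) := FP.headD hat _
  have hdel : FP fun p : ℕ × St => TFP.delL ((TFP.atL p.2.2.1.1 p.2.2.1.2.1).headD (0, (0, 0))) p.2.2.1.2.1 :=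
    FP.delL he hG
  have hoth : FP fun p : ℕ × St => TFP.oth p.2.2.1.1 ((TFP.atL p.2.2.1.1 p.2.2.1.2.1).headD (0, (0, 0))) :=
    FP.oth hv he
  have hhd : FP fun p : ℕ × St => p.2.2.2.headD (frB []) := FP.headD hst _
  have htl : FP fun p : ℕ × St => p.2.2.2.tail := FP.tail hst
  have hh1 : FP fun p : ℕ × St => (p.2.2.2.headD (frB [])).1 := FP.fst' hhd
  have hh2 : FP fun p : ℕ × St => (p.2.2.2.headD (frB [])).2 := FP.snd' hhd
  have hhv : FP fun p : ℕ × St => (p.2.2.2.headD (frB [])).2.1.1 := FP.fst' (FP.fst' hh2)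
  have hhe : FP fun p : ℕ × St => (p.2.2.2.headD (frB [])).2.1.2 := FP.snd' (FP.fst' hh2)
  have hhG : FP fun p : ℕ × St => (p.2.2.2.headD (frB [])).2.2.1 := FP.fst' (FP.snd' hh2)
  have hhK : FP fun p : ℕ × St => (p.2.2.2.headD (frB [])).2.2.2 := FP.snd' (FP.snd' hh2)
  have evF : ∀ {v : ℕ × St → ℕ} {G : ℕ × St → List Ed} {st : ℕ × St → List Frame}, FP v → FP G → FP st →
      FP fun p : ℕ × St => ev (v p) (G p) (st p) := fun h1 h2 h3 =>
    (FP.const true).pair ((h1.pair (h2.pair (FP.const []))).pair h3)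
  have retF : ∀ {K : ℕ × St → List ℕ} {st : ℕ × St → List Frame}, FP K → FP st →
      FP fun p : ℕ × St => ret (K p) (st p) := fun h1 h2 =>
    (FP.const false).pair (((FP.const 0).pair ((FP.const []).pair h1)).pair h2)
  have frAF : ∀ {v : ℕ × St → ℕ} {e : ℕ × St → Ed} {G : ℕ × St → List Ed}, FP v → FP e → FP G →
      FP fun p : ℕ × St => frA (v p) (e p) (G p) := fun h1 h2 h3 =>
    (FP.const true).pair ((h1.pair h2).pair (h3.pair (FP.const [])))
  have frBF : ∀ {K : ℕ × St → List ℕ}, FP K → FP fun p : ℕ × St => frB (K p) := fun h1 =>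
    (FP.const false).pair ((FP.const (0, (0, (0, 0)))).pair ((FP.const []).pair h1))
  unfold TFP.stepM
  refine FP.ite hs1 ?_ ?_
  · refine FP.ite (FP.isEmpty hat) ?_ ?_
    · exact retF (FP.cons hv (FP.const [])) hst
    · refine iteLt hU (FP.const P.c) ?_ ?_
      · exact evF hoth hdel (FP.cons (frAF hv he hdel) hst)
      · refine iteLt hU (FP.const P.a) ?_ hs
        exact evF hv hdel hst
  · refine FP.ite (FP.isEmpty hst) hs ?_
    refine FP.ite hh1 ?_ ?_
    · refine FP.ite (FP.contains hK hhv) ?_ ?_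
      · exact evF hhv (FP.cons hhe hhG) htl
      · refine iteLt hU (FP.jjpow P P.y1 hhv hK hhG) ?_ ?_
        · exact evF hhv (FP.outL hK hhG) (FP.cons (frBF hK) htl)
        · refine iteLt hU (FP.jjpow P P.y2 hhv hK hhG) ?_ hs
          exact evF hhv (FP.cons hhe hhG) htl
    · exact retF (FP.append hhK hK) htl

end

end Pool.Agent.TFP
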