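import Pool.Agent.TFP.FpR

set_option autoImplicit false

/-!
# TFP-FpT: the sum of `k` trials is polynomial time computable

Plan. State `((L, (e, E)), (l, acc))` with `L : List Bool` (unary); step:
`l ↦ l.drop (L.length * b)`, `acc ↦ acc + trial P L.length e E (l.take (L.length * b))`. The number `L.length * b` as the
length of a list: `FP.unMul` with the constant list `List.replicate P.b true` (`un_length`). `FP.iterate` with `k`
given by a list; size bound: `trial ≤ C` where `C = (P.y1 + P.y2 + 1) ^ P.D` (prove: `j ≤ P.D`,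
`y1^j * y2^(D-j) ≤ (y1+y2+1)^D`), so after `i` steps `acc ≤ acc0 + i * C`, `size ≤ size acc0 + i * C` (`size_add_le`),
`sz (l.drop _) ≤ sz l` (`sz_drop`). Relation: `i` steps give `(l.drop (i * (L*b)), acc + sumT P L e E i l)`
(induction on `i`, generalizing `l`, `acc`; unfold `sumT`; `add_assoc`). Start with `acc = 0`.
-/

namespace Pool.Agent.TFP

open Turing Function N487b59b3 N68a2faeb Pool.Agent.Helper22 Pool.Agent.Helper6.WB Computability
  Pool.Agent.Helper47.TR

section

variable {α : Type} [N487b59b3 α]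

private theorem jj_le (P : Par) (v : ℕ) (K : List ℕ) (G : List Ed) : jj P v K G ≤ P.D := by
  unfold jj
  rw [List.length_take]
  exact min_le_left _ _

private theorem trial_le (P : Par) (L : ℕ) (e : Ed) (E : List Ed) (l : List Bool) :
    TFP.trial P L e E l ≤ (P.y1 + P.y2 + 1) ^ P.D := by
  unfold TFP.trial pay
  split_ifs
  · generalize hs : TFP.runM P L l (ev e.2.2 E []) = s
    have hj := jj_le P e.2.1 s.2.1.2.2 E
    have h1 : P.y1 ^ jj P e.2.1 s.2.1.2.2 E ≤ (P.y1 + P.y2 + 1) ^ jj P e.2.1 s.2.1.2.2 E :=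
      Nat.pow_le_pow_left (by omega) _
    have h2 : P.y2 ^ (P.D - jj P e.2.1 s.2.1.2.2 E) ≤
        (P.y1 + P.y2 + 1) ^ (P.D - jj P e.2.1 s.2.1.2.2 E) :=
      Nat.pow_le_pow_left (by omega) _
    refine (Nat.mul_le_mul h1 h2).trans (le_of_eq ?_)
    rw [← pow_add, Nat.add_sub_cancel' hj]
  · exact Nat.zero_le _

/-- one trial, accumulated -/
private def sumStep (P : Par) (s : (List Bool × (Ed × List Ed)) × (List Bool × ℕ)) :
    (List Bool × (Ed × List Ed)) × (List Bool × ℕ) :=
  (s.1, (s.2.1.drop (s.1.1.length * P.b),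
    s.2.2 + TFP.trial P s.1.1.length s.1.2.1 s.1.2.2 (s.2.1.take (s.1.1.length * P.b))))

private theorem sumStep_iter (P : Par) (L : List Bool) (e : Ed) (E : List Ed) (i : ℕ)
    (l : List Bool) (acc : ℕ) : (sumStep P)^[i] ((L, (e, E)), (l, acc)) =
      ((L, (e, E)), (l.drop (i * (L.length * P.b)), acc + TFP.sumT P L.length e E i l)) := by
  induction i generalizing l acc with
  | zero => simp [TFP.sumT]
  | succ i ih =>
    rw [Function.iterate_succ_apply, sumStep, ih]
    simp only [TFP.sumT, List.drop_drop, Prod.mk.injEq, true_and]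
    refine ⟨?_, ?_⟩
    · congr 1
      ring
    · rw [add_assoc]

private theorem sumStep_FP (P : Par) : FP (sumStep P) := by
  have hb : FP fun s : (List Bool × (Ed × List Ed)) × (List Bool × ℕ) =>
      un (s.1.1.length * P.b) := by
    have h := FP.unMul (f := fun s : (List Bool × (Ed × List Ed)) × (List Bool × ℕ) => s.1.1)
      (g := fun _ => List.replicate P.b true) (by fun_prop) (FP.const _)
    simpa only [List.length_replicate] using h
  have hd : FP fun s : (List Bool × (Ed × List Ed)) × (List Bool × ℕ) =>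
      s.2.1.drop (s.1.1.length * P.b) := by
    have h := FP.drop (f := fun s : (List Bool × (Ed × List Ed)) × (List Bool × ℕ) => s.2.1)
      (by fun_prop) hb
    simpa only [un_length] using h
  have ht : FP fun s : (List Bool × (Ed × List Ed)) × (List Bool × ℕ) =>
      s.2.1.take (s.1.1.length * P.b) := by
    have h := FP.take (f := fun s : (List Bool × (Ed × List Ed)) × (List Bool × ℕ) => s.2.1)
      (by fun_prop) hb
    simpa only [un_length] using h
  have htr := FP.trial P (L := fun s : (List Bool × (Ed × List Ed)) × (List Bool × ℕ) => s.1.1)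
    (e := fun s => s.1.2.1) (E := fun s => s.1.2.2) (by fun_prop) (by fun_prop) (by fun_prop) ht
  exact FP.pair (by fun_prop) (FP.pair hd (FP.natAdd (by fun_prop) htr))

theorem sumT_le (P : Par) (L : ℕ) (e : Ed) (E : List Ed) (k : ℕ) (l : List Bool) :
    sumT P L e E k l ≤ k * (P.y1 + P.y2 + 1) ^ P.D := by
  induction k generalizing l with
  | zero => simp [TFP.sumT]
  | succ k ih =>
    rw [TFP.sumT]
    have h1 := trial_le P L e E (l.take (L * P.b))
    have h2 := ih (l.drop (L * P.b))
    rw [add_mul, one_mul]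
    omega

theorem FP.sumT (P : Par) {L k l : α → List Bool} {e : α → Ed} {E : α → List Ed} (hL : FP L)
    (hk : FP k) (he : FP e) (hE : FP E) (hl : FP l) :
    FP fun a => TFP.sumT P (L a).length (e a) (E a) (k a).length (l a) := by
  have hit : FP fun p : List Bool × ((List Bool × (Ed × List Ed)) × (List Bool × ℕ)) =>
      (sumStep P)^[p.1.length] p.2 := by
    refine FP.iterate (sumStep_FP P)
      (B := fun n => n + n * (P.y1 + P.y2 + 1) ^ P.D) (by fun_prop) ?_
    rintro c ⟨⟨L, e, E⟩, l, acc⟩ i hi
    rw [sumStep_iter]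
    have h1 := sz_drop l (i * (L.length * P.b))
    have h2 := size_add_le acc (TFP.sumT P L.length e E i l)
    have h3 := sumT_le P L.length e E i l
    have h4 := length_le_sz c
    have h5 : i * (P.y1 + P.y2 + 1) ^ P.D ≤ sz c * (P.y1 + P.y2 + 1) ^ P.D :=
      Nat.mul_le_mul_right _ (hi.trans h4)
    simp only [sz_pair, sz_nat]
    generalize (P.y1 + P.y2 + 1) ^ P.D = C at h3 h5 ⊢
    have h6 : sz c * C ≤ (sz c + (2 * (2 * sz L + 1 + (2 * sz e + 1 + sz E)) + 1 +
      (2 * sz l + 1 + acc.size))) * C := Nat.mul_le_mul_right _ (by omega)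
    omega
  have h := hit.comp (hk.pair ((hL.pair (he.pair hE)).pair (hl.pair (FP.const 0))))
  have h2 := FP.snd.comp (FP.snd.comp h)
  refine (congrArg FP (funext fun a => ?_)).mp h2
  simp only [sumStep_iter, zero_add]

end

end Pool.Agent.TFP
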