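import Pool.Agent.TFP.EstG
import Pool.Agent.TFP.FpA
import Pool.Agent.TFP.Cls
import Pool.Agent.TFP.Num

set_option autoImplicit false

/-!
# TFP-Gen: the general theorem

Plan. `P` from `par_exists`, `p = lam/(1+lam) = 1/x`, `B = (1 + 3p) / (1 - p D + p θ0)` (positive denominator by `hD`),
`C2 ≥ 4 lam 2^b (1 + B D) + 1`, `C1 ≥ 128 lam² + 1` natural numbers, algorithm `alg P C1 C2` (`alg_poly`), number of bits
`pol.eval (sz (G, N))` with `pol = C (C1 * C2 * b) * (X + 1)^6`. For `G` in the class and `N`: `t = tt (G, N)`,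
`k = C1 t^3`, `L = C2 t^2`, `m = |nlE G.2| ≤ |G.2| ≤ t`, `|N| + 1 ≤ t ≤ sz (G, N) + 1`, `η = 1 / (4 (|N| + 1))`;
`m * (k * (L * b)) ≤ pol.eval ..`. `est_good`, `avg_take` (the algorithm only uses the first `m k L b` bits:
prove `numer P k L E l = numer P k L E (l.take (E.length * (k * (L * b))))`), `avg_count` (the sum of the indicator is
the cardinality of the filter). On the event: value of `alg` as a fraction = pref * numer/denom with
`pref = (x-1)^|mergers| y^|loops|`, `tutte = pref * Z` (`tutte_eq`), so `|value - tutte| ≤ 2 η * tutte`, `close_of`;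
the denominator is positive (`denom_pos`).
-/

namespace Pool.Agent.TFP

open Finset Pool.Agent.Helper47.TR

theorem numer_take (P : Par) (k L : ℕ) (E : List Ed) (l : List Bool) :
    numer P k L E (l.take (E.length * (k * (L * P.b)))) = numer P k L E l := by
  induction E generalizing l with
  | nil => rfl
  | cons e E ih =>
    have h1 : k * (L * P.b) ≤ (e :: E).length * (k * (L * P.b)) := by
      rw [List.length_cons]
      nlinarith [Nat.zero_le (E.length * (k * (L * P.b)))]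
    have h2 : (e :: E).length * (k * (L * P.b)) - k * (L * P.b) = E.length * (k * (L * P.b)) := by
      rw [List.length_cons, Nat.succ_mul, Nat.add_sub_cancel]
    rw [numer, numer, List.take_take, min_eq_left h1, List.drop_take, h2, ih]

private theorem gen_val {P : Par} (hP : P.Ok) {x y : ℚ} (hx : x = P.a / P.c) (hy : P.y = y)
    (M Lp nu de : ℕ) :
    ((((P.a - P.c) ^ M * P.y1 ^ Lp * nu : ℕ) : ℤ) : ℚ) / ((P.c ^ M * P.y2 ^ Lp * de : ℕ) : ℚ) =
      (x - 1) ^ M * y ^ Lp * ((nu : ℚ) / de) := by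
  obtain ⟨h1, h2, h3, h4, h5⟩ := hP
  have hc : ((P.a - P.c : ℕ) : ℚ) = (P.a : ℚ) - P.c := by
    rw [Nat.cast_sub h2.le]
  have hc0 : (P.c : ℚ) ≠ 0 := by
    have : (0 : ℚ) < P.c := by exact_mod_cast h1
    exact this.ne'
  have hx1 : x - 1 = ((P.a : ℚ) - P.c) / P.c := by
    rw [hx, sub_div, div_self hc0]
  rw [hx1, ← hy, Par.y, div_pow, div_pow, Int.cast_natCast]
  push_cast [hc]
  rw [mul_div_mul_comm, mul_div_mul_comm]

private theorem gen_par {x : ℚ} (hx : 1 < x) {D : ℕ} {θ0 : ℚ} (hD : (D : ℚ) < x + θ0) (lam : ℚ)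
    (hl : lam = 1 / (x - 1)) :
    ∃ B : ℚ, 0 ≤ B ∧ 1 + 3 * (lam / (1 + lam)) ≤
      B * (1 - lam / (1 + lam) * D + lam / (1 + lam) * θ0) := by
  have hx0 : 0 < x - 1 := by linarith
  have hx1 : 0 < x := by linarith
  have hp : lam / (1 + lam) = 1 / x := by
    rw [hl]
    have h1 : 1 + 1 / (x - 1) = x / (x - 1) := by
      field_simp
      ring
    rw [h1]
    field_simp
  rw [hp]
  have hd : 0 < 1 - 1 / x * D + 1 / x * θ0 := by
    have h2 : 1 - 1 / x * D + 1 / x * θ0 = (x - D + θ0) / x := by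
      field_simp
    rw [h2]
    apply div_pos _ hx1
    linarith
  refine ⟨(1 + 3 * (1 / x)) / (1 - 1 / x * D + 1 / x * θ0), ?_, ?_⟩
  · positivity
  · rw [div_mul_cancel₀ _ hd.ne']

private theorem gen_le {P : Par} {B : ℚ} (hB0 : 0 ≤ B) (hl : 0 < P.lam) {C1 C2 : ℕ}
    (h1 : 128 * P.lam ^ 2 + 1 ≤ C1) (h2 : 4 * (P.lam * (2 ^ P.b * (1 + B * P.D))) + 1 ≤ C2)
    {m t n : ℕ} (hm : m ≤ t) (hn : n + 1 ≤ t) :
    P.lam * (2 ^ P.b * (1 + B * P.D) / ((C2 * t ^ 2 : ℕ) : ℚ)) < 1 ∧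
    (m : ℚ) * (P.lam * (2 ^ P.b * (1 + B * P.D) / ((C2 * t ^ 2 : ℕ) : ℚ))) ≤ 1 / (4 * (n + 1)) ∧
    8 * (m : ℚ) * (P.lam ^ 2 / ((C1 * t ^ 3 : ℕ) : ℚ)) ≤ (1 / (4 * ((n : ℚ) + 1))) ^ 2 := by
  have ht : (1 : ℚ) ≤ t := by
    have : 1 ≤ t := by omega
    exact_mod_cast this
  have hmt : (m : ℚ) ≤ t := by exact_mod_cast hm
  have hnt : (n : ℚ) + 1 ≤ t := by exact_mod_cast hn
  have hn0 : (0 : ℚ) < (n : ℚ) + 1 := by positivity
  have hW0 : 0 ≤ P.lam * (2 ^ P.b * (1 + B * P.D)) := by positivity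
  have hC2 : (0 : ℚ) < C2 := by linarith
  have hl2 : 0 < P.lam ^ 2 := by positivity
  have hC1 : (0 : ℚ) < C1 := by linarith
  have hm0 : (0 : ℚ) ≤ m := by positivity
  obtain ⟨W, hW⟩ : ∃ W, W = P.lam * (2 ^ P.b * (1 + B * P.D)) := ⟨_, rfl⟩
  have e1 : P.lam * (2 ^ P.b * (1 + B * P.D) / ((C2 * t ^ 2 : ℕ) : ℚ)) = W / (C2 * t ^ 2) := by
    rw [hW]
    push_cast
    rw [← mul_div_assoc]
  have e2 : P.lam ^ 2 / ((C1 * t ^ 3 : ℕ) : ℚ) = P.lam ^ 2 / (C1 * t ^ 3) := by push_cast; rfl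
  rw [e1, e2]
  rw [← hW] at h2 hW0
  have hW4 : W ≤ C2 / 4 := by linarith
  have h3 : W / (C2 * t ^ 2) ≤ 1 / (4 * t ^ 2) := by
    rw [div_le_div_iff₀ (by positivity) (by positivity)]
    have : (0 : ℚ) < (t : ℚ) ^ 2 := by positivity
    nlinarith
  have h4 : (1 : ℚ) ≤ (t : ℚ) ^ 2 := by nlinarith
  refine ⟨?_, ?_, ?_⟩
  · refine lt_of_le_of_lt h3 ?_
    rw [div_lt_one (by positivity)]
    linarith
  · calc (m : ℚ) * (W / (C2 * t ^ 2)) ≤ t * (1 / (4 * t ^ 2)) :=
          mul_le_mul hmt h3 (by positivity) (by positivity)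
      _ = 1 / (4 * t) := by
          field_simp
      _ ≤ 1 / (4 * (n + 1)) := by
          apply one_div_le_one_div_of_le (by positivity)
          linarith
  · have h5 : P.lam ^ 2 / (C1 * t ^ 3) ≤ 1 / (128 * t ^ 3) := by
      rw [div_le_div_iff₀ (by positivity) (by positivity)]
      have : (0 : ℚ) < (t : ℚ) ^ 3 := by positivity
      nlinarith
    calc 8 * (m : ℚ) * (P.lam ^ 2 / (C1 * t ^ 3)) ≤ 8 * t * (1 / (128 * t ^ 3)) :=
          mul_le_mul (by linarith) h5 (by positivity) (by positivity)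
      _ = (1 / (4 * t)) ^ 2 := by
          field_simp
          norm_num
      _ ≤ (1 / (4 * ((n : ℚ) + 1))) ^ 2 := by
          apply pow_le_pow_left₀ (by positivity)
          apply one_div_le_one_div_of_le (by positivity)
          linarith

private theorem gen_len (l : List (ℕ × ℕ)) : (nlE l).length ≤ l.length := by
  have h : (labE l).length = l.length := by
    induction l with
    | nil => rfl
    | cons e l ih =>
      show (((labE l).length, e) :: labE l).length = _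
      rw [List.length_cons, ih, List.length_cons]
  rw [← h]
  exact List.length_filter_le _ _

private theorem gen_tt (G : MG) (N : List Bool) :
    tt (G, N) ≤ (N487b59b3.bitEncode (G, N)).length := by
  show tt (G, N) ≤ Helper22.sz (G, N)
  have h1 : Helper22.sz (G, N) = 2 * Helper22.sz G + 1 + Helper22.sz N := Helper22.sz_pair G N
  have h2 : Helper22.sz G = 2 * Helper22.sz G.1 + 1 + Helper22.sz G.2 := Helper22.sz_pair G.1 G.2
  have h3 := Helper22.length_le_sz G.2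
  have h4 := Helper22.length_le_sz N
  have h5 : tt (G, N) = G.2.length + N.length + 1 := rfl
  omega

theorem fpras_gen {x y : ℚ} (hx : 1 < x) (hy0 : 0 ≤ y) (hy1 : y < 1) (D : ℕ) {θ0 : ℚ}
    (hD : (D : ℚ) < x + θ0) (C : MG → Prop)
    (hC : ∀ G, Valid G → C G → Cl (range G.1.length) D (1 / (x - 1)) y θ0 (nlE G.2).toFinset) :
    HasFPRAS C (tutte x y) := by
  obtain ⟨P, hP, hPD, hPl, hPy, hPx⟩ := par_exists hx hy0 hy1 D
  obtain ⟨B, hB0, hB⟩ := gen_par hx hD P.lam hPl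
  have hx0 : 0 < x - 1 := by linarith
  have hl0 : 0 < P.lam := by
    rw [hPl]
    positivity
  obtain ⟨C1, hC1⟩ := exists_nat_ge (128 * P.lam ^ 2 + 1)
  obtain ⟨C2, hC2⟩ := exists_nat_ge (4 * (P.lam * (2 ^ P.b * (1 + B * P.D))) + 1)
  have hC1p : 0 < C1 := by
    have : (0 : ℚ) < C1 := by
      have : 0 ≤ P.lam ^ 2 := by positivity
      linarith
    exact_mod_cast this
  have hC2p : 0 < C2 := by
    have : (0 : ℚ) < C2 := by
      have : 0 ≤ P.lam * (2 ^ P.b * (1 + B * P.D)) := by positivity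
      linarith
    exact_mod_cast this
  refine ⟨Polynomial.C (C1 * C2 * P.b) * (Polynomial.X + 1) ^ 6, alg P C1 C2, alg_poly P C1 C2, ?_⟩
  intro G hG hCG N
  obtain ⟨n, hn⟩ : ∃ n, n = (Polynomial.C (C1 * C2 * P.b) * (Polynomial.X + 1) ^ 6 : Polynomial ℕ).eval
      (N487b59b3.bitEncode (G, N)).length := ⟨_, rfl⟩
  rw [← hn]
  have hn' : n = C1 * C2 * P.b * ((N487b59b3.bitEncode (G, N)).length + 1) ^ 6 := by
    rw [hn]
    simp
  have htt := gen_tt G N
  have htd : tt (G, N) = G.2.length + N.length + 1 := rfl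
  obtain ⟨t, ht⟩ : ∃ t, t = tt (G, N) := ⟨_, rfl⟩
  have hCl := hC G hG hCG
  rw [← hPD, ← hPl, ← hPy] at hCl
  have hm : (nlE G.2).length ≤ t := by
    have := gen_len G.2
    omega
  have hNt : N.length + 1 ≤ t := by omega
  have ht0 : 0 < t := by omega
  obtain ⟨g0, g1, g2⟩ := gen_le hB0 hl0 hC1 hC2 hm hNt
  have hk : 0 < C1 * t ^ 3 := by positivity
  have hL : 0 < C2 * t ^ 2 := by positivity
  have hη : (0 : ℚ) < 1 / (4 * ((N.length : ℚ) + 1)) := by positivity
  have hη1 : (1 : ℚ) / (4 * ((N.length : ℚ) + 1)) ≤ 1 := by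
    rw [div_le_one (by positivity)]
    have : (0 : ℚ) ≤ (N.length : ℚ) := by positivity
    linarith
  rw [← hPD] at hB
  have key := est_good hP hB0 hB hk hL (nodup_nlE G.2) hCl hη hη1 g0 g1 g2
  have hbits : (nlE G.2).length * (C1 * t ^ 3 * (C2 * t ^ 2 * P.b)) ≤ n := by
    rw [hn']
    calc (nlE G.2).length * (C1 * t ^ 3 * (C2 * t ^ 2 * P.b))
        ≤ t * (C1 * t ^ 3 * (C2 * t ^ 2 * P.b)) := Nat.mul_le_mul_right _ hm
      _ = C1 * C2 * P.b * t ^ 6 := by ring
      _ ≤ C1 * C2 * P.b * ((N487b59b3.bitEncode (G, N)).length + 1) ^ 6 := by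
          apply Nat.mul_le_mul_left
          apply Nat.pow_le_pow_left
          omega
  rw [← avg_take hbits] at key
  simp only [numer_take] at key
  rw [avg_count, le_div_iff₀ (by positivity), Finset.sum_boole] at key
  refine le_trans key ?_
  have hZ : 0 ≤ Z P.lam P.y (nlE G.2).toFinset :=
    (Z_pos hl0 (by rw [hPy]; exact hy0) (by rw [hPy]; exact hy1) hCl.1).le
  have hval : ∀ r : Fin n → Bool,
      (((alg P C1 C2 ((G, N), List.ofFn r)).1 : ℚ) / ((alg P C1 C2 ((G, N), List.ofFn r)).2 : ℚ)) =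
      (x - 1) ^ (mergers G).length * y ^ (lps G.2).length *
        ((numer P (C1 * t ^ 3) (C2 * t ^ 2) (nlE G.2) (List.ofFn r) : ℚ) /
          denom P (C1 * t ^ 3) (nlE G.2)) := by
    intro r
    rw [ht]
    exact gen_val hP hPx hPy _ _ _ _
  have hden : ∀ r : Fin n → Bool, (alg P C1 C2 ((G, N), List.ofFn r)).2 ≠ 0 := by
    intro r
    have h1 := denom_pos hP hk (nlE G.2)
    have h2 : 0 < P.c := hP.1
    have h3 : 0 < P.y2 := lt_of_le_of_lt (Nat.zero_le _) hP.2.2.1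
    have h4 : (alg P C1 C2 ((G, N), List.ofFn r)).2 =
        P.c ^ (mergers G).length * P.y2 ^ (lps G.2).length * denom P (C1 * t ^ 3) (nlE G.2) := by
      rw [ht]
      rfl
    rw [h4]
    positivity
  have htut := tutte_eq hG hx hy1
  rw [← hPl] at htut
  obtain ⟨pref, hpref⟩ : ∃ pref, pref = (x - 1) ^ (mergers G).length * y ^ (lps G.2).length := ⟨_, rfl⟩
  have hpref0 : 0 ≤ pref := by
    rw [hpref]
    positivity
  have htut' : tutte x y G = pref * Z P.lam P.y (nlE G.2).toFinset := by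
    rw [hpref, hPy]
    exact htut
  have hclose : ∀ r : Fin n → Bool,
      |(numer P (C1 * t ^ 3) (C2 * t ^ 2) (nlE G.2) (List.ofFn r) : ℚ) /
          denom P (C1 * t ^ 3) (nlE G.2) - Z P.lam P.y (nlE G.2).toFinset| ≤
        2 * (1 / (4 * ((N.length : ℚ) + 1))) * Z P.lam P.y (nlE G.2).toFinset →
      (alg P C1 C2 ((G, N), List.ofFn r)).2 ≠ 0 ∧
        Close (1 / (N.length + 1)) (tutte x y G)
          ((alg P C1 C2 ((G, N), List.ofFn r)).1 / (alg P C1 C2 ((G, N), List.ofFn r)).2) := by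
    intro r hr
    refine ⟨hden r, ?_⟩
    apply close_of (by rw [htut']; positivity)
    rw [hval r, htut', ← hpref, ← mul_sub, abs_mul, abs_of_nonneg hpref0]
    calc pref * |(numer P (C1 * t ^ 3) (C2 * t ^ 2) (nlE G.2) (List.ofFn r) : ℚ) /
          denom P (C1 * t ^ 3) (nlE G.2) - Z P.lam P.y (nlE G.2).toFinset|
        ≤ pref * (2 * (1 / (4 * ((N.length : ℚ) + 1))) * Z P.lam P.y (nlE G.2).toFinset) :=
          mul_le_mul_of_nonneg_left hr hpref0
      _ = 1 / (2 * (N.length + 1)) * (pref * Z P.lam P.y (nlE G.2).toFinset) := by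
          field_simp
          norm_num
  refine (Nat.cast_le (α := ℚ)).2 (Finset.card_le_card ?_)
  classical
  intro r hr
  rw [Finset.mem_filter] at hr ⊢
  exact ⟨hr.1, hclose r hr.2⟩

end Pool.Agent.TFP
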