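import Pool.Agent.TFP.ZEr

set_option autoImplicit false

/-!
# TFP-Key: the sampler identity

Plan. `G' = G.erase e`, `I(H, R) = ∑_S q H v S * R S`, `θ = th lam y V G' u v = ∑_K q G' u K * thK K`.
Divide `W_id` (with `β = y - 1`, `μ = lam / β`; `v ≠ u` from `NL`) by `Z G'`: since `Z G = Z G' * (1 + lam θ)` (`Z_erase`),
`ww H v S = q H v S * Z H` (`Z_pos`), and
`(if u ∈ K then μ^(|K|-1) * cc K G' else 0) * ∑_S ww (out K G') v S * R (K ∪ S)`
`  = ww G' u K * ∑_S q (out K G') v S * R (K ∪ S)` (as `Z (out K G') = ZZ .. (out K G')` cancels):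
`(1 + lam θ) I(G, R) = I(G', R) + lam ∑_K q G' u K * thK K * ∑_S q (out K G') v S * R (K ∪ S)`.
The claim is this identity divided by `1 + lam`: its right hand side contains
`lam/(1+lam) * ∑_K q G' u K * (1 - thK K) * I(G, R) = lam/(1+lam) * (1 - θ) * I(G, R)` (`q_sum` with `u ∈ V`).
-/

namespace Pool.Agent.TFP

open Finset

variable {lam y : ℚ}

private theorem key_ends_out (K : Finset ℕ) {G : Finset Ed} {V : Finset ℕ} (hV : ends G ⊆ V) :
    ends (out K G) ⊆ V :=
  (ends_mono (Finset.filter_subset _ _)).trans hV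

theorem key (hl : 0 < lam) (hy0 : 0 ≤ y) (hy1 : y < 1) {G : Finset Ed} (hG : NL G)
    {V : Finset ℕ} (hV : ends G ⊆ V) {e : Ed} (he : e ∈ G) {v u : ℕ} (hJ : Jn e v u)
    (R : Finset ℕ → ℚ) :
    ∑ S ∈ V.powerset, q lam y G v S * R S =
      1 / (1 + lam) * ∑ S ∈ V.powerset, q lam y (G.erase e) v S * R S +
      lam / (1 + lam) * ∑ K ∈ V.powerset, q lam y (G.erase e) u K *
        (thK y v K (G.erase e) *
            ∑ S ∈ V.powerset, q lam y (out K (G.erase e)) v S * R (K ∪ S) +
          (1 - thK y v K (G.erase e)) * ∑ S ∈ V.powerset, q lam y G v S * R S) := by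
  have h1 := mem_ends_left he
  have h2 := mem_ends_right he
  have hne := hG e he
  have hvu : v ≠ u := by
    rcases hJ with ⟨a, b⟩ | ⟨a, b⟩
    · rw [← a, ← b]; exact hne
    · rw [← a, ← b]; exact hne.symm
  have hu : u ∈ V := by
    rcases hJ with ⟨a, b⟩ | ⟨a, b⟩
    · rw [← b]; exact hV h2
    · rw [← a]; exact hV h1
  have hG' : NL (G.erase e) := hG.mono (Finset.erase_subset _ _)
  have hV' : ends (G.erase e) ⊆ V := (ends_mono (Finset.erase_subset _ _)).trans hV
  have hβ : y - 1 ≠ 0 := by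
    intro h
    have : y = 1 := by linarith
    exact absurd this hy1.ne
  have hZ' : Z lam y (G.erase e) ≠ 0 := (Z_pos hl hy0 hy1 hG').ne'
  have hZe := Z_erase hl hy0 hy1 hG hV he hJ
  have hqs := q_sum hl hy0 hy1 hG' hV' hu
  -- the weighted sums
  have hsum : ∀ H : Finset Ed, NL H → ∀ T : Finset ℕ → ℚ,
      ∑ S ∈ V.powerset, ww (lam / (y - 1)) (y - 1) H v S * T S =
        Z lam y H * ∑ S ∈ V.powerset, q lam y H v S * T S := by
    intro H hH T
    have hZ : Z lam y H ≠ 0 := (Z_pos hl hy0 hy1 hH).ne'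
    rw [Finset.mul_sum]
    refine Finset.sum_congr rfl fun S _ => ?_
    unfold q
    field_simp
  have key := W_id (lam / (y - 1)) (y - 1) he hvu hJ V R
  rw [hsum G hG R, hsum (G.erase e) hG' R, div_mul_cancel₀ lam hβ] at key
  have hK : ∀ K ∈ V.powerset,
      (if v ∈ K then 0 else (1 + (y - 1)) ^ (btw v K (G.erase e)).card) *
        (if u ∈ K then (lam / (y - 1)) ^ (K.card - 1) * cc (y - 1) K (G.erase e) else 0) *
        ∑ S ∈ V.powerset, ww (lam / (y - 1)) (y - 1) (out K (G.erase e)) v S * R (K ∪ S) =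
      Z lam y (G.erase e) * (q lam y (G.erase e) u K * (thK y v K (G.erase e) *
        ∑ S ∈ V.powerset, q lam y (out K (G.erase e)) v S * R (K ∪ S))) := by
    intro K _
    have hN : NL (out K (G.erase e)) := hG'.mono (Finset.filter_subset _ _)
    rw [hsum (out K (G.erase e)) hN (fun S => R (K ∪ S)), add_sub_cancel]
    have hq : Z lam y (G.erase e) * (q lam y (G.erase e) u K * (thK y v K (G.erase e) *
        ∑ S ∈ V.powerset, q lam y (out K (G.erase e)) v S * R (K ∪ S))) =
        ww (lam / (y - 1)) (y - 1) (G.erase e) u K * (thK y v K (G.erase e) *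
        ∑ S ∈ V.powerset, q lam y (out K (G.erase e)) v S * R (K ∪ S)) := by
      conv_lhs => unfold q
      rw [← mul_assoc, mul_div_cancel₀ _ hZ']
      rfl
    rw [hq]
    unfold thK ww Z
    split_ifs <;> ring
  rw [Finset.sum_congr rfl hK, ← Finset.mul_sum, hZe] at key
  -- expand the right hand side
  obtain ⟨I, hI⟩ : ∃ I, I = ∑ S ∈ V.powerset, q lam y G v S * R S := ⟨_, rfl⟩
  obtain ⟨I', hI'⟩ : ∃ I', I' = ∑ S ∈ V.powerset, q lam y (G.erase e) v S * R S := ⟨_, rfl⟩
  have hr : ∑ K ∈ V.powerset, q lam y (G.erase e) u K *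
        (thK y v K (G.erase e) *
            ∑ S ∈ V.powerset, q lam y (out K (G.erase e)) v S * R (K ∪ S) +
          (1 - thK y v K (G.erase e)) * I) =
      ∑ K ∈ V.powerset, q lam y (G.erase e) u K * (thK y v K (G.erase e) *
            ∑ S ∈ V.powerset, q lam y (out K (G.erase e)) v S * R (K ∪ S)) +
      (1 - th lam y V (G.erase e) u v) * I := by
    have e1 : (1 - th lam y V (G.erase e) u v) * I =
        ∑ K ∈ V.powerset, q lam y (G.erase e) u K * ((1 - thK y v K (G.erase e)) * I) := by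
      have e2 : 1 - th lam y V (G.erase e) u v =
          (∑ S ∈ V.powerset, q lam y (G.erase e) u S) - th lam y V (G.erase e) u v := by
        rw [hqs]
      rw [e2]
      unfold th
      rw [← Finset.sum_sub_distrib, Finset.sum_mul]
      refine Finset.sum_congr rfl fun K _ => ?_
      ring
    rw [e1, ← Finset.sum_add_distrib]
    refine Finset.sum_congr rfl fun K _ => ?_
    ring
  rw [← hI, ← hI'] at key ⊢
  rw [hr]
  obtain ⟨B, hB⟩ : ∃ B, B = ∑ K ∈ V.powerset, q lam y (G.erase e) u K *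
      (thK y v K (G.erase e) *
            ∑ S ∈ V.powerset, q lam y (out K (G.erase e)) v S * R (K ∪ S)) := ⟨_, rfl⟩
  rw [← hB] at key ⊢
  have key2 : (1 + lam * th lam y V (G.erase e) u v) * I = I' + lam * B := by
    apply mul_left_cancel₀ hZ'
    linarith
  have hl1 : (1 + lam) ≠ 0 := by positivity
  field_simp
  linarith

end Pool.Agent.TFP
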