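import Pool.Agent.TFP.Gen

set_option autoImplicit false

/-!
# TFP-Main: the theorem
-/

namespace Pool.Agent.TFP

open Finset Pool.Agent.Helper47.TR

theorem main (x y : ℚ) (hx : 1 < x) (hy0 : 0 ≤ y) (hy1 : y < 1) :
    HasFPRAS (fun G => ∀ v, (deg G v : ℚ) < x) (tutte x y) ∧
    HasFPRAS (fun G => (∀ v, (deg G v : ℚ) ≤ x) ∧ (0 < y ∨ NoPar G)) (tutte x y) := by
  have hl : (0 : ℚ) < 1 / (x - 1) := by
    have : 0 < x - 1 := by linarith
    positivity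
  constructor
  · refine fpras_gen hx hy0 hy1 (⌈x⌉₊ - 1) (θ0 := 0) ?_ _ (fun G hG h => ?_)
    · have h1 : 0 < ⌈x⌉₊ := Nat.ceil_pos.mpr (by linarith)
      have h2 := Nat.ceil_lt_add_one (show 0 ≤ x by linarith)
      have h3 : ((⌈x⌉₊ - 1 : ℕ) : ℚ) = ⌈x⌉₊ - 1 := by
        rw [Nat.cast_sub (by omega)]
        simp
      rw [h3]
      linarith
    · refine cl_zero hG hl hy0 hy1 (fun v => ?_)
      have h1 : (deg G v : ℚ) < x := h v
      have h2 : deg G v < ⌈x⌉₊ := Nat.lt_ceil.mpr h1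
      omega
  · have hfl : ((⌊x⌋₊ : ℕ) : ℚ) ≤ x := Nat.floor_le (by linarith)
    have hpos : (0 : ℚ) < (1 / (1 + 1 / (x - 1))) ^ ⌊x⌋₊ := by positivity
    rcases hy0.lt_or_eq with hy | hy
    · refine fpras_gen hx hy0 hy1 ⌊x⌋₊
        (θ0 := (1 / (1 + 1 / (x - 1))) ^ ⌊x⌋₊ * y ^ ⌊x⌋₊) ?_ _ (fun G hG h => ?_)
      · have : 0 < (1 / (1 + 1 / (x - 1))) ^ ⌊x⌋₊ * y ^ ⌊x⌋₊ := by positivity
        linarith
      · exact cl_pos hG hl hy0 hy1 (fun v => Nat.le_floor (h.1 v))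
    · refine fpras_gen hx hy0 hy1 ⌊x⌋₊
        (θ0 := (1 / (1 + 1 / (x - 1))) ^ ⌊x⌋₊) (by linarith) _ (fun G hG h => ?_)
      have hS : NoPar G := by
        rcases h.2 with h2 | h2
        · exact absurd h2 (by rw [← hy]; exact lt_irrefl _)
        · exact h2
      exact cl_simple hG hS hl hy0 hy1 (fun v => Nat.le_floor (h.1 v))

end Pool.Agent.TFP
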