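import Pool.Agent.TFP.Comp

set_option autoImplicit false

/-!
# TFP-RkS: the rank is additive over components

Plan. Let `S = comp A v`, `A' = out S A`. If `v ∉ ends A` then `S = {v}` (`comp_not_ends`), no edge of
`A` has an end in `S`, so `A' = A` and the claim is `rk A = 0 + rk A`. Otherwise:
* for `w ∉ S`: `comp A' w = comp A w` (a path of `A` starting outside `S` never enters `S`
  (symmetry, `edge_comp`), so all its edges are in `A'`; the converse is `Rch.mono`);
* `ends A' = (ends A).filter (· ∉ S)` (an end `w ∉ S` of an edge of `A`: both ends are `∉ S`);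
* for `w ∈ S`: `comp A w = S` (`comp_eq`), for `w ∉ S`: `comp A w ≠ S`.
Hence `(ends A).image (comp A) = insert S ((ends A').image (comp A'))` and `S` is not in the second set
(`w ∈ comp A' w`, `w ∉ S`); `Finset.sum_insert`.
-/

namespace Pool.Agent.TFP

open Finset

private theorem rks_out_sub (S : Finset ℕ) (A : Finset Ed) : out S A ⊆ A :=
  Finset.filter_subset _ _

private theorem rks_rch {A : Finset Ed} {v w x : ℕ} (hw : w ∉ comp A v) (h : Rch A w x) :
    Rch (out (comp A v) A) w x ∧ x ∉ comp A v := by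
  unfold Rch at h
  induction h with
  | refl => exact ⟨Relation.ReflTransGen.refl, hw⟩
  | tail _ hbc ih =>
    obtain ⟨ih1, ih2⟩ := ih
    obtain ⟨e, he, hj⟩ := hbc
    have h1 := edge_comp he v
    have h2 : e.2.1 ∉ comp A v ∧ e.2.2 ∉ comp A v := by
      rcases hj with ⟨h3, h4⟩ | ⟨h3, h4⟩
      · rw [← h3] at ih2
        exact ⟨ih2, fun h5 => ih2 (h1.2 h5)⟩
      · rw [← h4] at ih2
        exact ⟨fun h5 => ih2 (h1.1 h5), ih2⟩
    have h3 : e ∈ out (comp A v) A := Finset.mem_filter.2 ⟨he, h2⟩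
    refine ⟨Relation.ReflTransGen.tail ih1 ⟨e, h3, hj⟩, ?_⟩
    rcases hj with ⟨h4, h5⟩ | ⟨h4, h5⟩
    · rw [← h5]
      exact h2.2
    · rw [← h4]
      exact h2.1

private theorem rks_comp {A : Finset Ed} {v w : ℕ} (hw : w ∉ comp A v) :
    comp (out (comp A v) A) w = comp A w := by
  ext x
  rw [mem_comp, mem_comp]
  exact ⟨fun h => h.mono (rks_out_sub _ _), fun h => (rks_rch hw h).1⟩

private theorem rks_mem_ends {A : Finset Ed} {w : ℕ} :
    w ∈ ends A ↔ ∃ e ∈ A, e.2.1 = w ∨ e.2.2 = w := by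
  unfold ends
  rw [Finset.mem_union, Finset.mem_image, Finset.mem_image]
  constructor
  · rintro (⟨e, he, h⟩ | ⟨e, he, h⟩)
    · exact ⟨e, he, Or.inl h⟩
    · exact ⟨e, he, Or.inr h⟩
  · rintro ⟨e, he, h | h⟩
    · exact Or.inl ⟨e, he, h⟩
    · exact Or.inr ⟨e, he, h⟩

private theorem rks_ends {A : Finset Ed} {v w : ℕ} :
    w ∈ ends (out (comp A v) A) ↔ w ∈ ends A ∧ w ∉ comp A v := by
  rw [rks_mem_ends, rks_mem_ends]
  constructor
  · rintro ⟨e, he, h⟩
    obtain ⟨h1, h2, h3⟩ := Finset.mem_filter.1 he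
    refine ⟨⟨e, h1, h⟩, ?_⟩
    rcases h with h | h
    · rw [← h]
      exact h2
    · rw [← h]
      exact h3
  · rintro ⟨⟨e, he, h⟩, hw⟩
    have h1 := edge_comp he v
    refine ⟨e, Finset.mem_filter.2 ⟨he, ?_⟩, h⟩
    rcases h with h | h
    · rw [← h] at hw
      exact ⟨hw, fun h5 => hw (h1.2 h5)⟩
    · rw [← h] at hw
      exact ⟨fun h5 => hw (h1.1 h5), hw⟩

theorem rk_split (A : Finset Ed) (v : ℕ) :
    rk A = ((comp A v).card - 1) + rk (out (comp A v) A) := by
  classical
  by_cases hv : v ∈ ends A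
  · have h1 : (ends A).image (comp A) = insert (comp A v)
        ((ends (out (comp A v) A)).image (comp (out (comp A v) A))) := by
      ext T
      rw [Finset.mem_insert, Finset.mem_image, Finset.mem_image]
      constructor
      · rintro ⟨w, hw, rfl⟩
        by_cases hwS : w ∈ comp A v
        · exact Or.inl (comp_eq (mem_comp.1 hwS)).symm
        · exact Or.inr ⟨w, rks_ends.2 ⟨hw, hwS⟩, rks_comp hwS⟩
      · rintro (rfl | ⟨w, hw, rfl⟩)
        · exact ⟨v, hv, rfl⟩
        · obtain ⟨h1, h2⟩ := rks_ends.1 hw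
          exact ⟨w, h1, (rks_comp h2).symm⟩
    have h2 : comp A v ∉ (ends (out (comp A v) A)).image (comp (out (comp A v) A)) := by
      intro h
      obtain ⟨w, hw, hc⟩ := Finset.mem_image.1 h
      apply (rks_ends.1 hw).2
      rw [← hc]
      exact self_mem_comp _ _
    unfold rk
    rw [h1, Finset.sum_insert h2]
  · have h1 := comp_not_ends hv
    have h2 : out (comp A v) A = A := by
      rw [h1]
      refine Finset.filter_true_of_mem fun e he => ?_
      rw [Finset.mem_singleton, Finset.mem_singleton]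
      exact ⟨fun h => hv (rks_mem_ends.2 ⟨e, he, Or.inl h⟩),
        fun h => hv (rks_mem_ends.2 ⟨e, he, Or.inr h⟩)⟩
    rw [h2, h1, Finset.card_singleton, Nat.sub_self, zero_add]

end Pool.Agent.TFP
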