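import Pool.Agent.TFP.Drift
import Pool.Agent.TFP.ValB
import Pool.Agent.TFP.Avg

set_option autoImplicit false

/-!
# TFP-RunA: analysis of `L` steps of the machine

Plan. `(L+1) * b = b + L * b`; `avg_take_drop` and `avg_val`:
`avg ((L+1)*b) (fun l => Ψ (runM P (L+1) l s)) = (∑_{U < 2^b} avg (L*b) (fun l => Ψ (runM P L l (stepM P U s)))) / 2^b`
for every `Ψ : St → ℚ` (prove this first). Write `h_L(s) = avg (L*b) (if isT .. then 0 else 1)`.
* `isT s`: `stepM P U s = s`, so `runM P L l s = s`, `h_L(s) = 0`.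
* `run_term`: induction on `L`, all `s`: `L * h_L(s) ≤ Pot s`. `isT s`: `0 ≤ Pot s` (`Pot_nonneg`). Otherwise
  `(L+1) h_{L+1}(s) ≤ 1 + L * h_{L+1}(s)` (`h ≤ 1`) `= 1 + mean_U (L * h_L(stepM P U s)) ≤ 1 + mean_U Pot (stepM P U s) ≤ Pot s`
  (`inv_step`, `drift`).
* `run_val`: `g_L(s) = avg (L*b) (if isT .. then F K else 0)`; induction: `Val - h_L ≤ g_L ≤ Val`. `L = 0`: if `isT s` then
  `Val s = F K`, `h = 0`; else `g = 0`, `h = 1`, `0 ≤ Val ≤ 1` (`Val_mem`). Step: `harm`.
-/

namespace Pool.Agent.TFP

open Finset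

private theorem ra_step (P : Par) (Ψ : St → ℚ) (L : ℕ) (s : St) :
    avg ((L + 1) * P.b) (fun l => Ψ (runM P (L + 1) l s)) =
      (∑ U ∈ range (2 ^ P.b), avg (L * P.b) (fun l => Ψ (runM P L l (stepM P U s)))) / 2 ^ P.b := by
  have h0 : (L + 1) * P.b = P.b + L * P.b := by ring
  rw [h0]
  have h1 := avg_take_drop P.b (L * P.b)
    (fun l l' => Ψ (runM P L l' (stepM P (Helper6.WB.val l) s)))
  have h2 := avg_val P.b (fun U => avg (L * P.b) (fun l' => Ψ (runM P L l' (stepM P U s))))
  exact h1.trans h2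

private theorem ra_T {P : Par} {s : St} (h : isT s = true) (U : ℕ) : stepM P U s = s := by
  unfold isT at h
  rw [Bool.and_eq_true] at h
  obtain ⟨h1, h2⟩ := h
  have h3 : s.1 = false := by
    cases hs : s.1
    · rfl
    · rw [hs] at h1
      exact absurd h1 (by decide)
  unfold stepM
  rw [h3, h2]
  simp

private theorem ra_run {P : Par} {s : St} (h : isT s = true) (L : ℕ) (l : List Bool) :
    runM P L l s = s := by
  induction L generalizing l with
  | zero => rfl
  | succ L ih =>
    show runM P L (l.drop P.b) (stepM P (Helper6.WB.val (l.take P.b)) s) = s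
    rw [ra_T h]
    exact ih _

private theorem ra_lam {P : Par} (hP : P.Ok) : 0 < P.lam ∧ 0 ≤ P.y ∧ P.y < 1 := by
  obtain ⟨h1, h2, h3, -, -⟩ := hP
  have hc : (0 : ℚ) < (P.c : ℚ) := by exact_mod_cast h1
  have ha : (P.c : ℚ) < (P.a : ℚ) := by exact_mod_cast h2
  have hy : (P.y1 : ℚ) < (P.y2 : ℚ) := by exact_mod_cast h3
  have hy1 : (0 : ℚ) ≤ (P.y1 : ℚ) := Nat.cast_nonneg _
  refine ⟨div_pos hc (by linarith), div_nonneg hy1 (by linarith), ?_⟩
  show (P.y1 : ℚ) / P.y2 < 1
  rw [div_lt_one (by linarith)]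
  exact hy

private theorem ra_mean_le {b : ℕ} {f g : ℕ → ℚ} (h : ∀ U, f U ≤ g U) :
    (∑ U ∈ range (2 ^ b), f U) / 2 ^ b ≤ (∑ U ∈ range (2 ^ b), g U) / 2 ^ b := by
  have h2 : (0 : ℚ) < 2 ^ b := by positivity
  exact div_le_div_of_nonneg_right (Finset.sum_le_sum fun U _ => h U) h2.le

theorem run_term {P : Par} (hP : P.Ok) {V : Finset ℕ} {θ0 : ℚ} {B : ℚ} (hB0 : 0 ≤ B)
    (hB : 1 + 3 * (P.lam / (1 + P.lam)) ≤
      B * (1 - P.lam / (1 + P.lam) * P.D + P.lam / (1 + P.lam) * θ0)) (L : ℕ) {s : St}
    (hs : Inv V P.D P.lam P.y θ0 s) :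
    L * avg (L * P.b) (fun l => if isT (runM P L l s) then 0 else 1) ≤ Pot P V B s := by
  obtain ⟨hl, hy0, hy1⟩ := ra_lam hP
  induction L generalizing s with
  | zero =>
    rw [Nat.cast_zero, zero_mul]
    exact Pot_nonneg hl hy0 hy1 hB0 hs
  | succ L ih =>
    cases hT : isT s with
    | true =>
      have h1 : avg ((L + 1) * P.b) (fun l => if isT (runM P (L + 1) l s) then (0 : ℚ) else 1) = 0 := by
        refine Eq.trans (avg_congr fun l _ => ?_) (avg_const ((L + 1) * P.b) 0)
        rw [ra_run hT, hT]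
        rfl
      rw [h1, mul_zero]
      exact Pot_nonneg hl hy0 hy1 hB0 hs
    | false =>
      have h1 := ra_step P (fun t => if isT t then (0 : ℚ) else 1) L s
      have h2 : avg ((L + 1) * P.b) (fun l => if isT (runM P (L + 1) l s) then (0 : ℚ) else 1) ≤ 1 := by
        refine le_trans (avg_mono (H := fun _ => 1) fun l _ => ?_)
          (le_of_eq (avg_const ((L + 1) * P.b) 1))
        split_ifs
        · exact zero_le_one
        · exact le_refl 1
      have h3 : (L : ℚ) * avg ((L + 1) * P.b)
          (fun l => if isT (runM P (L + 1) l s) then (0 : ℚ) else 1) =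
          (∑ U ∈ range (2 ^ P.b), (L : ℚ) * avg (L * P.b)
            (fun l => if isT (runM P L l (stepM P U s)) then (0 : ℚ) else 1)) / 2 ^ P.b := by
        rw [h1, ← Finset.mul_sum, mul_div_assoc]
      have h4 := ra_mean_le (b := P.b) (f := fun U => (L : ℚ) * avg (L * P.b)
            (fun l => if isT (runM P L l (stepM P U s)) then (0 : ℚ) else 1))
          (g := fun U => Pot P V B (stepM P U s)) fun U => ih (inv_step P hs U)
      have h5 := drift hP hB0 hB hs hT
      have h6 : (((L + 1 : ℕ) : ℚ)) * avg ((L + 1) * P.b)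
          (fun l => if isT (runM P (L + 1) l s) then (0 : ℚ) else 1) =
          (L : ℚ) * avg ((L + 1) * P.b)
            (fun l => if isT (runM P (L + 1) l s) then (0 : ℚ) else 1) +
          avg ((L + 1) * P.b) (fun l => if isT (runM P (L + 1) l s) then (0 : ℚ) else 1) := by
        push_cast
        ring
      rw [h6, h3]
      linarith

theorem run_val {P : Par} (hP : P.Ok) {V : Finset ℕ} {θ0 : ℚ} {F : Finset ℕ → ℚ}
    (hF : ∀ K, 0 ≤ F K ∧ F K ≤ 1) (L : ℕ) {s : St} (hs : Inv V P.D P.lam P.y θ0 s) :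
    Val P.lam P.y V (fun _ _ => 0) 0 F s -
        avg (L * P.b) (fun l => if isT (runM P L l s) then 0 else 1) ≤
      avg (L * P.b) (fun l => if isT (runM P L l s) then F (runM P L l s).2.1.2.2.toFinset else 0) ∧
    avg (L * P.b) (fun l => if isT (runM P L l s) then F (runM P L l s).2.1.2.2.toFinset else 0) ≤
      Val P.lam P.y V (fun _ _ => 0) 0 F s := by
  obtain ⟨hl, hy0, hy1⟩ := ra_lam hP
  induction L generalizing s with
  | zero =>
    have hm := Val_mem hl hy0 hy1 hF hs
    have e1 : avg (0 * P.b) (fun l => if isT (runM P 0 l s) then (0 : ℚ) else 1) =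
        if isT s then 0 else 1 := by
      rw [← avg_const (0 * P.b) (if isT s then (0 : ℚ) else 1)]
      rfl
    have e2 : avg (0 * P.b) (fun l => if isT (runM P 0 l s) then
        F (runM P 0 l s).2.1.2.2.toFinset else 0) =
        if isT s then F s.2.1.2.2.toFinset else 0 := by
      rw [← avg_const (0 * P.b) (if isT s then F s.2.1.2.2.toFinset else 0)]
      rfl
    rw [e1, e2]
    cases hT : isT s with
    | true =>
      have hv : Val P.lam P.y V (fun _ _ => 0) 0 F s = F s.2.1.2.2.toFinset := by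
        unfold isT at hT
        rw [Bool.and_eq_true] at hT
        obtain ⟨h1, h2⟩ := hT
        have h3 : s.1 = false := by
          cases hs : s.1
          · rfl
          · rw [hs] at h1
            exact absurd h1 (by decide)
        have h4 : s.2.2 = [] := by
          rw [List.isEmpty_iff] at h2
          exact h2
        unfold Val
        rw [h3, h4]
        simp [RR]
      rw [hv]
      simp
    | false =>
      simp only [Bool.false_eq_true, if_false]
      exact ⟨by linarith [hm.2], hm.1⟩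
  | succ L ih =>
    have h1 := ra_step P (fun t => if isT t then (0 : ℚ) else 1) L s
    have h2 := ra_step P (fun t => if isT t then F t.2.1.2.2.toFinset else 0) L s
    have h3 := harm hP F hs
    have h4 := ra_mean_le (b := P.b) (f := fun U => Val P.lam P.y V (fun _ _ => 0) 0 F (stepM P U s) -
          avg (L * P.b) (fun l => if isT (runM P L l (stepM P U s)) then (0 : ℚ) else 1))
        (g := fun U => avg (L * P.b) (fun l => if isT (runM P L l (stepM P U s)) then
          F (runM P L l (stepM P U s)).2.1.2.2.toFinset else 0)) fun U => (ih (inv_step P hs U)).1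
    have h5 := ra_mean_le (b := P.b)
        (f := fun U => avg (L * P.b) (fun l => if isT (runM P L l (stepM P U s)) then
          F (runM P L l (stepM P U s)).2.1.2.2.toFinset else 0))
        (g := fun U => Val P.lam P.y V (fun _ _ => 0) 0 F (stepM P U s))
        fun U => (ih (inv_step P hs U)).2
    rw [Finset.sum_sub_distrib, sub_div, h3] at h4
    rw [h3] at h5
    refine ⟨?_, ?_⟩
    · rw [show avg ((L + 1) * P.b) (fun l => if isT (runM P (L + 1) l s) then (0 : ℚ) else 1) = _
        from h1, show avg ((L + 1) * P.b) (fun l => if isT (runM P (L + 1) l s) then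
          F (runM P (L + 1) l s).2.1.2.2.toFinset else 0) = _ from h2]
      exact h4
    · rw [show avg ((L + 1) * P.b) (fun l => if isT (runM P (L + 1) l s) then
          F (runM P (L + 1) l s).2.1.2.2.toFinset else 0) = _ from h2]
      exact h5

end Pool.Agent.TFP
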