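import Pool.Agent.TFP.Comp

set_option autoImplicit false

/-!
# TFP-Split: cutting an edge set at the component of `v`, and gluing
-/

namespace Pool.Agent.TFP

open Finset

private theorem sp_mem_ins {S : Finset ℕ} {A : Finset Ed} {e : Ed} :
    e ∈ ins S A ↔ e ∈ A ∧ (e.2.1 ∈ S ∧ e.2.2 ∈ S) := Finset.mem_filter

private theorem sp_mem_out {S : Finset ℕ} {A : Finset Ed} {e : Ed} :
    e ∈ out S A ↔ e ∈ A ∧ (e.2.1 ∉ S ∧ e.2.2 ∉ S) := Finset.mem_filter

theorem split_eq (A : Finset Ed) (v : ℕ) : ins (comp A v) A ∪ out (comp A v) A = A := by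
  ext e
  rw [Finset.mem_union, sp_mem_ins, sp_mem_out]
  constructor
  · rintro (h | h)
    · exact h.1
    · exact h.1
  · intro h
    have h1 := edge_comp h v
    by_cases h2 : e.2.1 ∈ comp A v
    · exact Or.inl ⟨h, h2, h1.1 h2⟩
    · exact Or.inr ⟨h, h2, fun h3 => h2 (h1.2 h3)⟩

theorem split_disj (S : Finset ℕ) (A B : Finset Ed) : Disjoint (ins S A) (out S B) := by
  rw [Finset.disjoint_left]
  intro e h1 h2
  exact (sp_mem_out.1 h2).2.1 (sp_mem_ins.1 h1).2.1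

theorem conn_comp (A : Finset Ed) (v : ℕ) : ConnOn (ins (comp A v) A) (comp A v) := by
  have key : ∀ w, Rch A v w → Rch (ins (comp A v) A) v w := by
    intro w hw
    induction hw with
    | refl => exact Relation.ReflTransGen.refl
    | @tail b c hb hbc ih =>
      refine Relation.ReflTransGen.tail ih ?_
      obtain ⟨e, he, hj⟩ := hbc
      have hb' : b ∈ comp A v := mem_comp.2 hb
      have hc' : c ∈ comp A v := mem_comp.2 (Relation.ReflTransGen.tail hb ⟨e, he, hj⟩)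
      refine ⟨e, sp_mem_ins.2 ⟨he, ?_⟩, hj⟩
      rcases hj with ⟨h1, h2⟩ | ⟨h1, h2⟩
      · rw [h1, h2]
        exact ⟨hb', hc'⟩
      · rw [h1, h2]
        exact ⟨hc', hb'⟩
  intro a ha b hb
  exact (Rch.symm (key a (mem_comp.1 ha))).trans (key b (mem_comp.1 hb))

theorem join_comp {S : Finset ℕ} {v : ℕ} {A₁ A₂ : Finset Ed} (hv : v ∈ S)
    (h1 : ∀ e ∈ A₁, e.2.1 ∈ S ∧ e.2.2 ∈ S) (hc : ConnOn A₁ S)
    (h2 : ∀ e ∈ A₂, e.2.1 ∉ S ∧ e.2.2 ∉ S) :
    comp (A₁ ∪ A₂) v = S ∧ ins S (A₁ ∪ A₂) = A₁ ∧ out S (A₁ ∪ A₂) = A₂ := by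
  have key : ∀ w, Rch (A₁ ∪ A₂) v w → w ∈ S := by
    intro w hw
    induction hw with
    | refl => exact hv
    | @tail b c hb hbc ih =>
      obtain ⟨e, he, hj⟩ := hbc
      rcases Finset.mem_union.1 he with he | he
      · rcases hj with ⟨_, h4⟩ | ⟨h3, _⟩
        · rw [← h4]
          exact (h1 e he).2
        · rw [← h3]
          exact (h1 e he).1
      · rcases hj with ⟨h3, _⟩ | ⟨_, h4⟩
        · exact absurd (h3 ▸ ih) (h2 e he).1
        · exact absurd (h4 ▸ ih) (h2 e he).2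
  refine ⟨?_, ?_, ?_⟩
  · ext w
    rw [mem_comp]
    exact ⟨key w, fun hw => (hc v hv w hw).mono Finset.subset_union_left⟩
  · ext e
    rw [sp_mem_ins, Finset.mem_union]
    constructor
    · rintro ⟨h3 | h3, h4, _⟩
      · exact h3
      · exact absurd h4 (h2 e h3).1
    · intro h3
      exact ⟨Or.inl h3, h1 e h3⟩
  · ext e
    rw [sp_mem_out, Finset.mem_union]
    constructor
    · rintro ⟨h3 | h3, h4, _⟩
      · exact absurd (h1 e h3).1 h4
      · exact h3
    · intro h3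
      exact ⟨Or.inr h3, h2 e h3⟩

end Pool.Agent.TFP
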