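import Pool.Agent.TFP.ZEr

set_option autoImplicit false

/-!
# TFP-ThLow: lower bound for the acceptance probability

Plan. `q_single_low`: induction on `(star u G).card`. If `star u G = ∅`: `q_iso`. Otherwise `e ∈ star u G`; with
`G' = G.erase e`: `q G u {u} = Z (out {u} G) / Z G` (`q_single`), `out {u} G = out {u} G'`,
`Z G = Z G' * (1 + lam θ) ≤ Z G' * (1 + lam)` (`Z_erase` with `e` joining `u` and its other end, `th_le_one`),
`(star u G').card = (star u G).card - 1`.
`th_low`: the term `K = {u}` of the sum (`v ∉ {u}`), all terms are `≥ 0`.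
-/

namespace Pool.Agent.TFP

open Finset

variable {lam y : ℚ}

private theorem low_aux (hl : 0 < lam) (hy0 : 0 ≤ y) (hy1 : y < 1) (u : ℕ) (n : ℕ) :
    ∀ G : Finset Ed, NL G → (star u G).card = n → (1 / (1 + lam)) ^ n ≤ q lam y G u {u} := by
  induction n with
  | zero =>
    intro G hG h
    rw [Finset.card_eq_zero] at h
    rw [q_iso hl hy0 hy1 hG h, if_pos rfl, pow_zero]
  | succ n ih =>
    intro G hG h
    have hne : (star u G).Nonempty := by
      rw [← Finset.card_pos, h]
      exact Nat.succ_pos n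
    obtain ⟨e, he⟩ := hne
    have he2 : e ∈ G ∧ (e.2.1 = u ∨ e.2.2 = u) := by
      simpa [star] using he
    obtain ⟨heG, heu⟩ := he2
    have hG' : NL (G.erase e) := hG.mono (Finset.erase_subset e G)
    have hout : out {u} G = out {u} (G.erase e) := by
      ext f
      simp only [out, Finset.mem_filter, Finset.mem_erase, Finset.mem_singleton]
      constructor
      · rintro ⟨h1, h2, h3⟩
        refine ⟨⟨?_, h1⟩, h2, h3⟩
        rintro rfl
        rcases heu with h4 | h4
        · exact h2 h4
        · exact h3 h4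
      · rintro ⟨⟨_, h1⟩, h2, h3⟩
        exact ⟨h1, h2, h3⟩
    have hst : star u (G.erase e) = (star u G).erase e := by
      ext f
      simp only [star, Finset.mem_filter, Finset.mem_erase]
      tauto
    have hcard : (star u (G.erase e)).card = n := by
      rw [hst, Finset.card_erase_of_mem he, h]
      rfl
    have h1 := ih _ hG' hcard
    have hJ : Jn e e.2.1 e.2.2 := Or.inl ⟨rfl, rfl⟩
    have hends : e.2.2 ∈ ends G := by
      simp only [ends, Finset.mem_union, Finset.mem_image]
      exact Or.inr ⟨e, heG, rfl⟩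
    have hsub : ends (G.erase e) ⊆ ends G := by
      intro a ha
      simp only [ends, Finset.mem_union, Finset.mem_image, Finset.mem_erase] at ha ⊢
      rcases ha with ⟨f, ⟨_, hf⟩, hfa⟩ | ⟨f, ⟨_, hf⟩, hfa⟩
      · exact Or.inl ⟨f, hf, hfa⟩
      · exact Or.inr ⟨f, hf, hfa⟩
    have hZ := Z_erase hl hy0 hy1 hG (V := ends G) (Finset.Subset.refl _) heG hJ
    have hth := th_le_one hl hy0 hy1 hG' (V := ends G) hsub hends e.2.1
    have hZ' := Z_pos hl hy0 hy1 hG'
    have hZG := Z_pos hl hy0 hy1 hG
    have hZo := Z_pos hl hy0 hy1 (hG'.mono (Finset.filter_subset (fun e => e.2.1 ∉ ({u} : Finset ℕ) ∧ e.2.2 ∉ ({u} : Finset ℕ)) (G.erase e)))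
    have hle : Z lam y G ≤ Z lam y (G.erase e) * (1 + lam) := by
      rw [hZ]
      refine mul_le_mul_of_nonneg_left ?_ hZ'.le
      have := mul_le_mul_of_nonneg_left hth hl.le
      linarith
    rw [q_single hy1 hG, hout]
    rw [q_single hy1 hG'] at h1
    have h2 : Z lam y (out {u} (G.erase e)) / (Z lam y (G.erase e) * (1 + lam)) ≤
        Z lam y (out {u} (G.erase e)) / Z lam y G :=
      div_le_div_of_nonneg_left hZo.le hZG hle
    refine le_trans ?_ h2
    rw [pow_succ, ← div_div]
    rw [mul_one_div]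
    exact div_le_div_of_nonneg_right h1 (by linarith)

theorem q_single_low (hl : 0 < lam) (hy0 : 0 ≤ y) (hy1 : y < 1) {G : Finset Ed} (hG : NL G)
    (u : ℕ) : (1 / (1 + lam)) ^ (star u G).card ≤ q lam y G u {u} :=
  low_aux hl hy0 hy1 u _ G hG rfl

theorem th_low (hl : 0 < lam) (hy0 : 0 ≤ y) (hy1 : y < 1) {G : Finset Ed} (hG : NL G)
    {V : Finset ℕ} {u v : ℕ} (hu : u ∈ V) (huv : v ≠ u) :
    (1 / (1 + lam)) ^ (star u G).card * y ^ (btw v {u} G).card ≤ th lam y V G u v := by
  have h1 : q lam y G u {u} * thK y v {u} G ≤ th lam y V G u v := by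
    unfold th
    refine Finset.single_le_sum (f := fun K => q lam y G u K * thK y v K G) (fun K _ => ?_) ?_
    · exact mul_nonneg (q_nonneg hl hy0 hy1 hG u K) (thK_nonneg hy0 v K G)
    · rw [Finset.mem_powerset, Finset.singleton_subset_iff]
      exact hu
  refine le_trans ?_ h1
  have h2 : thK y v {u} G = y ^ (btw v {u} G).card := by
    unfold thK
    rw [if_neg]
    rw [Finset.mem_singleton]
    exact huv
  rw [h2]
  exact mul_le_mul_of_nonneg_right (q_single_low hl hy0 hy1 hG u) (pow_nonneg hy0 _)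

end Pool.Agent.TFP
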