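import Pool.Agent.TFP.RunA

set_option autoImplicit false

/-!
# TFP-TrialA: one trial

Plan. `v = e.2.1`, `u = e.2.2`, `F K = thK y v K E.toFinset ∈ [0, 1]`. `trial / y2^D = if isT s' then F K else 0` with
`s' = runM P L l (ev u E [])`, `K = s'.2.1.2.2.toFinset`: for `v ∉ K`: `y1^j * y2^(D-j) / y2^D = (y1/y2)^j`, `j = jj .. =
(btw v K E).card ≤ D` (`jj_eq`). `Val (ev u E []) = ∑_K q E u K * F K = th lam y V E.toFinset u v`. Invariant of `ev u E []`:
`E.Nodup`, `Cl.mono`, `u ∈ V` since `e ∈ (e :: E).toFinset`. Then `run_val`, `run_term`, `Pot_start`: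
`h ≤ Pot / L ≤ 2^b (1 + B D) / L`.
`trial_le`: `j ≤ D` by `List.length_take`, `y1 ≤ y2`.
-/

namespace Pool.Agent.TFP

open Finset

private theorem jj_le (P : Par) (v : ℕ) (K : List ℕ) (G : List Ed) : jj P v K G ≤ P.D := by
  unfold jj
  rw [List.length_take]
  exact min_le_left _ _

private theorem trial_q {P : Par} (hP : P.Ok) {V : Finset ℕ} {θ0 : ℚ} (L : ℕ) {e : Ed}
    {E : List Ed} (hn : E.Nodup) (hC : Cl V P.D P.lam P.y θ0 E.toFinset) (l : List Bool) :
    1 / (P.y2 : ℚ) ^ P.D * (trial P L e E l : ℚ) =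
      if isT (runM P L l (ev e.2.2 E [])) then
        thK P.y e.2.1 (runM P L l (ev e.2.2 E [])).2.1.2.2.toFinset E.toFinset else 0 := by
  have hy2 : (P.y2 : ℚ) ≠ 0 := by
    have h1 := hP.2.2.1
    have h2 : 0 < P.y2 := lt_of_le_of_lt (Nat.zero_le _) h1
    exact_mod_cast h2.ne'
  unfold trial pay
  generalize runM P L l (ev e.2.2 E []) = s
  have hj := jj_eq (P := P) (v := e.2.1) (K := s.2.1.2.2) hn (hC.2.2.1 e.2.1)
  have hjl := jj_le P e.2.1 s.2.1.2.2 E
  unfold thK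
  by_cases hT : isT s = true
  · by_cases hv : e.2.1 ∈ s.2.1.2.2
    · have h1 : s.2.1.2.2.contains e.2.1 = true := by simpa using hv
      have h2 : e.2.1 ∈ s.2.1.2.2.toFinset := List.mem_toFinset.2 hv
      rw [hT, h1, if_pos h2]
      simp
    · have h1 : s.2.1.2.2.contains e.2.1 = false := by simpa using hv
      have h2 : e.2.1 ∉ s.2.1.2.2.toFinset := fun h => hv (List.mem_toFinset.1 h)
      rw [hT, h1, if_neg h2, ← hj]
      simp only [Bool.not_false, Bool.and_self, if_true]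
      obtain ⟨k, hk⟩ := Nat.exists_eq_add_of_le hjl
      have h3 : P.D - jj P e.2.1 s.2.1.2.2 E = k := by omega
      rw [h3]
      unfold Par.y
      rw [div_pow]
      conv_lhs => rw [hk]
      push_cast
      rw [pow_add]
      field_simp
  · have hT' : isT s = false := by simpa using hT
    simp [hT']

theorem trial_le {P : Par} (hP : P.Ok) (L : ℕ) (e : Ed) (E : List Ed) (l : List Bool) :
    trial P L e E l ≤ P.y2 ^ P.D := by
  unfold trial pay
  split_ifs with h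
  · have h1 := jj_le P e.2.1 (runM P L l (ev e.2.2 E [])).2.1.2.2 E
    calc P.y1 ^ jj P e.2.1 (runM P L l (ev e.2.2 E [])).2.1.2.2 E *
          P.y2 ^ (P.D - jj P e.2.1 (runM P L l (ev e.2.2 E [])).2.1.2.2 E)
        ≤ P.y2 ^ jj P e.2.1 (runM P L l (ev e.2.2 E [])).2.1.2.2 E *
          P.y2 ^ (P.D - jj P e.2.1 (runM P L l (ev e.2.2 E [])).2.1.2.2 E) :=
          Nat.mul_le_mul_right _ (Nat.pow_le_pow_left hP.2.2.1.le _)
      _ = P.y2 ^ P.D := by
          rw [← pow_add, Nat.add_sub_cancel' h1]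
  · exact Nat.zero_le _

theorem trial_mean {P : Par} (hP : P.Ok) {V : Finset ℕ} {θ0 : ℚ} {B : ℚ} (hB0 : 0 ≤ B)
    (hB : 1 + 3 * (P.lam / (1 + P.lam)) ≤
      B * (1 - P.lam / (1 + P.lam) * P.D + P.lam / (1 + P.lam) * θ0)) {L : ℕ} (hL : 0 < L)
    {e : Ed} {E : List Ed} (hn : (e :: E).Nodup)
    (hC : Cl V P.D P.lam P.y θ0 (e :: E).toFinset) :
    th P.lam P.y V E.toFinset e.2.2 e.2.1 - 2 ^ P.b * (1 + B * P.D) / L ≤
        avg (L * P.b) (fun l => (trial P L e E l : ℚ)) / P.y2 ^ P.D ∧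
      avg (L * P.b) (fun l => (trial P L e E l : ℚ)) / P.y2 ^ P.D ≤
        th P.lam P.y V E.toFinset e.2.2 e.2.1 := by
  obtain ⟨hl, hy0, hy1, _, _⟩ := Par.facts hP
  have hEn : E.Nodup := (List.nodup_cons.1 hn).2
  have hsub : E.toFinset ⊆ (e :: E).toFinset := by
    intro f hf
    rw [List.mem_toFinset] at hf ⊢
    exact List.mem_cons_of_mem _ hf
  have hCE : Cl V P.D P.lam P.y θ0 E.toFinset := hC.mono hsub
  have hu : e.2.2 ∈ V := by
    apply hC.2.1
    apply mem_ends_right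
    rw [List.mem_toFinset]
    exact List.mem_cons_self
  have hs : Inv V P.D P.lam P.y θ0 (ev e.2.2 E []) := by
    refine ⟨fun _ => ⟨hEn, hCE, hu⟩, ?_⟩
    intro f hf
    exact absurd hf List.not_mem_nil
  have hVal : Val P.lam P.y V (fun _ _ => 0) 0 (fun K => thK P.y e.2.1 K E.toFinset)
      (ev e.2.2 E []) = th P.lam P.y V E.toFinset e.2.2 e.2.1 := by
    simp [Val, RR, th]
  have hrv := run_val hP (F := fun K => thK P.y e.2.1 K E.toFinset)
    (fun K => ⟨thK_nonneg hy0 _ _ _, thK_le_one hy0 hy1 _ _ _⟩) L hs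
  have hrt := run_term hP hB0 hB L hs
  have hps := Pot_start (P := P) hB0 hCE e.2.2
  rw [hVal] at hrv
  have havg : avg (L * P.b) (fun l => (trial P L e E l : ℚ)) / P.y2 ^ P.D =
      avg (L * P.b) (fun l => if isT (runM P L l (ev e.2.2 E [])) then
        thK P.y e.2.1 (runM P L l (ev e.2.2 E [])).2.1.2.2.toFinset E.toFinset else 0) := by
    rw [div_eq_mul_one_div, mul_comm, ← avg_smul]
    exact avg_congr fun l _ => trial_q hP L hEn hCE l
  rw [havg]
  refine ⟨?_, hrv.2⟩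
  refine le_trans ?_ hrv.1
  apply sub_le_sub_left
  rw [le_div_iff₀ (by exact_mod_cast hL), mul_comm]
  exact hrt.trans hps

end Pool.Agent.TFP
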