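import Pool.Agent.TFP.ZPos
import Pool.Agent.TFP.WId

set_option autoImplicit false

/-!
# TFP-ZEr: the ratio `Z(G) / Z(G - e)`

Plan. `th_nonneg`, `th_le_one`: `0 ≤ thK ≤ 1` (`pow_le_one₀`), `q_nonneg`, `q_sum`.
`Z_erase`: `W_id` with `R = 1`, `β = y - 1`, `μ = lam / β`, `μ * β = lam`, `1 + β = y`: the left hand side is `Z G`
(`ZZ_sum`), the first term on the right is `Z (G.erase e)`, and the inner sum over `S` is
`Z (out K (G.erase e))` (`ZZ_sum`, `ends (out K G') ⊆ V`, `v ∈ V`), so the term of `K` is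
`thK y v K G' * ww G' u K = thK y v K G' * q G' u K * Z G'`.
-/

namespace Pool.Agent.TFP

open Finset

variable {lam y : ℚ}

theorem thK_nonneg (hy0 : 0 ≤ y) (v : ℕ) (K : Finset ℕ) (G : Finset Ed) : 0 ≤ thK y v K G := by
  unfold thK
  split_ifs
  · exact le_rfl
  · exact pow_nonneg hy0 _

theorem thK_le_one (hy0 : 0 ≤ y) (hy1 : y < 1) (v : ℕ) (K : Finset ℕ) (G : Finset Ed) :
    thK y v K G ≤ 1 := by
  unfold thK
  split_ifs
  · exact zero_le_one
  · exact pow_le_one₀ hy0 hy1.le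

theorem th_nonneg (hl : 0 < lam) (hy0 : 0 ≤ y) (hy1 : y < 1) {G : Finset Ed} (hG : NL G)
    (V : Finset ℕ) (u v : ℕ) : 0 ≤ th lam y V G u v := by
  unfold th
  exact Finset.sum_nonneg fun K _ => mul_nonneg (q_nonneg hl hy0 hy1 hG u K) (thK_nonneg hy0 v K G)

theorem th_le_one (hl : 0 < lam) (hy0 : 0 ≤ y) (hy1 : y < 1) {G : Finset Ed} (hG : NL G)
    {V : Finset ℕ} (hV : ends G ⊆ V) {u : ℕ} (hu : u ∈ V) (v : ℕ) : th lam y V G u v ≤ 1 := by
  unfold th
  rw [← q_sum hl hy0 hy1 hG hV hu]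
  refine Finset.sum_le_sum fun K _ => ?_
  exact mul_le_of_le_one_right (q_nonneg hl hy0 hy1 hG u K) (thK_le_one hy0 hy1 v K G)

private theorem ends_out (K : Finset ℕ) {G : Finset Ed} {V : Finset ℕ} (hV : ends G ⊆ V) :
    ends (out K G) ⊆ V :=
  (ends_mono (Finset.filter_subset _ _)).trans hV

theorem Z_erase (hl : 0 < lam) (hy0 : 0 ≤ y) (hy1 : y < 1) {G : Finset Ed} (hG : NL G)
    {V : Finset ℕ} (hV : ends G ⊆ V) {e : Ed} (he : e ∈ G) {v u : ℕ} (hJ : Jn e v u) :
    Z lam y G = Z lam y (G.erase e) * (1 + lam * th lam y V (G.erase e) u v) := by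
  have h1 := mem_ends_left he
  have h2 := mem_ends_right he
  have hne := hG e he
  have hv : v ∈ V := by
    rcases hJ with ⟨a, b⟩ | ⟨a, b⟩
    · rw [← a]; exact hV h1
    · rw [← b]; exact hV h2
  have hvu : v ≠ u := by
    rcases hJ with ⟨a, b⟩ | ⟨a, b⟩
    · rw [← a, ← b]; exact hne
    · rw [← a, ← b]; exact hne.symm
  have hG' : NL (G.erase e) := hG.mono (Finset.erase_subset _ _)
  have hV' : ends (G.erase e) ⊆ V := (ends_mono (Finset.erase_subset _ _)).trans hV
  have hβ : y - 1 ≠ 0 := by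
    intro h
    have : y = 1 := by linarith
    exact absurd this hy1.ne
  have hZ' : Z lam y (G.erase e) ≠ 0 := (Z_pos hl hy0 hy1 hG').ne'
  have hsum : ∀ H : Finset Ed, ends H ⊆ V →
      ∑ S ∈ V.powerset, ww (lam / (y - 1)) (y - 1) H v S * 1 = Z lam y H := by
    intro H hH
    unfold Z
    rw [← ZZ_sum (lam / (y - 1)) (y - 1) H v V (Finset.insert_subset hv hH)]
    exact Finset.sum_congr rfl fun S _ => mul_one _
  have key := W_id (lam / (y - 1)) (y - 1) he hvu hJ V (fun _ => 1)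
  rw [hsum G hV, hsum (G.erase e) hV', div_mul_cancel₀ lam hβ] at key
  have hK : ∀ K ∈ V.powerset,
      (if v ∈ K then 0 else (1 + (y - 1)) ^ (btw v K (G.erase e)).card) *
        (if u ∈ K then (lam / (y - 1)) ^ (K.card - 1) * cc (y - 1) K (G.erase e) else 0) *
        ∑ S ∈ V.powerset, ww (lam / (y - 1)) (y - 1) (out K (G.erase e)) v S * 1 =
      Z lam y (G.erase e) * (q lam y (G.erase e) u K * thK y v K (G.erase e)) := by
    intro K _
    rw [hsum (out K (G.erase e)) (ends_out K hV'), add_sub_cancel]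
    have hq : Z lam y (G.erase e) * (q lam y (G.erase e) u K * thK y v K (G.erase e)) =
        ww (lam / (y - 1)) (y - 1) (G.erase e) u K * thK y v K (G.erase e) := by
      unfold q
      rw [← mul_assoc, mul_div_cancel₀ _ hZ']
    rw [hq]
    unfold thK ww Z
    split_ifs <;> ring
  rw [Finset.sum_congr rfl hK, ← Finset.mul_sum] at key
  rw [key]
  unfold th
  ring

end Pool.Agent.TFP
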