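import Pool.Agent.TFP.Split
import Pool.Agent.TFP.RkS

set_option autoImplicit false

/-!
# TFP-ZSum: expansion of the partition function in the component of `v`

Plan. In `ZZ μ β G = ∑_{A ⊆ G} β^|A| μ^rk(A)` collect the `A` with `comp A v = S`
(`Finset.sum_fiberwise_of_maps_to`, `comp A v ∈ V.powerset` by `comp_subset`, `ends_mono`). For `S` with
`v ∉ S` there is no such `A` (`self_mem_comp`) and `ww = 0`. For `v ∈ S` use the bijection
`A ↦ (ins S A, out S A)` of `{A ⊆ G | comp A v = S}` with
`((ins S G).powerset.filter (ConnOn · S)) ×ˢ (out S G).powerset`, inverse `(A₁, A₂) ↦ A₁ ∪ A₂`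
(`Finset.sum_bij'` or `Finset.sum_nbij'`; `split_eq`, `conn_comp`, `join_comp`); `|A| = |A₁| + |A₂|`
(`split_disj`, `card_union_of_disjoint`), `rk A = |S| - 1 + rk A₂` (`rk_split`); the sum over the product
factors (`Finset.sum_product`, `Finset.sum_mul_sum`).
-/

namespace Pool.Agent.TFP

open Finset

private theorem zsum_ins_sub (S : Finset ℕ) (G : Finset Ed) : ins S G ⊆ G := filter_subset _ _

private theorem zsum_out_sub (S : Finset ℕ) (G : Finset Ed) : out S G ⊆ G := filter_subset _ _

private theorem zsum_ins_mono (S : Finset ℕ) {A G : Finset Ed} (h : A ⊆ G) : ins S A ⊆ ins S G :=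
  filter_subset_filter _ h

private theorem zsum_out_mono (S : Finset ℕ) {A G : Finset Ed} (h : A ⊆ G) : out S A ⊆ out S G :=
  filter_subset_filter _ h

private theorem zsum_join {S : Finset ℕ} {v : ℕ} (hv : v ∈ S) {G A₁ A₂ : Finset Ed}
    (h1 : A₁ ⊆ ins S G) (hc : ConnOn A₁ S) (h2 : A₂ ⊆ out S G) :
    comp (A₁ ∪ A₂) v = S ∧ ins S (A₁ ∪ A₂) = A₁ ∧ out S (A₁ ∪ A₂) = A₂ := by
  refine join_comp hv ?_ hc ?_
  · intro e he
    exact (mem_filter.1 (h1 he)).2
  · intro e he
    exact (mem_filter.1 (h2 he)).2

private theorem zsum_fiber (μ β : ℚ) (G : Finset Ed) (v : ℕ) (S : Finset ℕ) [DecidablePred fun A : Finset Ed => comp A v = S] :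
    ∑ A ∈ G.powerset with comp A v = S, β ^ A.card * μ ^ rk A = ww μ β G v S := by
  classical
  unfold ww
  split_ifs with hv
  · unfold cc ZZ
    rw [mul_assoc, Finset.sum_mul_sum, Finset.mul_sum]
    have hprod : ∀ F : Finset Ed → Finset Ed → ℚ,
        ∑ i ∈ (ins S G).powerset.filter (fun A => ConnOn A S), ∑ j ∈ (out S G).powerset, F i j =
        ∑ x ∈ ((ins S G).powerset.filter (fun A => ConnOn A S)) ×ˢ (out S G).powerset, F x.1 x.2 :=
      fun F => (Finset.sum_product' _ _ _).symm
    simp_rw [Finset.mul_sum]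
    rw [hprod]
    refine Finset.sum_nbij' (fun A => (ins S A, out S A)) (fun x => x.1 ∪ x.2) ?_ ?_ ?_ ?_ ?_
    · intro A hA
      rw [mem_filter, mem_powerset] at hA
      rw [mem_product, mem_filter, mem_powerset, mem_powerset]
      refine ⟨⟨zsum_ins_mono S hA.1, ?_⟩, zsum_out_mono S hA.1⟩
      have h := conn_comp A v
      rw [hA.2] at h
      exact h
    · intro x hx
      rw [mem_product, mem_filter, mem_powerset, mem_powerset] at hx
      rw [mem_filter, mem_powerset]
      exact ⟨union_subset (hx.1.1.trans (zsum_ins_sub S G)) (hx.2.trans (zsum_out_sub S G)),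
        (zsum_join hv hx.1.1 hx.1.2 hx.2).1⟩
    · intro A hA
      rw [mem_filter, mem_powerset] at hA
      have h := split_eq A v
      rw [hA.2] at h
      exact h
    · intro x hx
      rw [mem_product, mem_filter, mem_powerset, mem_powerset] at hx
      have h := zsum_join hv hx.1.1 hx.1.2 hx.2
      exact Prod.ext h.2.1 h.2.2
    · intro A hA
      rw [mem_filter, mem_powerset] at hA
      have h := split_eq A v
      have hr := rk_split A v
      rw [hA.2] at h hr
      have hcard : A.card = (ins S A).card + (out S A).card := by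
        rw [← card_union_of_disjoint (split_disj S A A), h]
      simp only
      rw [hcard, hr, pow_add, pow_add]
      ring
  · refine Finset.sum_eq_zero fun A hA => ?_
    rw [mem_filter] at hA
    exact absurd (hA.2 ▸ self_mem_comp A v) hv

theorem ZZ_sum (μ β : ℚ) (G : Finset Ed) (v : ℕ) (V : Finset ℕ) (hV : insert v (ends G) ⊆ V) :
    ∑ S ∈ V.powerset, ww μ β G v S = ZZ μ β G := by
  classical
  unfold ZZ
  rw [← Finset.sum_fiberwise_of_maps_to (t := V.powerset) (g := fun A => comp A v)]
  · exact Finset.sum_congr rfl fun S _ => (zsum_fiber μ β G v S).symm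
  · intro A hA
    rw [mem_powerset] at hA
    rw [mem_powerset]
    exact comp_subset ((insert_subset_insert v (ends_mono hA)).trans hV)

end Pool.Agent.TFP
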